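import Pool.Agent.helper14.NR.E12c.PN1

/-!
Generated: certificates.
-/

namespace Pool.Agent.helper14.NR.E12c

open Pool.Agent.helper31.IA (Z)
open Pool.Agent.helper31.IX (Op XOps runX Cov CovD cov_split covD_split)
open Pool.Agent.helper31.IC (TD)
open Pool.Agent.helper63.RG (reloc)
open Pool.Agent.helper63.NF hiding TD
open Pool.Agent.helper14.CF (xE covD_E)
open Pool.Agent.helper14.NR (share)

mutual
theorem A1_c0_t8 : CovD 1 gA1 [(59556233216, 4581490688), (618475290624, 68719476736), (343597383680, 343597383680)] :=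
  covD_E kA1_eq (.n 2 (.n 2 (.n 2 (.l 0) (.l 0)) (.n 2 (.l 0) (.l 0))) (.n 1 (.n 2 (.n 2 (.l 0) (.l 0)) (.n 2 (.l 0) (.l 0))) (.n 2 (.l 0) (.l 0))))
    [(59556233216, 4581490688), (618475290624, 68719476736), (343597383680, 343597383680)] rfl (by decide +kernel)
theorem A1_c0_t9 : CovD 1 gA1 [(59556233216, 4581490688), (618475290624, 68719476736), (1030792151040, 343597383680)] :=
  covD_E kA1_eq (.n 1 (.n 2 (.n 2 (.n 2 (.l 0) (.l 0)) (.n 0 (.l 0) (.l 0))) (.n 0 (.n 2 (.l 0) (.l 0)) (.n 2 (.l 0) (.l 0)))) (.n 2 (.n 2 (.l 0) (.l 0)) (.n 2 (.l 0) (.l 0))))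
    [(59556233216, 4581490688), (618475290624, 68719476736), (1030792151040, 343597383680)] rfl (by decide +kernel)
end

mutual
theorem A1_c0_t10 : CovD 1 gA1 [(59556233216, 4581490688), (618475290624, 68719476736), (2061584302080, 687194767360)] :=
  covD_E kA1_eq (.n 2 (.n 0 (.n 2 (.n 0 (.n 2 (.l 0) (.l 0)) (.n 2 (.l 0) (.l 0))) (.n 2 (.l 0) (.l 0))) (.n 2 (.n 2 (.l 0) (.l 0)) (.n 2 (.l 0) (.l 0)))) (.n 2 (.n 0 (.n 2 (.l 0) (.l 0)) (.n 2 (.l 0) (.l 0))) (.n 2 (.l 0) (.l 0))))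
    [(59556233216, 4581490688), (618475290624, 68719476736), (2061584302080, 687194767360)] rfl (by decide +kernel)
theorem A1_c0_t12 : CovD 1 gA1 [(59556233216, 4581490688), (755914244096, 68719476736), (687194767360, 687194767360)] :=
  covD_E kA1_eq (.n 2 (.n 2 (.n 2 (.l 0) (.n 0 (.l 0) (.l 0))) (.n 0 (.n 2 (.l 0) (.l 0)) (.n 2 (.l 0) (.l 0)))) (.n 2 (.n 2 (.l 0) (.l 0)) (.n 0 (.n 2 (.l 0) (.l 0)) (.n 2 (.l 0) (.l 0)))))
    [(59556233216, 4581490688), (755914244096, 68719476736), (687194767360, 687194767360)] rfl (by decide +kernel)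
end

mutual
theorem A1_c0_t13 : CovD 1 gA1 [(59556233216, 4581490688), (755914244096, 68719476736), (2061584302080, 687194767360)] :=
  covD_E kA1_eq (.n 2 (.n 2 (.n 0 (.n 2 (.l 0) (.l 0)) (.n 2 (.l 0) (.l 0))) (.n 2 (.n 0 (.l 0) (.l 0)) (.l 0))) (.n 2 (.n 2 (.l 0) (.l 0)) (.n 0 (.l 0) (.l 0))))
    [(59556233216, 4581490688), (755914244096, 68719476736), (2061584302080, 687194767360)] rfl (by decide +kernel)
theorem A1_c0_t14 : CovD 1 gA1 [(59556233216, 4581490688), (687194767360, 137438953472), (4123168604160, 1374389534720)] :=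
  covD_E kA1_eq (.n 2 (.n 1 (.n 2 (.n 2 (.n 0 (.l 0) (.l 0)) (.l 0)) (.n 2 (.l 0) (.n 2 (.l 0) (.l 1)))) (.n 2 (.n 2 (.l 0) (.l 0)) (.n 2 (.l 0) (.n 2 (.l 0) (.l 1))))) (.n 2 (.n 0 (.l 1) (.l 1)) (.l 1)))
    [(59556233216, 4581490688), (687194767360, 137438953472), (4123168604160, 1374389534720)] rfl (by decide +kernel)
end

mutual
theorem A1_c0_t15 : CovD 1 gA1 [(59556233216, 4581490688), (687194767360, 137438953472), (8246337208320, 2748779069440)] :=
  covD_E kA1_eq (.n 2 (.n 2 (.n 0 (.l 1) (.l 1)) (.l 1)) (.n 0 (.l 1) (.l 1)))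
    [(59556233216, 4581490688), (687194767360, 137438953472), (8246337208320, 2748779069440)] rfl (by decide +kernel)
theorem A1_c0_t20 : CovD 1 gA1 [(68719214592, 4581490688), (618475290624, 68719476736), (687194767360, 687194767360)] :=
  covD_E kA1_eq (.n 2 (.n 2 (.n 1 (.n 2 (.l 0) (.l 0)) (.n 2 (.l 0) (.l 0))) (.n 2 (.n 2 (.l 0) (.l 0)) (.n 2 (.l 0) (.l 0)))) (.n 1 (.n 2 (.n 2 (.l 0) (.l 0)) (.n 2 (.l 0) (.l 0))) (.n 2 (.n 2 (.l 0) (.l 0)) (.n 2 (.l 0) (.l 0)))))
    [(68719214592, 4581490688), (618475290624, 68719476736), (687194767360, 687194767360)] rfl (by decide +kernel)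
end

mutual
theorem A1_c0_t21 : CovD 1 gA1 [(68719214592, 4581490688), (618475290624, 68719476736), (2061584302080, 687194767360)] :=
  covD_E kA1_eq (.n 2 (.n 2 (.n 0 (.n 2 (.l 0) (.l 0)) (.n 2 (.l 0) (.l 0))) (.n 2 (.n 0 (.l 0) (.l 0)) (.l 0))) (.n 2 (.n 2 (.l 0) (.l 0)) (.n 0 (.l 0) (.l 0))))
    [(68719214592, 4581490688), (618475290624, 68719476736), (2061584302080, 687194767360)] rfl (by decide +kernel)
theorem A1_c0_t22 : CovD 1 gA1 [(68719214592, 4581490688), (755914244096, 68719476736), (1374389534720, 1374389534720)] :=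
  covD_E kA1_eq (.n 2 (.n 2 (.n 2 (.n 2 (.l 0) (.l 0)) (.n 2 (.l 0) (.l 0))) (.n 2 (.n 2 (.l 0) (.l 0)) (.n 2 (.l 0) (.l 0)))) (.n 2 (.n 2 (.n 2 (.l 0) (.l 0)) (.n 2 (.l 0) (.l 0))) (.n 2 (.n 0 (.l 0) (.l 0)) (.l 0))))
    [(68719214592, 4581490688), (755914244096, 68719476736), (1374389534720, 1374389534720)] rfl (by decide +kernel)
end

mutual
theorem A1_c0_t23 : CovD 1 gA1 [(68719214592, 4581490688), (687194767360, 137438953472), (4123168604160, 1374389534720)] :=
  covD_E kA1_eq (.n 2 (.n 2 (.n 1 (.n 2 (.l 0) (.l 0)) (.n 2 (.l 0) (.l 0))) (.n 2 (.n 0 (.l 0) (.l 0)) (.n 2 (.n 0 (.l 0) (.l 0)) (.l 1)))) (.n 2 (.l 1) (.l 1)))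
    [(68719214592, 4581490688), (687194767360, 137438953472), (4123168604160, 1374389534720)] rfl (by decide +kernel)
theorem A1_c0_t24 : CovD 1 gA1 [(68719214592, 4581490688), (687194767360, 137438953472), (8246337208320, 2748779069440)] :=
  covD_E kA1_eq (.n 2 (.n 2 (.l 1) (.l 1)) (.n 0 (.l 1) (.l 1)))
    [(68719214592, 4581490688), (687194767360, 137438953472), (8246337208320, 2748779069440)] rfl (by decide +kernel)
end

mutual
theorem A1_c0_t30 : CovD 1 gA1 [(77882195968, 4581490688), (618475290624, 68719476736), (687194767360, 687194767360)] :=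
  covD_E kA1_eq (.n 2 (.n 2 (.n 2 (.l 0) (.n 0 (.l 0) (.l 0))) (.n 0 (.n 2 (.l 0) (.l 0)) (.n 2 (.l 0) (.l 0)))) (.n 0 (.n 2 (.n 2 (.l 0) (.l 0)) (.n 2 (.l 0) (.l 0))) (.n 2 (.n 2 (.l 0) (.l 0)) (.n 2 (.l 0) (.l 0)))))
    [(77882195968, 4581490688), (618475290624, 68719476736), (687194767360, 687194767360)] rfl (by decide +kernel)
theorem A1_c0_t31 : CovD 1 gA1 [(77882195968, 4581490688), (618475290624, 68719476736), (2061584302080, 687194767360)] :=
  covD_E kA1_eq (.n 2 (.n 2 (.n 2 (.n 0 (.l 0) (.l 0)) (.l 0)) (.n 2 (.l 0) (.l 0))) (.n 2 (.n 0 (.l 0) (.l 0)) (.l 0)))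
    [(77882195968, 4581490688), (618475290624, 68719476736), (2061584302080, 687194767360)] rfl (by decide +kernel)
end

mutual
theorem A1_c0_t32 : CovD 1 gA1 [(77882195968, 4581490688), (755914244096, 68719476736), (1374389534720, 1374389534720)] :=
  covD_E kA1_eq (.n 2 (.n 2 (.n 2 (.n 2 (.l 0) (.l 0)) (.n 2 (.l 0) (.l 0))) (.n 2 (.n 2 (.l 0) (.l 0)) (.n 2 (.l 0) (.l 0)))) (.n 2 (.n 2 (.n 2 (.l 0) (.l 0)) (.n 0 (.l 0) (.l 0))) (.n 2 (.n 0 (.l 0) (.l 0)) (.l 0))))
    [(77882195968, 4581490688), (755914244096, 68719476736), (1374389534720, 1374389534720)] rfl (by decide +kernel)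
theorem A1_c0_t33 : CovD 1 gA1 [(77882195968, 4581490688), (687194767360, 137438953472), (4123168604160, 1374389534720)] :=
  covD_E kA1_eq (.n 2 (.n 2 (.n 1 (.n 2 (.l 0) (.l 0)) (.n 0 (.l 0) (.l 0))) (.n 2 (.n 0 (.l 0) (.l 0)) (.n 2 (.n 0 (.l 0) (.l 0)) (.l 1)))) (.n 2 (.l 1) (.l 1)))
    [(77882195968, 4581490688), (687194767360, 137438953472), (4123168604160, 1374389534720)] rfl (by decide +kernel)
end

mutual
theorem A1_c0_t34 : CovD 1 gA1 [(77882195968, 4581490688), (687194767360, 137438953472), (8246337208320, 2748779069440)] :=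
  covD_E kA1_eq (.n 2 (.n 2 (.l 1) (.l 1)) (.n 0 (.l 1) (.l 1)))
    [(77882195968, 4581490688), (687194767360, 137438953472), (8246337208320, 2748779069440)] rfl (by decide +kernel)
theorem A1_c0_t39 : CovD 1 gA1 [(87045177344, 4581490688), (618475290624, 68719476736), (687194767360, 687194767360)] :=
  covD_E kA1_eq (.n 2 (.n 2 (.n 2 (.l 0) (.n 0 (.l 0) (.l 0))) (.n 0 (.n 2 (.l 0) (.l 0)) (.n 2 (.l 0) (.l 0)))) (.n 0 (.n 2 (.n 2 (.l 0) (.l 0)) (.n 2 (.l 0) (.l 0))) (.n 2 (.n 2 (.l 0) (.l 0)) (.n 2 (.l 0) (.l 0)))))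
    [(87045177344, 4581490688), (618475290624, 68719476736), (687194767360, 687194767360)] rfl (by decide +kernel)
end

mutual
theorem A1_c0_t40 : CovD 1 gA1 [(87045177344, 4581490688), (618475290624, 68719476736), (2061584302080, 687194767360)] :=
  covD_E kA1_eq (.n 2 (.n 2 (.n 2 (.l 0) (.l 0)) (.n 2 (.l 0) (.l 0))) (.n 2 (.n 0 (.l 0) (.l 0)) (.l 0)))
    [(87045177344, 4581490688), (618475290624, 68719476736), (2061584302080, 687194767360)] rfl (by decide +kernel)
theorem A1_c0_t41 : CovD 1 gA1 [(87045177344, 4581490688), (755914244096, 68719476736), (1374389534720, 1374389534720)] :=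
  covD_E kA1_eq (.n 2 (.n 2 (.n 2 (.n 2 (.l 0) (.l 0)) (.n 2 (.l 0) (.l 0))) (.n 2 (.n 2 (.l 0) (.l 0)) (.n 2 (.l 0) (.l 0)))) (.n 2 (.n 2 (.n 2 (.l 0) (.l 0)) (.n 0 (.l 0) (.l 0))) (.n 2 (.l 0) (.l 0))))
    [(87045177344, 4581490688), (755914244096, 68719476736), (1374389534720, 1374389534720)] rfl (by decide +kernel)
end

mutual
theorem A1_c0_t42 : CovD 1 gA1 [(87045177344, 4581490688), (687194767360, 137438953472), (4123168604160, 1374389534720)] :=
  covD_E kA1_eq (.n 2 (.n 1 (.n 2 (.n 1 (.l 0) (.l 0)) (.n 2 (.l 0) (.n 2 (.l 0) (.l 1)))) (.n 2 (.n 0 (.l 0) (.l 0)) (.n 2 (.l 0) (.n 2 (.l 0) (.l 1))))) (.n 2 (.l 1) (.l 1)))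
    [(87045177344, 4581490688), (687194767360, 137438953472), (4123168604160, 1374389534720)] rfl (by decide +kernel)
theorem A1_c0_t43 : CovD 1 gA1 [(87045177344, 4581490688), (687194767360, 137438953472), (8246337208320, 2748779069440)] :=
  covD_E kA1_eq (.n 2 (.n 2 (.l 1) (.l 1)) (.n 0 (.l 1) (.l 1)))
    [(87045177344, 4581490688), (687194767360, 137438953472), (8246337208320, 2748779069440)] rfl (by decide +kernel)
end

mutual
theorem A1_c0_t49 : CovD 1 gA1 [(59556233216, 4581490688), (893353197568, 68719476736), (1374389534720, 1374389534720)] :=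
  covD_E kA1_eq (.n 2 (.n 2 (.n 2 (.n 2 (.l 0) (.l 0)) (.n 2 (.l 0) (.l 0))) (.n 2 (.n 2 (.l 0) (.l 0)) (.n 2 (.l 0) (.l 0)))) (.n 2 (.n 2 (.n 2 (.l 0) (.l 0)) (.n 2 (.l 0) (.l 0))) (.n 0 (.n 2 (.l 0) (.l 0)) (.n 2 (.l 0) (.l 0)))))
    [(59556233216, 4581490688), (893353197568, 68719476736), (1374389534720, 1374389534720)] rfl (by decide +kernel)
theorem A1_c0_t50 : CovD 1 gA1 [(59556233216, 4581490688), (893353197568, 68719476736), (4123168604160, 1374389534720)] :=
  covD_E kA1_eq (.n 2 (.n 2 (.n 2 (.l 0) (.l 0)) (.n 2 (.l 0) (.n 2 (.l 0) (.l 1)))) (.n 0 (.l 1) (.l 1)))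
    [(59556233216, 4581490688), (893353197568, 68719476736), (4123168604160, 1374389534720)] rfl (by decide +kernel)
end

mutual
theorem A1_c0_t51 : CovD 1 gA1 [(59556233216, 4581490688), (893353197568, 68719476736), (8246337208320, 2748779069440)] :=
  covD_E kA1_eq (.n 2 (.n 2 (.l 1) (.l 1)) (.n 0 (.l 1) (.l 1)))
    [(59556233216, 4581490688), (893353197568, 68719476736), (8246337208320, 2748779069440)] rfl (by decide +kernel)
theorem A1_c0_t54 : CovD 1 gA1 [(59556233216, 4581490688), (1030792151040, 68719476736), (1374389534720, 1374389534720)] :=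
  covD_E kA1_eq (.n 2 (.n 2 (.n 2 (.n 2 (.l 0) (.l 0)) (.n 2 (.l 0) (.l 0))) (.n 2 (.n 2 (.l 0) (.l 0)) (.n 2 (.l 0) (.l 0)))) (.n 2 (.n 2 (.n 2 (.l 0) (.l 0)) (.n 0 (.l 0) (.l 0))) (.n 2 (.n 0 (.l 0) (.l 0)) (.l 0))))
    [(59556233216, 4581490688), (1030792151040, 68719476736), (1374389534720, 1374389534720)] rfl (by decide +kernel)
end

mutual
theorem A1_c0_t55 : CovD 1 gA1 [(59556233216, 4581490688), (1030792151040, 68719476736), (4123168604160, 1374389534720)] :=
  covD_E kA1_eq (.n 2 (.n 2 (.n 2 (.l 0) (.l 0)) (.n 2 (.l 0) (.n 2 (.n 0 (.l 0) (.l 0)) (.l 1)))) (.n 0 (.l 1) (.l 1)))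
    [(59556233216, 4581490688), (1030792151040, 68719476736), (4123168604160, 1374389534720)] rfl (by decide +kernel)
theorem A1_c0_t56 : CovD 1 gA1 [(59556233216, 4581490688), (1030792151040, 68719476736), (8246337208320, 2748779069440)] :=
  covD_E kA1_eq (.n 2 (.n 2 (.l 1) (.l 1)) (.n 0 (.l 1) (.l 1)))
    [(59556233216, 4581490688), (1030792151040, 68719476736), (8246337208320, 2748779069440)] rfl (by decide +kernel)
end

mutual
theorem A1_c0_t60 : CovD 1 gA1 [(68719214592, 4581490688), (893353197568, 68719476736), (1374389534720, 1374389534720)] :=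
  covD_E kA1_eq (.n 2 (.n 2 (.n 2 (.n 2 (.l 0) (.l 0)) (.n 2 (.l 0) (.l 0))) (.n 2 (.n 2 (.l 0) (.l 0)) (.n 2 (.l 0) (.l 0)))) (.n 2 (.n 2 (.n 2 (.l 0) (.l 0)) (.n 0 (.l 0) (.l 0))) (.n 2 (.n 0 (.l 0) (.l 0)) (.l 0))))
    [(68719214592, 4581490688), (893353197568, 68719476736), (1374389534720, 1374389534720)] rfl (by decide +kernel)
theorem A1_c0_t61 : CovD 1 gA1 [(68719214592, 4581490688), (1030792151040, 68719476736), (1374389534720, 1374389534720)] :=
  covD_E kA1_eq (.n 2 (.n 2 (.n 2 (.n 2 (.l 0) (.l 0)) (.n 2 (.l 0) (.l 0))) (.n 0 (.n 2 (.l 0) (.l 0)) (.n 2 (.l 0) (.l 0)))) (.n 2 (.n 0 (.n 2 (.l 0) (.l 0)) (.n 2 (.l 0) (.l 0))) (.n 2 (.l 0) (.l 0))))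
    [(68719214592, 4581490688), (1030792151040, 68719476736), (1374389534720, 1374389534720)] rfl (by decide +kernel)
end

mutual
theorem A1_c0_t62 : CovD 1 gA1 [(68719214592, 4581490688), (962072674304, 137438953472), (4123168604160, 1374389534720)] :=
  covD_E kA1_eq (.n 2 (.n 0 (.n 2 (.n 1 (.l 0) (.l 0)) (.n 2 (.l 0) (.n 2 (.l 0) (.l 1)))) (.n 2 (.n 1 (.l 0) (.l 0)) (.n 2 (.l 0) (.n 2 (.l 0) (.l 1))))) (.n 2 (.n 0 (.l 1) (.l 1)) (.l 1)))
    [(68719214592, 4581490688), (962072674304, 137438953472), (4123168604160, 1374389534720)] rfl (by decide +kernel)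
theorem A1_c0_t63 : CovD 1 gA1 [(68719214592, 4581490688), (962072674304, 137438953472), (8246337208320, 2748779069440)] :=
  covD_E kA1_eq (.n 2 (.n 2 (.l 1) (.l 1)) (.n 2 (.l 1) (.l 1)))
    [(68719214592, 4581490688), (962072674304, 137438953472), (8246337208320, 2748779069440)] rfl (by decide +kernel)
end

mutual
theorem A1_c0_t68 : CovD 1 gA1 [(77882195968, 4581490688), (893353197568, 68719476736), (1374389534720, 1374389534720)] :=
  covD_E kA1_eq (.n 2 (.n 2 (.n 2 (.n 2 (.l 0) (.l 0)) (.n 2 (.l 0) (.l 0))) (.n 2 (.n 2 (.l 0) (.l 0)) (.n 2 (.l 0) (.l 0)))) (.n 2 (.n 0 (.n 2 (.l 0) (.l 0)) (.n 2 (.l 0) (.l 0))) (.n 2 (.l 0) (.l 0))))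
    [(77882195968, 4581490688), (893353197568, 68719476736), (1374389534720, 1374389534720)] rfl (by decide +kernel)
theorem A1_c0_t69 : CovD 1 gA1 [(77882195968, 4581490688), (1030792151040, 68719476736), (1374389534720, 1374389534720)] :=
  covD_E kA1_eq (.n 2 (.n 2 (.n 2 (.n 0 (.l 0) (.l 0)) (.n 2 (.l 0) (.l 0))) (.n 0 (.n 2 (.l 0) (.l 0)) (.n 2 (.l 0) (.l 0)))) (.n 2 (.n 2 (.n 0 (.l 0) (.l 0)) (.l 0)) (.n 2 (.l 0) (.l 0))))
    [(77882195968, 4581490688), (1030792151040, 68719476736), (1374389534720, 1374389534720)] rfl (by decide +kernel)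
end

mutual
theorem A1_c0_t70 : CovD 1 gA1 [(77882195968, 4581490688), (962072674304, 137438953472), (4123168604160, 1374389534720)] :=
  covD_E kA1_eq (.n 2 (.n 0 (.n 2 (.n 1 (.l 0) (.l 0)) (.n 2 (.l 0) (.n 2 (.l 0) (.l 1)))) (.n 2 (.n 1 (.l 0) (.l 0)) (.n 2 (.l 0) (.n 2 (.l 0) (.l 1))))) (.n 2 (.l 1) (.l 1)))
    [(77882195968, 4581490688), (962072674304, 137438953472), (4123168604160, 1374389534720)] rfl (by decide +kernel)
theorem A1_c0_t71 : CovD 1 gA1 [(77882195968, 4581490688), (962072674304, 137438953472), (8246337208320, 2748779069440)] :=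
  covD_E kA1_eq (.n 2 (.n 2 (.l 1) (.l 1)) (.n 2 (.l 1) (.l 1)))
    [(77882195968, 4581490688), (962072674304, 137438953472), (8246337208320, 2748779069440)] rfl (by decide +kernel)
end

mutual
theorem A1_c0_t75 : CovD 1 gA1 [(87045177344, 4581490688), (893353197568, 68719476736), (1374389534720, 1374389534720)] :=
  covD_E kA1_eq (.n 2 (.n 2 (.n 2 (.n 2 (.l 0) (.l 0)) (.n 2 (.l 0) (.l 0))) (.n 1 (.n 2 (.l 0) (.l 0)) (.n 2 (.l 0) (.l 0)))) (.n 2 (.n 2 (.n 0 (.l 0) (.l 0)) (.l 0)) (.n 2 (.l 0) (.l 0))))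
    [(87045177344, 4581490688), (893353197568, 68719476736), (1374389534720, 1374389534720)] rfl (by decide +kernel)
theorem A1_c0_t76 : CovD 1 gA1 [(87045177344, 4581490688), (1030792151040, 68719476736), (1374389534720, 1374389534720)] :=
  covD_E kA1_eq (.n 2 (.n 0 (.n 2 (.n 2 (.l 0) (.l 0)) (.n 2 (.l 0) (.l 0))) (.n 2 (.n 2 (.l 0) (.l 0)) (.n 2 (.l 0) (.l 0)))) (.n 2 (.n 2 (.l 0) (.l 0)) (.n 2 (.l 0) (.l 0))))
    [(87045177344, 4581490688), (1030792151040, 68719476736), (1374389534720, 1374389534720)] rfl (by decide +kernel)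
end

mutual
theorem A1_c0_t77 : CovD 1 gA1 [(87045177344, 4581490688), (962072674304, 137438953472), (4123168604160, 1374389534720)] :=
  covD_E kA1_eq (.n 2 (.n 2 (.n 1 (.n 0 (.l 0) (.l 0)) (.l 0)) (.n 2 (.n 0 (.l 0) (.l 0)) (.n 2 (.l 0) (.n 0 (.l 1) (.l 1))))) (.n 2 (.l 1) (.l 1)))
    [(87045177344, 4581490688), (962072674304, 137438953472), (4123168604160, 1374389534720)] rfl (by decide +kernel)
theorem A1_c0_t78 : CovD 1 gA1 [(87045177344, 4581490688), (962072674304, 137438953472), (8246337208320, 2748779069440)] :=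
  covD_E kA1_eq (.n 2 (.n 2 (.l 1) (.l 1)) (.n 2 (.l 1) (.l 1)))
    [(87045177344, 4581490688), (962072674304, 137438953472), (8246337208320, 2748779069440)] rfl (by decide +kernel)
end

theorem A1_c0_t7 : CovD 1 gA1 [(59556233216, 4581490688), (618475290624, 68719476736), (687194767360, 687194767360)] :=
  covD_split 2 (by decide +kernel) A1_c0_t8 A1_c0_t9

theorem A1_c0_t6 : CovD 1 gA1 [(59556233216, 4581490688), (618475290624, 68719476736), (1374389534720, 1374389534720)] :=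
  covD_split 2 (by decide +kernel) A1_c0_t7 A1_c0_t10

theorem A1_c0_t11 : CovD 1 gA1 [(59556233216, 4581490688), (755914244096, 68719476736), (1374389534720, 1374389534720)] :=
  covD_split 2 (by decide +kernel) A1_c0_t12 A1_c0_t13

theorem A1_c0_t5 : CovD 1 gA1 [(59556233216, 4581490688), (687194767360, 137438953472), (1374389534720, 1374389534720)] :=
  covD_split 1 (by decide +kernel) A1_c0_t6 A1_c0_t11

theorem A1_c0_t4 : CovD 1 gA1 [(59556233216, 4581490688), (687194767360, 137438953472), (2748779069440, 2748779069440)] :=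
  covD_split 2 (by decide +kernel) A1_c0_t5 A1_c0_t14

theorem A1_c0_t3 : CovD 1 gA1 [(59556233216, 4581490688), (687194767360, 137438953472), (5497558138880, 5497558138880)] :=
  covD_split 2 (by decide +kernel) A1_c0_t4 A1_c0_t15

theorem A1_c0_t19 : CovD 1 gA1 [(68719214592, 4581490688), (618475290624, 68719476736), (1374389534720, 1374389534720)] :=
  covD_split 2 (by decide +kernel) A1_c0_t20 A1_c0_t21

theorem A1_c0_t18 : CovD 1 gA1 [(68719214592, 4581490688), (687194767360, 137438953472), (1374389534720, 1374389534720)] :=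
  covD_split 1 (by decide +kernel) A1_c0_t19 A1_c0_t22

theorem A1_c0_t17 : CovD 1 gA1 [(68719214592, 4581490688), (687194767360, 137438953472), (2748779069440, 2748779069440)] :=
  covD_split 2 (by decide +kernel) A1_c0_t18 A1_c0_t23

theorem A1_c0_t16 : CovD 1 gA1 [(68719214592, 4581490688), (687194767360, 137438953472), (5497558138880, 5497558138880)] :=
  covD_split 2 (by decide +kernel) A1_c0_t17 A1_c0_t24

theorem A1_c0_t2 : CovD 1 gA1 [(64137723904, 9162981376), (687194767360, 137438953472), (5497558138880, 5497558138880)] :=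
  covD_split 0 (by decide +kernel) A1_c0_t3 A1_c0_t16

theorem A1_c0_t29 : CovD 1 gA1 [(77882195968, 4581490688), (618475290624, 68719476736), (1374389534720, 1374389534720)] :=
  covD_split 2 (by decide +kernel) A1_c0_t30 A1_c0_t31

theorem A1_c0_t28 : CovD 1 gA1 [(77882195968, 4581490688), (687194767360, 137438953472), (1374389534720, 1374389534720)] :=
  covD_split 1 (by decide +kernel) A1_c0_t29 A1_c0_t32

theorem A1_c0_t27 : CovD 1 gA1 [(77882195968, 4581490688), (687194767360, 137438953472), (2748779069440, 2748779069440)] :=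
  covD_split 2 (by decide +kernel) A1_c0_t28 A1_c0_t33

theorem A1_c0_t26 : CovD 1 gA1 [(77882195968, 4581490688), (687194767360, 137438953472), (5497558138880, 5497558138880)] :=
  covD_split 2 (by decide +kernel) A1_c0_t27 A1_c0_t34

theorem A1_c0_t38 : CovD 1 gA1 [(87045177344, 4581490688), (618475290624, 68719476736), (1374389534720, 1374389534720)] :=
  covD_split 2 (by decide +kernel) A1_c0_t39 A1_c0_t40

theorem A1_c0_t37 : CovD 1 gA1 [(87045177344, 4581490688), (687194767360, 137438953472), (1374389534720, 1374389534720)] :=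
  covD_split 1 (by decide +kernel) A1_c0_t38 A1_c0_t41

theorem A1_c0_t36 : CovD 1 gA1 [(87045177344, 4581490688), (687194767360, 137438953472), (2748779069440, 2748779069440)] :=
  covD_split 2 (by decide +kernel) A1_c0_t37 A1_c0_t42

theorem A1_c0_t35 : CovD 1 gA1 [(87045177344, 4581490688), (687194767360, 137438953472), (5497558138880, 5497558138880)] :=
  covD_split 2 (by decide +kernel) A1_c0_t36 A1_c0_t43

theorem A1_c0_t25 : CovD 1 gA1 [(82463686656, 9162981376), (687194767360, 137438953472), (5497558138880, 5497558138880)] :=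
  covD_split 0 (by decide +kernel) A1_c0_t26 A1_c0_t35

theorem A1_c0_t1 : CovD 1 gA1 [(73300705280, 18325962752), (687194767360, 137438953472), (5497558138880, 5497558138880)] :=
  covD_split 0 (by decide +kernel) A1_c0_t2 A1_c0_t25

theorem A1_c0_t48 : CovD 1 gA1 [(59556233216, 4581490688), (893353197568, 68719476736), (2748779069440, 2748779069440)] :=
  covD_split 2 (by decide +kernel) A1_c0_t49 A1_c0_t50

theorem A1_c0_t47 : CovD 1 gA1 [(59556233216, 4581490688), (893353197568, 68719476736), (5497558138880, 5497558138880)] :=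
  covD_split 2 (by decide +kernel) A1_c0_t48 A1_c0_t51

theorem A1_c0_t53 : CovD 1 gA1 [(59556233216, 4581490688), (1030792151040, 68719476736), (2748779069440, 2748779069440)] :=
  covD_split 2 (by decide +kernel) A1_c0_t54 A1_c0_t55

theorem A1_c0_t52 : CovD 1 gA1 [(59556233216, 4581490688), (1030792151040, 68719476736), (5497558138880, 5497558138880)] :=
  covD_split 2 (by decide +kernel) A1_c0_t53 A1_c0_t56

theorem A1_c0_t46 : CovD 1 gA1 [(59556233216, 4581490688), (962072674304, 137438953472), (5497558138880, 5497558138880)] :=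
  covD_split 1 (by decide +kernel) A1_c0_t47 A1_c0_t52

theorem A1_c0_t59 : CovD 1 gA1 [(68719214592, 4581490688), (962072674304, 137438953472), (1374389534720, 1374389534720)] :=
  covD_split 1 (by decide +kernel) A1_c0_t60 A1_c0_t61

theorem A1_c0_t58 : CovD 1 gA1 [(68719214592, 4581490688), (962072674304, 137438953472), (2748779069440, 2748779069440)] :=
  covD_split 2 (by decide +kernel) A1_c0_t59 A1_c0_t62

theorem A1_c0_t57 : CovD 1 gA1 [(68719214592, 4581490688), (962072674304, 137438953472), (5497558138880, 5497558138880)] :=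
  covD_split 2 (by decide +kernel) A1_c0_t58 A1_c0_t63

theorem A1_c0_t45 : CovD 1 gA1 [(64137723904, 9162981376), (962072674304, 137438953472), (5497558138880, 5497558138880)] :=
  covD_split 0 (by decide +kernel) A1_c0_t46 A1_c0_t57

theorem A1_c0_t67 : CovD 1 gA1 [(77882195968, 4581490688), (962072674304, 137438953472), (1374389534720, 1374389534720)] :=
  covD_split 1 (by decide +kernel) A1_c0_t68 A1_c0_t69

theorem A1_c0_t66 : CovD 1 gA1 [(77882195968, 4581490688), (962072674304, 137438953472), (2748779069440, 2748779069440)] :=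
  covD_split 2 (by decide +kernel) A1_c0_t67 A1_c0_t70

theorem A1_c0_t65 : CovD 1 gA1 [(77882195968, 4581490688), (962072674304, 137438953472), (5497558138880, 5497558138880)] :=
  covD_split 2 (by decide +kernel) A1_c0_t66 A1_c0_t71

theorem A1_c0_t74 : CovD 1 gA1 [(87045177344, 4581490688), (962072674304, 137438953472), (1374389534720, 1374389534720)] :=
  covD_split 1 (by decide +kernel) A1_c0_t75 A1_c0_t76

theorem A1_c0_t73 : CovD 1 gA1 [(87045177344, 4581490688), (962072674304, 137438953472), (2748779069440, 2748779069440)] :=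
  covD_split 2 (by decide +kernel) A1_c0_t74 A1_c0_t77

theorem A1_c0_t72 : CovD 1 gA1 [(87045177344, 4581490688), (962072674304, 137438953472), (5497558138880, 5497558138880)] :=
  covD_split 2 (by decide +kernel) A1_c0_t73 A1_c0_t78

theorem A1_c0_t64 : CovD 1 gA1 [(82463686656, 9162981376), (962072674304, 137438953472), (5497558138880, 5497558138880)] :=
  covD_split 0 (by decide +kernel) A1_c0_t65 A1_c0_t72

theorem A1_c0_t44 : CovD 1 gA1 [(73300705280, 18325962752), (962072674304, 137438953472), (5497558138880, 5497558138880)] :=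
  covD_split 0 (by decide +kernel) A1_c0_t45 A1_c0_t64

theorem A1_c0 : CovD 1 gA1 [(73300705280, 18325962752), (824633720832, 274877906944), (5497558138880, 5497558138880)] :=
  covD_split 1 (by decide +kernel) A1_c0_t1 A1_c0_t44

end Pool.Agent.helper14.NR.E12c
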