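import Pool.Agent.helper14.NR.E12c.PN1

/-!
Generated: certificates.
-/

namespace Pool.Agent.helper14.NR.E12c

open Pool.Agent.helper31.IA (Z)
open Pool.Agent.helper31.IX (Op XOps runX Cov CovD cov_split covD_split)
open Pool.Agent.helper31.IC (TD)
open Pool.Agent.helper63.RG (reloc)
open Pool.Agent.helper63.NF hiding TD
open Pool.Agent.helper14.CF (xE covD_E)
open Pool.Agent.helper14.NR (share)

mutual
theorem B1_c0_t7 : CovD 1 gB1 [(59556233216, 4581490688), (618475290624, 68719476736), (6871973888, 6871973888)] :=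
  covD_E kB1_eq (.n 2 (.n 0 (.n 2 (.n 2 (.l 1) (.l 1)) (.n 2 (.l 1) (.l 1))) (.n 2 (.n 2 (.l 1) (.l 1)) (.n 2 (.l 1) (.l 1)))) (.n 2 (.n 2 (.n 0 (.l 1) (.l 1)) (.l 1)) (.n 2 (.l 1) (.l 1))))
    [(59556233216, 4581490688), (618475290624, 68719476736), (6871973888, 6871973888)] rfl (by decide +kernel)
theorem B1_c0_t8 : CovD 1 gB1 [(59556233216, 4581490688), (755914244096, 68719476736), (6871973888, 6871973888)] :=
  covD_E kB1_eq (.n 2 (.n 2 (.n 2 (.l 1) (.l 1)) (.n 2 (.l 1) (.l 1))) (.n 2 (.n 2 (.l 1) (.l 1)) (.n 0 (.l 1) (.l 1))))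
    [(59556233216, 4581490688), (755914244096, 68719476736), (6871973888, 6871973888)] rfl (by decide +kernel)
end

mutual
theorem B1_c0_t9 : CovD 1 gB1 [(59556233216, 4581490688), (687194767360, 137438953472), (20615921664, 6871973888)] :=
  covD_E kB1_eq (.n 0 (.n 2 (.n 2 (.n 0 (.l 1) (.l 1)) (.l 1)) (.n 2 (.l 1) (.l 1))) (.n 2 (.n 2 (.n 0 (.l 1) (.l 1)) (.l 1)) (.n 2 (.l 1) (.l 1))))
    [(59556233216, 4581490688), (687194767360, 137438953472), (20615921664, 6871973888)] rfl (by decide +kernel)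
theorem B1_c0_t10 : CovD 1 gB1 [(59556233216, 4581490688), (687194767360, 137438953472), (41231843328, 13743947776)] :=
  covD_E kB1_eq (.n 2 (.n 2 (.n 2 (.l 1) (.l 1)) (.n 0 (.l 1) (.l 1))) (.n 2 (.n 0 (.l 1) (.l 1)) (.l 1)))
    [(59556233216, 4581490688), (687194767360, 137438953472), (41231843328, 13743947776)] rfl (by decide +kernel)
end

mutual
theorem B1_c0_t11 : CovD 1 gB1 [(59556233216, 4581490688), (687194767360, 137438953472), (82463686656, 27487895552)] :=
  covD_E kB1_eq (.n 2 (.n 0 (.n 2 (.l 1) (.l 1)) (.n 2 (.l 1) (.l 1))) (.n 2 (.l 1) (.l 1)))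
    [(59556233216, 4581490688), (687194767360, 137438953472), (82463686656, 27487895552)] rfl (by decide +kernel)
theorem B1_c0_t16 : CovD 1 gB1 [(59556233216, 4581490688), (893353197568, 68719476736), (6871973888, 6871973888)] :=
  covD_E kB1_eq (.n 2 (.n 0 (.n 2 (.n 2 (.l 1) (.l 1)) (.n 2 (.l 1) (.l 1))) (.n 2 (.n 2 (.l 1) (.l 1)) (.n 2 (.l 1) (.l 1)))) (.n 2 (.n 2 (.n 0 (.l 1) (.l 1)) (.l 1)) (.n 2 (.l 1) (.l 1))))
    [(59556233216, 4581490688), (893353197568, 68719476736), (6871973888, 6871973888)] rfl (by decide +kernel)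
end

mutual
theorem B1_c0_t17 : CovD 1 gB1 [(59556233216, 4581490688), (893353197568, 68719476736), (20615921664, 6871973888)] :=
  covD_E kB1_eq (.n 2 (.n 0 (.n 2 (.l 1) (.l 1)) (.n 2 (.l 1) (.l 1))) (.n 2 (.l 1) (.l 1)))
    [(59556233216, 4581490688), (893353197568, 68719476736), (20615921664, 6871973888)] rfl (by decide +kernel)
theorem B1_c0_t20 : CovD 1 gB1 [(59556233216, 4581490688), (996432412672, 34359738368), (6871973888, 6871973888)] :=
  covD_E kB1_eq (.n 2 (.n 0 (.n 2 (.n 2 (.l 1) (.l 1)) (.n 2 (.l 1) (.l 1))) (.n 2 (.n 2 (.l 1) (.l 1)) (.n 2 (.l 1) (.l 1)))) (.n 2 (.n 2 (.n 0 (.l 1) (.l 1)) (.l 1)) (.n 2 (.l 1) (.l 1))))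
    [(59556233216, 4581490688), (996432412672, 34359738368), (6871973888, 6871973888)] rfl (by decide +kernel)
end

mutual
theorem B1_c0_t21 : CovD 1 gB1 [(59556233216, 4581490688), (1065151889408, 34359738368), (6871973888, 6871973888)] :=
  covD_E kB1_eq (.n 2 (.n 2 (.n 2 (.n 2 (.l 1) (.n 0 (.l 1) (.l 1))) (.n 0 (.n 0 (.l 1) (.l 1)) (.l 1))) (.n 2 (.n 2 (.l 1) (.l 1)) (.n 0 (.l 1) (.l 1)))) (.n 2 (.n 2 (.n 0 (.l 1) (.l 1)) (.l 1)) (.n 2 (.l 1) (.l 1))))
    [(59556233216, 4581490688), (1065151889408, 34359738368), (6871973888, 6871973888)] rfl (by decide +kernel)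
theorem B1_c0_t22 : CovD 1 gB1 [(59556233216, 4581490688), (1030792151040, 68719476736), (20615921664, 6871973888)] :=
  covD_E kB1_eq (.n 2 (.n 0 (.n 2 (.n 0 (.l 1) (.l 1)) (.l 1)) (.n 2 (.n 0 (.l 1) (.l 1)) (.l 1))) (.n 2 (.n 0 (.l 1) (.l 1)) (.l 1)))
    [(59556233216, 4581490688), (1030792151040, 68719476736), (20615921664, 6871973888)] rfl (by decide +kernel)
end

mutual
theorem B1_c0_t23 : CovD 1 gB1 [(59556233216, 4581490688), (962072674304, 137438953472), (41231843328, 13743947776)] :=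
  covD_E kB1_eq (.n 0 (.n 2 (.n 2 (.n 2 (.l 1) (.l 1)) (.l 1)) (.n 2 (.l 1) (.l 1))) (.n 2 (.n 2 (.n 1 (.l 1) (.l 1)) (.l 1)) (.n 2 (.l 1) (.l 1))))
    [(59556233216, 4581490688), (962072674304, 137438953472), (41231843328, 13743947776)] rfl (by decide +kernel)
theorem B1_c0_t24 : CovD 1 gB1 [(59556233216, 4581490688), (962072674304, 137438953472), (82463686656, 27487895552)] :=
  covD_E kB1_eq (.n 2 (.n 2 (.n 2 (.l 1) (.l 1)) (.n 0 (.l 1) (.l 1))) (.n 2 (.l 1) (.l 1)))
    [(59556233216, 4581490688), (962072674304, 137438953472), (82463686656, 27487895552)] rfl (by decide +kernel)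
end

mutual
theorem B1_c0_t29 : CovD 1 gB1 [(68719214592, 4581490688), (687194767360, 137438953472), (6871973888, 6871973888)] :=
  covD_E kB1_eq (.n 1 (.n 2 (.n 2 (.n 2 (.l 1) (.l 1)) (.n 2 (.l 1) (.l 1))) (.n 0 (.n 2 (.l 1) (.l 1)) (.n 2 (.l 1) (.l 1)))) (.n 2 (.n 0 (.n 2 (.l 1) (.l 1)) (.n 2 (.l 1) (.l 1))) (.n 2 (.n 0 (.l 1) (.l 1)) (.l 1))))
    [(68719214592, 4581490688), (687194767360, 137438953472), (6871973888, 6871973888)] rfl (by decide +kernel)
theorem B1_c0_t30 : CovD 1 gB1 [(68719214592, 4581490688), (687194767360, 137438953472), (20615921664, 6871973888)] :=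
  covD_E kB1_eq (.n 2 (.n 0 (.n 2 (.l 1) (.l 1)) (.n 2 (.l 1) (.l 1))) (.n 2 (.n 0 (.l 1) (.l 1)) (.l 1)))
    [(68719214592, 4581490688), (687194767360, 137438953472), (20615921664, 6871973888)] rfl (by decide +kernel)
end

mutual
theorem B1_c0_t31 : CovD 1 gB1 [(68719214592, 4581490688), (687194767360, 137438953472), (41231843328, 13743947776)] :=
  covD_E kB1_eq (.n 2 (.n 0 (.n 2 (.l 1) (.l 1)) (.n 2 (.l 1) (.l 1))) (.n 2 (.l 1) (.l 1)))
    [(68719214592, 4581490688), (687194767360, 137438953472), (41231843328, 13743947776)] rfl (by decide +kernel)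
theorem B1_c0_t32 : CovD 1 gB1 [(68719214592, 4581490688), (687194767360, 137438953472), (82463686656, 27487895552)] :=
  covD_E kB1_eq (.n 2 (.n 2 (.n 0 (.l 1) (.l 1)) (.l 1)) (.n 2 (.l 1) (.l 1)))
    [(68719214592, 4581490688), (687194767360, 137438953472), (82463686656, 27487895552)] rfl (by decide +kernel)
end

mutual
theorem B1_c0_t36 : CovD 1 gB1 [(68719214592, 4581490688), (893353197568, 68719476736), (13743947776, 13743947776)] :=
  covD_E kB1_eq (.n 2 (.n 2 (.n 2 (.n 2 (.l 1) (.l 1)) (.n 2 (.l 1) (.l 1))) (.n 2 (.n 2 (.l 1) (.l 1)) (.n 0 (.l 1) (.l 1)))) (.n 2 (.n 2 (.l 1) (.l 1)) (.n 2 (.l 1) (.l 1))))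
    [(68719214592, 4581490688), (893353197568, 68719476736), (13743947776, 13743947776)] rfl (by decide +kernel)
theorem B1_c0_t39 : CovD 1 gB1 [(68719214592, 4581490688), (1030792151040, 68719476736), (3435986944, 3435986944)] :=
  covD_E kB1_eq (.n 1 (.n 2 (.n 2 (.l 1) (.l 1)) (.n 2 (.l 1) (.l 1))) (.n 2 (.n 0 (.n 2 (.l 1) (.l 1)) (.n 2 (.l 1) (.l 1))) (.n 2 (.n 0 (.l 1) (.l 1)) (.l 1))))
    [(68719214592, 4581490688), (1030792151040, 68719476736), (3435986944, 3435986944)] rfl (by decide +kernel)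
end

mutual
theorem B1_c0_t40 : CovD 1 gB1 [(68719214592, 4581490688), (1030792151040, 68719476736), (10307960832, 3435986944)] :=
  covD_E kB1_eq (.n 2 (.n 0 (.n 2 (.l 1) (.l 1)) (.n 2 (.l 1) (.l 1))) (.n 2 (.n 0 (.l 1) (.l 1)) (.l 1)))
    [(68719214592, 4581490688), (1030792151040, 68719476736), (10307960832, 3435986944)] rfl (by decide +kernel)
theorem B1_c0_t41 : CovD 1 gB1 [(68719214592, 4581490688), (1030792151040, 68719476736), (20615921664, 6871973888)] :=
  covD_E kB1_eq (.n 2 (.n 2 (.n 2 (.l 1) (.l 1)) (.n 0 (.l 1) (.l 1))) (.n 2 (.n 0 (.l 1) (.l 1)) (.l 1)))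
    [(68719214592, 4581490688), (1030792151040, 68719476736), (20615921664, 6871973888)] rfl (by decide +kernel)
end

mutual
theorem B1_c0_t42 : CovD 1 gB1 [(68719214592, 4581490688), (962072674304, 137438953472), (41231843328, 13743947776)] :=
  covD_E kB1_eq (.n 2 (.n 0 (.n 2 (.n 1 (.l 1) (.l 1)) (.l 1)) (.n 2 (.n 1 (.l 1) (.l 1)) (.l 1))) (.n 2 (.n 0 (.l 1) (.l 1)) (.l 1)))
    [(68719214592, 4581490688), (962072674304, 137438953472), (41231843328, 13743947776)] rfl (by decide +kernel)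
theorem B1_c0_t43 : CovD 1 gB1 [(68719214592, 4581490688), (962072674304, 137438953472), (82463686656, 27487895552)] :=
  covD_E kB1_eq (.n 2 (.n 2 (.n 2 (.l 1) (.l 1)) (.n 0 (.l 1) (.l 1))) (.n 2 (.l 1) (.l 1)))
    [(68719214592, 4581490688), (962072674304, 137438953472), (82463686656, 27487895552)] rfl (by decide +kernel)
end

mutual
theorem B1_c0_t48 : CovD 1 gB1 [(77882195968, 4581490688), (687194767360, 137438953472), (13743947776, 13743947776)] :=
  covD_E kB1_eq (.n 2 (.n 1 (.n 2 (.n 0 (.n 2 (.l 1) (.l 1)) (.n 2 (.l 1) (.l 1))) (.n 2 (.l 1) (.l 1))) (.n 2 (.n 2 (.l 1) (.l 1)) (.n 2 (.l 1) (.l 1)))) (.n 2 (.n 2 (.n 0 (.l 1) (.l 1)) (.l 1)) (.n 2 (.l 1) (.l 1))))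
    [(77882195968, 4581490688), (687194767360, 137438953472), (13743947776, 13743947776)] rfl (by decide +kernel)
theorem B1_c0_t49 : CovD 1 gB1 [(77882195968, 4581490688), (687194767360, 137438953472), (41231843328, 13743947776)] :=
  covD_E kB1_eq (.n 2 (.n 2 (.n 0 (.l 1) (.l 1)) (.l 1)) (.n 2 (.l 1) (.l 1)))
    [(77882195968, 4581490688), (687194767360, 137438953472), (41231843328, 13743947776)] rfl (by decide +kernel)
end

mutual
theorem B1_c0_t50 : CovD 1 gB1 [(77882195968, 4581490688), (687194767360, 137438953472), (82463686656, 27487895552)] :=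
  covD_E kB1_eq (.n 2 (.n 2 (.n 0 (.l 1) (.l 1)) (.l 1)) (.n 2 (.l 1) (.l 1)))
    [(77882195968, 4581490688), (687194767360, 137438953472), (82463686656, 27487895552)] rfl (by decide +kernel)
theorem B1_c0_t54 : CovD 1 gB1 [(77882195968, 4581490688), (893353197568, 68719476736), (13743947776, 13743947776)] :=
  covD_E kB1_eq (.n 2 (.n 2 (.n 0 (.n 2 (.l 1) (.l 1)) (.n 2 (.l 1) (.l 1))) (.n 2 (.n 0 (.l 1) (.l 1)) (.l 1))) (.n 2 (.n 2 (.l 1) (.l 1)) (.n 2 (.l 1) (.l 1))))
    [(77882195968, 4581490688), (893353197568, 68719476736), (13743947776, 13743947776)] rfl (by decide +kernel)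
end

mutual
theorem B1_c0_t56 : CovD 1 gB1 [(77882195968, 4581490688), (1030792151040, 68719476736), (6871973888, 6871973888)] :=
  covD_E kB1_eq (.n 1 (.n 2 (.n 0 (.n 2 (.l 1) (.l 1)) (.n 2 (.l 1) (.l 1))) (.n 2 (.n 0 (.l 1) (.l 1)) (.l 1))) (.n 2 (.n 2 (.n 2 (.l 1) (.l 1)) (.n 2 (.l 1) (.l 1))) (.n 0 (.n 2 (.l 1) (.l 1)) (.n 2 (.l 1) (.l 1)))))
    [(77882195968, 4581490688), (1030792151040, 68719476736), (6871973888, 6871973888)] rfl (by decide +kernel)
theorem B1_c0_t57 : CovD 1 gB1 [(77882195968, 4581490688), (1030792151040, 68719476736), (20615921664, 6871973888)] :=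
  covD_E kB1_eq (.n 2 (.n 0 (.n 2 (.l 1) (.l 1)) (.n 2 (.l 1) (.l 1))) (.n 2 (.l 1) (.l 1)))
    [(77882195968, 4581490688), (1030792151040, 68719476736), (20615921664, 6871973888)] rfl (by decide +kernel)
end

mutual
theorem B1_c0_t58 : CovD 1 gB1 [(77882195968, 4581490688), (962072674304, 137438953472), (41231843328, 13743947776)] :=
  covD_E kB1_eq (.n 2 (.n 0 (.n 2 (.n 1 (.l 1) (.l 1)) (.l 1)) (.n 2 (.n 1 (.l 1) (.l 1)) (.l 1))) (.n 2 (.n 0 (.l 1) (.l 1)) (.l 1)))
    [(77882195968, 4581490688), (962072674304, 137438953472), (41231843328, 13743947776)] rfl (by decide +kernel)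
theorem B1_c0_t59 : CovD 1 gB1 [(77882195968, 4581490688), (962072674304, 137438953472), (82463686656, 27487895552)] :=
  covD_E kB1_eq (.n 2 (.n 2 (.n 2 (.l 1) (.l 1)) (.n 0 (.l 1) (.l 1))) (.n 2 (.l 1) (.l 1)))
    [(77882195968, 4581490688), (962072674304, 137438953472), (82463686656, 27487895552)] rfl (by decide +kernel)
end

mutual
theorem B1_c0_t63 : CovD 1 gB1 [(87045177344, 4581490688), (687194767360, 137438953472), (13743947776, 13743947776)] :=
  covD_E kB1_eq (.n 2 (.n 0 (.n 2 (.n 2 (.l 1) (.l 1)) (.n 2 (.l 1) (.l 1))) (.n 2 (.n 2 (.l 1) (.l 1)) (.n 2 (.l 1) (.l 1)))) (.n 2 (.n 2 (.l 1) (.l 1)) (.n 0 (.l 1) (.l 1))))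
    [(87045177344, 4581490688), (687194767360, 137438953472), (13743947776, 13743947776)] rfl (by decide +kernel)
theorem B1_c0_t64 : CovD 1 gB1 [(87045177344, 4581490688), (687194767360, 137438953472), (41231843328, 13743947776)] :=
  covD_E kB1_eq (.n 2 (.n 2 (.n 0 (.l 1) (.l 1)) (.l 1)) (.n 2 (.l 1) (.l 1)))
    [(87045177344, 4581490688), (687194767360, 137438953472), (41231843328, 13743947776)] rfl (by decide +kernel)
end

mutual
theorem B1_c0_t65 : CovD 1 gB1 [(87045177344, 4581490688), (687194767360, 137438953472), (82463686656, 27487895552)] :=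
  covD_E kB1_eq (.n 2 (.n 2 (.n 0 (.l 1) (.l 1)) (.l 1)) (.n 2 (.l 1) (.l 1)))
    [(87045177344, 4581490688), (687194767360, 137438953472), (82463686656, 27487895552)] rfl (by decide +kernel)
theorem B1_c0_t69 : CovD 1 gB1 [(87045177344, 4581490688), (893353197568, 68719476736), (13743947776, 13743947776)] :=
  covD_E kB1_eq (.n 2 (.n 2 (.n 2 (.l 1) (.l 1)) (.n 2 (.l 1) (.l 1))) (.n 2 (.n 2 (.l 1) (.l 1)) (.n 0 (.l 1) (.l 1))))
    [(87045177344, 4581490688), (893353197568, 68719476736), (13743947776, 13743947776)] rfl (by decide +kernel)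
end

mutual
theorem B1_c0_t70 : CovD 1 gB1 [(87045177344, 4581490688), (1030792151040, 68719476736), (13743947776, 13743947776)] :=
  covD_E kB1_eq (.n 2 (.n 2 (.n 2 (.n 2 (.l 1) (.l 1)) (.n 2 (.l 1) (.l 1))) (.n 1 (.n 2 (.l 1) (.l 1)) (.n 2 (.l 1) (.l 1)))) (.n 2 (.n 2 (.n 0 (.l 1) (.l 1)) (.l 1)) (.n 2 (.l 1) (.l 1))))
    [(87045177344, 4581490688), (1030792151040, 68719476736), (13743947776, 13743947776)] rfl (by decide +kernel)
theorem B1_c0_t71 : CovD 1 gB1 [(87045177344, 4581490688), (962072674304, 137438953472), (41231843328, 13743947776)] :=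
  covD_E kB1_eq (.n 2 (.n 1 (.n 2 (.l 1) (.l 1)) (.n 2 (.n 0 (.l 1) (.l 1)) (.l 1))) (.n 2 (.n 0 (.l 1) (.l 1)) (.l 1)))
    [(87045177344, 4581490688), (962072674304, 137438953472), (41231843328, 13743947776)] rfl (by decide +kernel)
end

mutual
theorem B1_c0_t72 : CovD 1 gB1 [(87045177344, 4581490688), (962072674304, 137438953472), (82463686656, 27487895552)] :=
  covD_E kB1_eq (.n 2 (.n 2 (.n 2 (.l 1) (.l 1)) (.n 0 (.l 1) (.l 1))) (.n 2 (.l 1) (.l 1)))
    [(87045177344, 4581490688), (962072674304, 137438953472), (82463686656, 27487895552)] rfl (by decide +kernel)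
theorem D1_c0_t2 : CovD 1 gD1 [(64137723904, 9162981376), (687194767360, 137438953472), (863554764800, 863554764800)] :=
  covD_E kD1_eq (.n 2 (.n 2 (.n 1 (.l 0) (.l 0)) (.n 2 (.l 0) (.l 0))) (.n 2 (.n 2 (.l 0) (.l 0)) (.n 2 (.l 0) (.l 0))))
    [(64137723904, 9162981376), (687194767360, 137438953472), (863554764800, 863554764800)] rfl (by decide +kernel)
end

mutual
theorem D1_c0_t3 : CovD 1 gD1 [(64137723904, 9162981376), (962072674304, 137438953472), (863554764800, 863554764800)] :=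
  covD_E kD1_eq (.n 2 (.n 2 (.n 0 (.l 0) (.l 0)) (.n 2 (.l 0) (.l 0))) (.n 2 (.n 2 (.l 0) (.l 0)) (.n 0 (.n 1 (.l 0) (.l 0)) (.n 1 (.l 0) (.l 0)))))
    [(64137723904, 9162981376), (962072674304, 137438953472), (863554764800, 863554764800)] rfl (by decide +kernel)
theorem D1_c0_t4 : CovD 1 gD1 [(82463686656, 9162981376), (824633720832, 274877906944), (863554764800, 863554764800)] :=
  covD_E kD1_eq (.n 1 (.n 2 (.n 1 (.n 2 (.l 0) (.l 0)) (.n 2 (.l 0) (.l 0))) (.n 2 (.n 1 (.l 0) (.l 0)) (.n 2 (.l 0) (.l 0)))) (.n 2 (.n 1 (.n 2 (.l 0) (.l 0)) (.n 2 (.l 0) (.l 0))) (.n 2 (.n 1 (.l 0) (.l 0)) (.n 2 (.l 0) (.l 0)))))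
    [(82463686656, 9162981376), (824633720832, 274877906944), (863554764800, 863554764800)] rfl (by decide +kernel)
end

mutual
theorem E1_c0_t3 : CovD 1 gE1 [(59556233216, 4581490688), (824633720832, 274877906944), (431777382400, 431777382400)] :=
  covD_E kE1_eq (.n 1 (.n 2 (.n 2 (.n 2 (.l 0) (.l 0)) (.l 0)) (.n 2 (.l 0) (.l 0))) (.n 2 (.n 2 (.n 2 (.n 0 (.l 0) (.l 0)) (.l 0)) (.n 0 (.l 0) (.l 0))) (.n 2 (.l 0) (.l 0))))
    [(59556233216, 4581490688), (824633720832, 274877906944), (431777382400, 431777382400)] rfl (by decide +kernel)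
theorem E1_c0_t4 : CovD 1 gE1 [(68719214592, 4581490688), (824633720832, 274877906944), (431777382400, 431777382400)] :=
  covD_E kE1_eq (.n 1 (.n 2 (.n 2 (.n 2 (.l 0) (.l 0)) (.l 0)) (.n 2 (.l 0) (.l 0))) (.n 2 (.n 2 (.n 2 (.n 0 (.l 0) (.l 0)) (.l 0)) (.l 0)) (.n 2 (.l 0) (.l 0))))
    [(68719214592, 4581490688), (824633720832, 274877906944), (431777382400, 431777382400)] rfl (by decide +kernel)
end

mutual
theorem E1_c0_t6 : CovD 1 gE1 [(77882195968, 4581490688), (824633720832, 274877906944), (431777382400, 431777382400)] :=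
  covD_E kE1_eq (.n 1 (.n 2 (.n 2 (.n 2 (.l 0) (.l 0)) (.l 0)) (.n 2 (.l 0) (.l 0))) (.n 2 (.n 2 (.n 2 (.n 0 (.l 0) (.l 0)) (.l 0)) (.l 0)) (.n 2 (.l 0) (.l 0))))
    [(77882195968, 4581490688), (824633720832, 274877906944), (431777382400, 431777382400)] rfl (by decide +kernel)
theorem E1_c0_t7 : CovD 1 gE1 [(87045177344, 4581490688), (824633720832, 274877906944), (431777382400, 431777382400)] :=
  covD_E kE1_eq (.n 1 (.n 2 (.n 2 (.n 2 (.l 0) (.l 0)) (.l 0)) (.n 2 (.l 0) (.l 0))) (.n 2 (.n 2 (.n 2 (.l 0) (.l 0)) (.l 0)) (.n 2 (.l 0) (.l 0))))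
    [(87045177344, 4581490688), (824633720832, 274877906944), (431777382400, 431777382400)] rfl (by decide +kernel)
end

mutual
theorem E1_c0_t9 : CovD 1 gE1 [(64137723904, 9162981376), (824633720832, 274877906944), (1295332147200, 431777382400)] :=
  covD_E kE1_eq (.n 1 (.n 2 (.n 0 (.n 2 (.l 0) (.l 0)) (.n 2 (.l 0) (.l 0))) (.n 2 (.n 0 (.l 0) (.l 0)) (.l 0))) (.n 0 (.n 2 (.n 2 (.l 0) (.l 0)) (.n 1 (.l 0) (.l 0))) (.n 2 (.n 2 (.l 0) (.l 0)) (.n 1 (.l 0) (.l 0)))))
    [(64137723904, 9162981376), (824633720832, 274877906944), (1295332147200, 431777382400)] rfl (by decide +kernel)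
theorem E1_c0_t10 : CovD 1 gE1 [(82463686656, 9162981376), (824633720832, 274877906944), (1295332147200, 431777382400)] :=
  covD_E kE1_eq (.n 1 (.n 2 (.n 2 (.n 0 (.l 0) (.l 0)) (.l 0)) (.n 2 (.l 0) (.l 0))) (.n 2 (.n 0 (.n 2 (.l 0) (.l 0)) (.n 2 (.l 0) (.l 0))) (.n 2 (.l 0) (.l 0))))
    [(82463686656, 9162981376), (824633720832, 274877906944), (1295332147200, 431777382400)] rfl (by decide +kernel)
end

theorem B1_c0_t6 : CovD 1 gB1 [(59556233216, 4581490688), (687194767360, 137438953472), (6871973888, 6871973888)] :=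
  covD_split 1 (by decide +kernel) B1_c0_t7 B1_c0_t8

theorem B1_c0_t5 : CovD 1 gB1 [(59556233216, 4581490688), (687194767360, 137438953472), (13743947776, 13743947776)] :=
  covD_split 2 (by decide +kernel) B1_c0_t6 B1_c0_t9

theorem B1_c0_t4 : CovD 1 gB1 [(59556233216, 4581490688), (687194767360, 137438953472), (27487895552, 27487895552)] :=
  covD_split 2 (by decide +kernel) B1_c0_t5 B1_c0_t10

theorem B1_c0_t3 : CovD 1 gB1 [(59556233216, 4581490688), (687194767360, 137438953472), (54975791104, 54975791104)] :=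
  covD_split 2 (by decide +kernel) B1_c0_t4 B1_c0_t11

theorem B1_c0_t15 : CovD 1 gB1 [(59556233216, 4581490688), (893353197568, 68719476736), (13743947776, 13743947776)] :=
  covD_split 2 (by decide +kernel) B1_c0_t16 B1_c0_t17

theorem B1_c0_t19 : CovD 1 gB1 [(59556233216, 4581490688), (1030792151040, 68719476736), (6871973888, 6871973888)] :=
  covD_split 1 (by decide +kernel) B1_c0_t20 B1_c0_t21

theorem B1_c0_t18 : CovD 1 gB1 [(59556233216, 4581490688), (1030792151040, 68719476736), (13743947776, 13743947776)] :=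
  covD_split 2 (by decide +kernel) B1_c0_t19 B1_c0_t22

theorem B1_c0_t14 : CovD 1 gB1 [(59556233216, 4581490688), (962072674304, 137438953472), (13743947776, 13743947776)] :=
  covD_split 1 (by decide +kernel) B1_c0_t15 B1_c0_t18

theorem B1_c0_t13 : CovD 1 gB1 [(59556233216, 4581490688), (962072674304, 137438953472), (27487895552, 27487895552)] :=
  covD_split 2 (by decide +kernel) B1_c0_t14 B1_c0_t23

theorem B1_c0_t12 : CovD 1 gB1 [(59556233216, 4581490688), (962072674304, 137438953472), (54975791104, 54975791104)] :=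
  covD_split 2 (by decide +kernel) B1_c0_t13 B1_c0_t24

theorem B1_c0_t2 : CovD 1 gB1 [(59556233216, 4581490688), (824633720832, 274877906944), (54975791104, 54975791104)] :=
  covD_split 1 (by decide +kernel) B1_c0_t3 B1_c0_t12

theorem B1_c0_t28 : CovD 1 gB1 [(68719214592, 4581490688), (687194767360, 137438953472), (13743947776, 13743947776)] :=
  covD_split 2 (by decide +kernel) B1_c0_t29 B1_c0_t30

theorem B1_c0_t27 : CovD 1 gB1 [(68719214592, 4581490688), (687194767360, 137438953472), (27487895552, 27487895552)] :=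
  covD_split 2 (by decide +kernel) B1_c0_t28 B1_c0_t31

theorem B1_c0_t26 : CovD 1 gB1 [(68719214592, 4581490688), (687194767360, 137438953472), (54975791104, 54975791104)] :=
  covD_split 2 (by decide +kernel) B1_c0_t27 B1_c0_t32

theorem B1_c0_t38 : CovD 1 gB1 [(68719214592, 4581490688), (1030792151040, 68719476736), (6871973888, 6871973888)] :=
  covD_split 2 (by decide +kernel) B1_c0_t39 B1_c0_t40

theorem B1_c0_t37 : CovD 1 gB1 [(68719214592, 4581490688), (1030792151040, 68719476736), (13743947776, 13743947776)] :=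
  covD_split 2 (by decide +kernel) B1_c0_t38 B1_c0_t41

theorem B1_c0_t35 : CovD 1 gB1 [(68719214592, 4581490688), (962072674304, 137438953472), (13743947776, 13743947776)] :=
  covD_split 1 (by decide +kernel) B1_c0_t36 B1_c0_t37

theorem B1_c0_t34 : CovD 1 gB1 [(68719214592, 4581490688), (962072674304, 137438953472), (27487895552, 27487895552)] :=
  covD_split 2 (by decide +kernel) B1_c0_t35 B1_c0_t42

theorem B1_c0_t33 : CovD 1 gB1 [(68719214592, 4581490688), (962072674304, 137438953472), (54975791104, 54975791104)] :=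
  covD_split 2 (by decide +kernel) B1_c0_t34 B1_c0_t43

theorem B1_c0_t25 : CovD 1 gB1 [(68719214592, 4581490688), (824633720832, 274877906944), (54975791104, 54975791104)] :=
  covD_split 1 (by decide +kernel) B1_c0_t26 B1_c0_t33

theorem B1_c0_t1 : CovD 1 gB1 [(64137723904, 9162981376), (824633720832, 274877906944), (54975791104, 54975791104)] :=
  covD_split 0 (by decide +kernel) B1_c0_t2 B1_c0_t25

theorem B1_c0_t47 : CovD 1 gB1 [(77882195968, 4581490688), (687194767360, 137438953472), (27487895552, 27487895552)] :=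
  covD_split 2 (by decide +kernel) B1_c0_t48 B1_c0_t49

theorem B1_c0_t46 : CovD 1 gB1 [(77882195968, 4581490688), (687194767360, 137438953472), (54975791104, 54975791104)] :=
  covD_split 2 (by decide +kernel) B1_c0_t47 B1_c0_t50

theorem B1_c0_t55 : CovD 1 gB1 [(77882195968, 4581490688), (1030792151040, 68719476736), (13743947776, 13743947776)] :=
  covD_split 2 (by decide +kernel) B1_c0_t56 B1_c0_t57

theorem B1_c0_t53 : CovD 1 gB1 [(77882195968, 4581490688), (962072674304, 137438953472), (13743947776, 13743947776)] :=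
  covD_split 1 (by decide +kernel) B1_c0_t54 B1_c0_t55

theorem B1_c0_t52 : CovD 1 gB1 [(77882195968, 4581490688), (962072674304, 137438953472), (27487895552, 27487895552)] :=
  covD_split 2 (by decide +kernel) B1_c0_t53 B1_c0_t58

theorem B1_c0_t51 : CovD 1 gB1 [(77882195968, 4581490688), (962072674304, 137438953472), (54975791104, 54975791104)] :=
  covD_split 2 (by decide +kernel) B1_c0_t52 B1_c0_t59

theorem B1_c0_t45 : CovD 1 gB1 [(77882195968, 4581490688), (824633720832, 274877906944), (54975791104, 54975791104)] :=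
  covD_split 1 (by decide +kernel) B1_c0_t46 B1_c0_t51

theorem B1_c0_t62 : CovD 1 gB1 [(87045177344, 4581490688), (687194767360, 137438953472), (27487895552, 27487895552)] :=
  covD_split 2 (by decide +kernel) B1_c0_t63 B1_c0_t64

theorem B1_c0_t61 : CovD 1 gB1 [(87045177344, 4581490688), (687194767360, 137438953472), (54975791104, 54975791104)] :=
  covD_split 2 (by decide +kernel) B1_c0_t62 B1_c0_t65

theorem B1_c0_t68 : CovD 1 gB1 [(87045177344, 4581490688), (962072674304, 137438953472), (13743947776, 13743947776)] :=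
  covD_split 1 (by decide +kernel) B1_c0_t69 B1_c0_t70

theorem B1_c0_t67 : CovD 1 gB1 [(87045177344, 4581490688), (962072674304, 137438953472), (27487895552, 27487895552)] :=
  covD_split 2 (by decide +kernel) B1_c0_t68 B1_c0_t71

theorem B1_c0_t66 : CovD 1 gB1 [(87045177344, 4581490688), (962072674304, 137438953472), (54975791104, 54975791104)] :=
  covD_split 2 (by decide +kernel) B1_c0_t67 B1_c0_t72

theorem B1_c0_t60 : CovD 1 gB1 [(87045177344, 4581490688), (824633720832, 274877906944), (54975791104, 54975791104)] :=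
  covD_split 1 (by decide +kernel) B1_c0_t61 B1_c0_t66

theorem B1_c0_t44 : CovD 1 gB1 [(82463686656, 9162981376), (824633720832, 274877906944), (54975791104, 54975791104)] :=
  covD_split 0 (by decide +kernel) B1_c0_t45 B1_c0_t60

theorem B1_c0 : CovD 1 gB1 [(73300705280, 18325962752), (824633720832, 274877906944), (54975791104, 54975791104)] :=
  covD_split 0 (by decide +kernel) B1_c0_t1 B1_c0_t44

theorem D1_c0_t1 : CovD 1 gD1 [(64137723904, 9162981376), (824633720832, 274877906944), (863554764800, 863554764800)] :=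
  covD_split 1 (by decide +kernel) D1_c0_t2 D1_c0_t3

theorem D1_c0 : CovD 1 gD1 [(73300705280, 18325962752), (824633720832, 274877906944), (863554764800, 863554764800)] :=
  covD_split 0 (by decide +kernel) D1_c0_t1 D1_c0_t4

theorem E1_c0_t2 : CovD 1 gE1 [(64137723904, 9162981376), (824633720832, 274877906944), (431777382400, 431777382400)] :=
  covD_split 0 (by decide +kernel) E1_c0_t3 E1_c0_t4

theorem E1_c0_t5 : CovD 1 gE1 [(82463686656, 9162981376), (824633720832, 274877906944), (431777382400, 431777382400)] :=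
  covD_split 0 (by decide +kernel) E1_c0_t6 E1_c0_t7

theorem E1_c0_t1 : CovD 1 gE1 [(73300705280, 18325962752), (824633720832, 274877906944), (431777382400, 431777382400)] :=
  covD_split 0 (by decide +kernel) E1_c0_t2 E1_c0_t5

theorem E1_c0_t8 : CovD 1 gE1 [(73300705280, 18325962752), (824633720832, 274877906944), (1295332147200, 431777382400)] :=
  covD_split 0 (by decide +kernel) E1_c0_t9 E1_c0_t10

theorem E1_c0 : CovD 1 gE1 [(73300705280, 18325962752), (824633720832, 274877906944), (863554764800, 863554764800)] :=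
  covD_split 2 (by decide +kernel) E1_c0_t1 E1_c0_t8

end Pool.Agent.helper14.NR.E12c
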