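import Pool.Agent.helper14.NR.E12c.PN5

/-!
Generated: certificates.
-/

namespace Pool.Agent.helper14.NR.E12c

open Pool.Agent.helper31.IA (Z)
open Pool.Agent.helper31.IX (Op XOps runX Cov CovD cov_split covD_split)
open Pool.Agent.helper31.IC (TD)
open Pool.Agent.helper63.RG (reloc)
open Pool.Agent.helper63.NF hiding TD
open Pool.Agent.helper14.CF (xE covD_E)
open Pool.Agent.helper14.NR (share)

mutual
theorem D5_c0_t2 : CovD 1 gD5 [(59556233216, 4581490688), (824633720832, 274877906944), (863554764800, 863554764800)] :=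
  covD_E kD5_eq (.n 1 (.n 2 (.n 1 (.n 2 (.l 0) (.l 0)) (.n 2 (.l 0) (.l 0))) (.n 2 (.n 1 (.l 0) (.l 0)) (.n 2 (.l 0) (.l 0)))) (.n 2 (.n 1 (.n 2 (.l 0) (.l 0)) (.n 2 (.l 0) (.l 0))) (.n 2 (.n 1 (.l 0) (.l 0)) (.n 2 (.l 0) (.l 0)))))
    [(59556233216, 4581490688), (824633720832, 274877906944), (863554764800, 863554764800)] rfl (by decide +kernel)
theorem D5_c0_t4 : CovD 1 gD5 [(68719214592, 4581490688), (687194767360, 137438953472), (863554764800, 863554764800)] :=
  covD_E kD5_eq (.n 2 (.n 1 (.n 2 (.l 0) (.l 0)) (.n 2 (.l 0) (.l 0))) (.n 2 (.n 2 (.l 0) (.l 0)) (.n 2 (.l 0) (.n 0 (.l 0) (.l 0)))))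
    [(68719214592, 4581490688), (687194767360, 137438953472), (863554764800, 863554764800)] rfl (by decide +kernel)
end

mutual
theorem D5_c0_t5 : CovD 1 gD5 [(68719214592, 4581490688), (962072674304, 137438953472), (863554764800, 863554764800)] :=
  covD_E kD5_eq (.n 2 (.n 1 (.n 2 (.l 0) (.l 0)) (.n 2 (.l 0) (.l 0))) (.n 2 (.n 1 (.l 0) (.l 0)) (.n 2 (.l 0) (.l 0))))
    [(68719214592, 4581490688), (962072674304, 137438953472), (863554764800, 863554764800)] rfl (by decide +kernel)
theorem D5_c0_t8 : CovD 1 gD5 [(77882195968, 4581490688), (687194767360, 137438953472), (863554764800, 863554764800)] :=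
  covD_E kD5_eq (.n 2 (.n 1 (.n 2 (.l 0) (.l 0)) (.n 2 (.l 0) (.l 0))) (.n 2 (.n 2 (.l 0) (.l 0)) (.n 0 (.n 2 (.l 0) (.l 0)) (.n 2 (.l 0) (.l 1)))))
    [(77882195968, 4581490688), (687194767360, 137438953472), (863554764800, 863554764800)] rfl (by decide +kernel)
end

mutual
theorem D5_c0_t9 : CovD 1 gD5 [(77882195968, 4581490688), (962072674304, 137438953472), (863554764800, 863554764800)] :=
  covD_E kD5_eq (.n 2 (.n 1 (.n 2 (.l 0) (.l 0)) (.n 2 (.l 0) (.l 0))) (.n 2 (.n 2 (.l 0) (.l 0)) (.n 0 (.n 2 (.l 0) (.l 0)) (.n 2 (.l 0) (.l 1)))))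
    [(77882195968, 4581490688), (962072674304, 137438953472), (863554764800, 863554764800)] rfl (by decide +kernel)
theorem D5_c0_t11 : CovD 1 gD5 [(87045177344, 4581490688), (687194767360, 137438953472), (863554764800, 863554764800)] :=
  covD_E kD5_eq (.n 2 (.n 2 (.n 1 (.l 0) (.l 0)) (.n 2 (.l 0) (.l 0))) (.n 2 (.n 2 (.l 0) (.n 0 (.l 0) (.l 0))) (.n 2 (.n 0 (.l 0) (.l 1)) (.l 1))))
    [(87045177344, 4581490688), (687194767360, 137438953472), (863554764800, 863554764800)] rfl (by decide +kernel)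
end

mutual
theorem D5_c0_t12 : CovD 1 gD5 [(87045177344, 4581490688), (962072674304, 137438953472), (863554764800, 863554764800)] :=
  covD_E kD5_eq (.n 2 (.n 2 (.n 1 (.l 0) (.l 0)) (.n 2 (.l 0) (.l 0))) (.n 2 (.n 2 (.l 0) (.n 0 (.l 0) (.l 1))) (.n 1 (.l 1) (.l 1))))
    [(87045177344, 4581490688), (962072674304, 137438953472), (863554764800, 863554764800)] rfl (by decide +kernel)
theorem E5_c0_t1 : CovD 1 gE5 [(73300705280, 18325962752), (824633720832, 274877906944), (431777382400, 431777382400)] :=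
  covD_E kE5_eq (.n 0 (.n 1 (.n 2 (.l 1) (.n 0 (.l 1) (.l 1))) (.n 2 (.l 1) (.n 0 (.l 1) (.l 1)))) (.n 1 (.n 2 (.l 1) (.l 1)) (.n 2 (.l 1) (.l 1))))
    [(73300705280, 18325962752), (824633720832, 274877906944), (431777382400, 431777382400)] rfl (by decide +kernel)
end

mutual
theorem E5_c0_t5 : CovD 1 gE5 [(57265487872, 2290745344), (824633720832, 274877906944), (1295332147200, 431777382400)] :=
  covD_E kE5_eq (.n 1 (.n 2 (.n 2 (.l 1) (.n 2 (.l 1) (.l 0))) (.n 2 (.n 2 (.l 0) (.l 0)) (.l 0))) (.n 2 (.n 2 (.l 1) (.n 0 (.l 1) (.l 0))) (.n 2 (.l 0) (.l 0))))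
    [(57265487872, 2290745344), (824633720832, 274877906944), (1295332147200, 431777382400)] rfl (by decide +kernel)
theorem E5_c0_t6 : CovD 1 gE5 [(61846978560, 2290745344), (824633720832, 274877906944), (1295332147200, 431777382400)] :=
  covD_E kE5_eq (.n 1 (.n 2 (.n 1 (.l 1) (.l 1)) (.n 2 (.l 0) (.l 0))) (.n 2 (.n 0 (.l 1) (.l 1)) (.n 2 (.l 0) (.l 0))))
    [(61846978560, 2290745344), (824633720832, 274877906944), (1295332147200, 431777382400)] rfl (by decide +kernel)
end

mutual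
theorem E5_c0_t7 : CovD 1 gE5 [(68719214592, 4581490688), (824633720832, 274877906944), (1295332147200, 431777382400)] :=
  covD_E kE5_eq (.n 1 (.n 1 (.n 2 (.l 1) (.n 2 (.l 0) (.l 0))) (.n 2 (.l 1) (.n 2 (.l 0) (.l 0)))) (.n 2 (.l 1) (.n 0 (.n 2 (.l 1) (.l 0)) (.n 2 (.l 1) (.l 0)))))
    [(68719214592, 4581490688), (824633720832, 274877906944), (1295332147200, 431777382400)] rfl (by decide +kernel)
theorem E5_c0_t8 : CovD 1 gE5 [(82463686656, 9162981376), (824633720832, 274877906944), (1295332147200, 431777382400)] :=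
  covD_E kE5_eq (.n 2 (.n 1 (.n 0 (.l 1) (.l 1)) (.l 1)) (.n 0 (.n 1 (.n 1 (.l 1) (.l 1)) (.n 0 (.l 1) (.l 1))) (.n 1 (.l 1) (.l 1))))
    [(82463686656, 9162981376), (824633720832, 274877906944), (1295332147200, 431777382400)] rfl (by decide +kernel)
end

theorem D5_c0_t3 : CovD 1 gD5 [(68719214592, 4581490688), (824633720832, 274877906944), (863554764800, 863554764800)] :=
  covD_split 1 (by decide +kernel) D5_c0_t4 D5_c0_t5

theorem D5_c0_t1 : CovD 1 gD5 [(64137723904, 9162981376), (824633720832, 274877906944), (863554764800, 863554764800)] :=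
  covD_split 0 (by decide +kernel) D5_c0_t2 D5_c0_t3

theorem D5_c0_t7 : CovD 1 gD5 [(77882195968, 4581490688), (824633720832, 274877906944), (863554764800, 863554764800)] :=
  covD_split 1 (by decide +kernel) D5_c0_t8 D5_c0_t9

theorem D5_c0_t10 : CovD 1 gD5 [(87045177344, 4581490688), (824633720832, 274877906944), (863554764800, 863554764800)] :=
  covD_split 1 (by decide +kernel) D5_c0_t11 D5_c0_t12

theorem D5_c0_t6 : CovD 1 gD5 [(82463686656, 9162981376), (824633720832, 274877906944), (863554764800, 863554764800)] :=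
  covD_split 0 (by decide +kernel) D5_c0_t7 D5_c0_t10

theorem D5_c0 : CovD 1 gD5 [(73300705280, 18325962752), (824633720832, 274877906944), (863554764800, 863554764800)] :=
  covD_split 0 (by decide +kernel) D5_c0_t1 D5_c0_t6

theorem E5_c0_t4 : CovD 1 gE5 [(59556233216, 4581490688), (824633720832, 274877906944), (1295332147200, 431777382400)] :=
  covD_split 0 (by decide +kernel) E5_c0_t5 E5_c0_t6

theorem E5_c0_t3 : CovD 1 gE5 [(64137723904, 9162981376), (824633720832, 274877906944), (1295332147200, 431777382400)] :=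
  covD_split 0 (by decide +kernel) E5_c0_t4 E5_c0_t7

theorem E5_c0_t2 : CovD 1 gE5 [(73300705280, 18325962752), (824633720832, 274877906944), (1295332147200, 431777382400)] :=
  covD_split 0 (by decide +kernel) E5_c0_t3 E5_c0_t8

theorem E5_c0 : CovD 1 gE5 [(73300705280, 18325962752), (824633720832, 274877906944), (863554764800, 863554764800)] :=
  covD_split 2 (by decide +kernel) E5_c0_t1 E5_c0_t2

end Pool.Agent.helper14.NR.E12c
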