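import Pool.Agent.helper14.NR.E12c.PZ

/-!
Generated: certificates.
-/

namespace Pool.Agent.helper14.NR.E12c

open Pool.Agent.helper31.IA (Z)
open Pool.Agent.helper31.IX (Op XOps runX Cov CovD cov_split covD_split)
open Pool.Agent.helper31.IC (TD)
open Pool.Agent.helper63.RG (reloc)
open Pool.Agent.helper63.NF hiding TD
open Pool.Agent.helper14.CF (xE covD_E)
open Pool.Agent.helper14.NR (share)

mutual
theorem Z_c0_t7 : CovD 1 gZ [(59556233216, 4581490688), (584115552256, 34359738368), (137438953472, 137438953472)] :=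
  covD_E kZ_eq (.n 2 (.n 2 (.n 2 (.n 2 (.l 0) (.l 0)) (.n 2 (.l 0) (.l 0))) (.n 1 (.n 2 (.l 0) (.l 0)) (.n 2 (.l 0) (.l 0)))) (.n 2 (.n 2 (.l 0) (.l 0)) (.n 0 (.l 0) (.l 0))))
    [(59556233216, 4581490688), (584115552256, 34359738368), (137438953472, 137438953472)] rfl (by decide +kernel)
theorem Z_c0_t8 : CovD 1 gZ [(59556233216, 4581490688), (652835028992, 34359738368), (137438953472, 137438953472)] :=
  covD_E kZ_eq (.n 2 (.n 2 (.n 2 (.n 2 (.l 0) (.l 0)) (.n 2 (.l 0) (.l 0))) (.n 2 (.n 2 (.l 0) (.l 0)) (.n 1 (.l 0) (.l 0)))) (.n 2 (.n 2 (.l 0) (.l 0)) (.n 2 (.l 0) (.l 0))))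
    [(59556233216, 4581490688), (652835028992, 34359738368), (137438953472, 137438953472)] rfl (by decide +kernel)
end

mutual
theorem Z_c0_t9 : CovD 1 gZ [(59556233216, 4581490688), (618475290624, 68719476736), (412316860416, 137438953472)] :=
  covD_E kZ_eq (.n 2 (.n 1 (.n 2 (.l 0) (.l 0)) (.n 2 (.l 0) (.l 0))) (.n 2 (.n 0 (.l 0) (.l 0)) (.l 0)))
    [(59556233216, 4581490688), (618475290624, 68719476736), (412316860416, 137438953472)] rfl (by decide +kernel)
theorem Z_c0_t12 : CovD 1 gZ [(59556233216, 4581490688), (721554505728, 34359738368), (137438953472, 137438953472)] :=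
  covD_E kZ_eq (.n 2 (.n 2 (.n 2 (.n 2 (.l 0) (.l 0)) (.n 2 (.l 0) (.l 0))) (.n 2 (.n 2 (.l 0) (.l 0)) (.n 0 (.l 0) (.l 0)))) (.n 2 (.n 2 (.l 0) (.l 0)) (.n 0 (.l 0) (.l 0))))
    [(59556233216, 4581490688), (721554505728, 34359738368), (137438953472, 137438953472)] rfl (by decide +kernel)
end

mutual
theorem Z_c0_t13 : CovD 1 gZ [(59556233216, 4581490688), (790273982464, 34359738368), (137438953472, 137438953472)] :=
  covD_E kZ_eq (.n 2 (.n 2 (.n 1 (.n 2 (.l 0) (.l 0)) (.n 2 (.l 0) (.l 0))) (.n 2 (.n 0 (.l 0) (.l 0)) (.l 0))) (.n 2 (.n 2 (.l 0) (.l 0)) (.n 0 (.l 0) (.l 0))))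
    [(59556233216, 4581490688), (790273982464, 34359738368), (137438953472, 137438953472)] rfl (by decide +kernel)
theorem Z_c0_t14 : CovD 1 gZ [(59556233216, 4581490688), (755914244096, 68719476736), (412316860416, 137438953472)] :=
  covD_E kZ_eq (.n 2 (.n 1 (.n 2 (.l 0) (.l 0)) (.n 2 (.l 0) (.l 0))) (.n 2 (.n 0 (.l 0) (.l 0)) (.l 0)))
    [(59556233216, 4581490688), (755914244096, 68719476736), (412316860416, 137438953472)] rfl (by decide +kernel)
end

mutual
theorem Z_c0_t17 : CovD 1 gZ [(59556233216, 4581490688), (893353197568, 68719476736), (137438953472, 137438953472)] :=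
  covD_E kZ_eq (.n 1 (.n 2 (.n 2 (.n 2 (.l 0) (.l 0)) (.n 2 (.l 0) (.l 0))) (.n 2 (.n 0 (.l 0) (.l 0)) (.l 0))) (.n 2 (.n 2 (.l 0) (.l 0)) (.n 2 (.l 0) (.l 0))))
    [(59556233216, 4581490688), (893353197568, 68719476736), (137438953472, 137438953472)] rfl (by decide +kernel)
theorem Z_c0_t18 : CovD 1 gZ [(59556233216, 4581490688), (893353197568, 68719476736), (412316860416, 137438953472)] :=
  covD_E kZ_eq (.n 2 (.n 0 (.n 2 (.l 0) (.l 0)) (.n 2 (.l 0) (.l 0))) (.n 2 (.n 0 (.l 0) (.l 0)) (.l 0)))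
    [(59556233216, 4581490688), (893353197568, 68719476736), (412316860416, 137438953472)] rfl (by decide +kernel)
end

mutual
theorem Z_c0_t19 : CovD 1 gZ [(59556233216, 4581490688), (1030792151040, 68719476736), (274877906944, 274877906944)] :=
  covD_E kZ_eq (.n 1 (.n 2 (.n 2 (.n 2 (.l 0) (.l 0)) (.n 2 (.l 0) (.l 0))) (.n 2 (.n 2 (.l 0) (.l 0)) (.n 0 (.l 0) (.l 0)))) (.n 2 (.n 2 (.n 2 (.l 0) (.l 0)) (.n 2 (.l 0) (.l 0))) (.n 2 (.n 2 (.l 0) (.l 0)) (.n 0 (.l 0) (.l 0)))))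
    [(59556233216, 4581490688), (1030792151040, 68719476736), (274877906944, 274877906944)] rfl (by decide +kernel)
theorem Z_c0_t24 : CovD 1 gZ [(68719214592, 4581490688), (618475290624, 68719476736), (68719476736, 68719476736)] :=
  covD_E kZ_eq (.n 1 (.n 2 (.n 2 (.l 0) (.l 0)) (.n 2 (.l 0) (.l 0))) (.n 2 (.n 0 (.n 2 (.l 0) (.l 0)) (.n 2 (.l 0) (.l 0))) (.n 2 (.n 0 (.l 0) (.l 0)) (.l 0))))
    [(68719214592, 4581490688), (618475290624, 68719476736), (68719476736, 68719476736)] rfl (by decide +kernel)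
end

mutual
theorem Z_c0_t25 : CovD 1 gZ [(68719214592, 4581490688), (618475290624, 68719476736), (206158430208, 68719476736)] :=
  covD_E kZ_eq (.n 2 (.n 1 (.n 2 (.l 0) (.l 0)) (.n 2 (.l 0) (.l 0))) (.n 2 (.n 0 (.l 0) (.l 0)) (.l 0)))
    [(68719214592, 4581490688), (618475290624, 68719476736), (206158430208, 68719476736)] rfl (by decide +kernel)
theorem Z_c0_t26 : CovD 1 gZ [(68719214592, 4581490688), (618475290624, 68719476736), (412316860416, 137438953472)] :=
  covD_E kZ_eq (.n 2 (.n 1 (.n 2 (.l 0) (.l 0)) (.n 2 (.l 0) (.l 0))) (.n 2 (.n 0 (.l 0) (.l 0)) (.l 0)))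
    [(68719214592, 4581490688), (618475290624, 68719476736), (412316860416, 137438953472)] rfl (by decide +kernel)
end

mutual
theorem Z_c0_t29 : CovD 1 gZ [(68719214592, 4581490688), (721554505728, 34359738368), (137438953472, 137438953472)] :=
  covD_E kZ_eq (.n 2 (.n 2 (.n 1 (.n 2 (.l 0) (.l 0)) (.n 2 (.l 0) (.l 0))) (.n 2 (.n 0 (.l 0) (.l 0)) (.l 0))) (.n 2 (.n 2 (.l 0) (.l 0)) (.n 0 (.l 0) (.l 0))))
    [(68719214592, 4581490688), (721554505728, 34359738368), (137438953472, 137438953472)] rfl (by decide +kernel)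
theorem Z_c0_t30 : CovD 1 gZ [(68719214592, 4581490688), (790273982464, 34359738368), (137438953472, 137438953472)] :=
  covD_E kZ_eq (.n 2 (.n 2 (.n 2 (.l 0) (.l 0)) (.n 2 (.l 0) (.l 0))) (.n 2 (.n 2 (.l 0) (.l 0)) (.l 0)))
    [(68719214592, 4581490688), (790273982464, 34359738368), (137438953472, 137438953472)] rfl (by decide +kernel)
end

mutual
theorem Z_c0_t31 : CovD 1 gZ [(68719214592, 4581490688), (755914244096, 68719476736), (412316860416, 137438953472)] :=
  covD_E kZ_eq (.n 2 (.n 1 (.n 2 (.l 0) (.l 0)) (.n 2 (.l 0) (.l 0))) (.n 2 (.l 0) (.l 0)))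
    [(68719214592, 4581490688), (755914244096, 68719476736), (412316860416, 137438953472)] rfl (by decide +kernel)
theorem Z_c0_t34 : CovD 1 gZ [(68719214592, 4581490688), (893353197568, 68719476736), (137438953472, 137438953472)] :=
  covD_E kZ_eq (.n 1 (.n 2 (.n 2 (.n 2 (.l 0) (.l 0)) (.n 0 (.l 0) (.l 0))) (.n 2 (.n 0 (.l 0) (.l 0)) (.l 0))) (.n 2 (.n 2 (.l 0) (.l 0)) (.n 2 (.l 0) (.l 0))))
    [(68719214592, 4581490688), (893353197568, 68719476736), (137438953472, 137438953472)] rfl (by decide +kernel)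
end

mutual
theorem Z_c0_t35 : CovD 1 gZ [(68719214592, 4581490688), (893353197568, 68719476736), (412316860416, 137438953472)] :=
  covD_E kZ_eq (.n 2 (.n 0 (.n 2 (.l 0) (.l 0)) (.n 2 (.l 0) (.l 0))) (.n 2 (.l 0) (.l 0)))
    [(68719214592, 4581490688), (893353197568, 68719476736), (412316860416, 137438953472)] rfl (by decide +kernel)
theorem Z_c0_t36 : CovD 1 gZ [(68719214592, 4581490688), (1030792151040, 68719476736), (274877906944, 274877906944)] :=
  covD_E kZ_eq (.n 2 (.n 0 (.n 2 (.n 2 (.l 0) (.l 0)) (.n 2 (.l 0) (.l 0))) (.n 2 (.n 2 (.l 0) (.l 0)) (.n 2 (.l 0) (.l 0)))) (.n 2 (.n 0 (.n 2 (.l 0) (.l 0)) (.n 1 (.l 0) (.l 0))) (.n 2 (.n 0 (.l 0) (.l 0)) (.l 0))))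
    [(68719214592, 4581490688), (1030792151040, 68719476736), (274877906944, 274877906944)] rfl (by decide +kernel)
end

mutual
theorem Z_c0_t41 : CovD 1 gZ [(82463686656, 9162981376), (584115552256, 34359738368), (137438953472, 137438953472)] :=
  covD_E kZ_eq (.n 2 (.n 0 (.n 2 (.n 2 (.l 0) (.l 0)) (.n 2 (.l 0) (.l 0))) (.n 2 (.n 2 (.l 0) (.l 0)) (.n 2 (.l 0) (.l 0)))) (.n 2 (.n 2 (.n 0 (.l 0) (.l 0)) (.l 0)) (.n 0 (.l 0) (.l 0))))
    [(82463686656, 9162981376), (584115552256, 34359738368), (137438953472, 137438953472)] rfl (by decide +kernel)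
theorem Z_c0_t43 : CovD 1 gZ [(82463686656, 9162981376), (652835028992, 34359738368), (68719476736, 68719476736)] :=
  covD_E kZ_eq (.n 2 (.n 2 (.n 2 (.l 0) (.n 0 (.l 0) (.l 0))) (.n 0 (.n 0 (.l 0) (.l 0)) (.n 1 (.l 0) (.l 0)))) (.n 0 (.n 2 (.l 0) (.l 0)) (.n 2 (.n 0 (.l 0) (.l 0)) (.l 0))))
    [(82463686656, 9162981376), (652835028992, 34359738368), (68719476736, 68719476736)] rfl (by decide +kernel)
end

mutual
theorem Z_c0_t44 : CovD 1 gZ [(82463686656, 9162981376), (652835028992, 34359738368), (206158430208, 68719476736)] :=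
  covD_E kZ_eq (.n 2 (.n 0 (.n 2 (.l 0) (.l 0)) (.n 2 (.l 0) (.l 0))) (.n 2 (.n 0 (.l 0) (.l 0)) (.l 0)))
    [(82463686656, 9162981376), (652835028992, 34359738368), (206158430208, 68719476736)] rfl (by decide +kernel)
theorem Z_c0_t45 : CovD 1 gZ [(82463686656, 9162981376), (618475290624, 68719476736), (412316860416, 137438953472)] :=
  covD_E kZ_eq (.n 0 (.n 2 (.n 1 (.n 2 (.l 0) (.l 0)) (.n 2 (.l 0) (.l 0))) (.n 2 (.n 0 (.l 0) (.l 0)) (.l 0))) (.n 2 (.n 1 (.n 2 (.l 0) (.l 0)) (.n 2 (.l 0) (.l 0))) (.n 2 (.n 0 (.l 0) (.l 0)) (.l 0))))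
    [(82463686656, 9162981376), (618475290624, 68719476736), (412316860416, 137438953472)] rfl (by decide +kernel)
end

mutual
theorem Z_c0_t49 : CovD 1 gZ [(82463686656, 9162981376), (721554505728, 34359738368), (68719476736, 68719476736)] :=
  covD_E kZ_eq (.n 0 (.n 2 (.n 0 (.n 2 (.l 0) (.l 0)) (.n 2 (.l 0) (.l 0))) (.n 2 (.n 0 (.l 0) (.l 0)) (.l 0))) (.n 2 (.n 1 (.n 2 (.l 0) (.l 0)) (.n 2 (.l 0) (.l 0))) (.n 2 (.n 0 (.l 0) (.l 0)) (.l 0))))
    [(82463686656, 9162981376), (721554505728, 34359738368), (68719476736, 68719476736)] rfl (by decide +kernel)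
theorem Z_c0_t50 : CovD 1 gZ [(82463686656, 9162981376), (721554505728, 34359738368), (206158430208, 68719476736)] :=
  covD_E kZ_eq (.n 2 (.n 0 (.n 2 (.l 0) (.l 0)) (.n 2 (.l 0) (.l 0))) (.n 2 (.n 0 (.l 0) (.l 0)) (.l 0)))
    [(82463686656, 9162981376), (721554505728, 34359738368), (206158430208, 68719476736)] rfl (by decide +kernel)
end

mutual
theorem Z_c0_t51 : CovD 1 gZ [(82463686656, 9162981376), (790273982464, 34359738368), (137438953472, 137438953472)] :=
  covD_E kZ_eq (.n 0 (.n 2 (.n 2 (.n 2 (.l 0) (.l 0)) (.n 2 (.l 0) (.l 0))) (.n 2 (.n 2 (.l 0) (.l 0)) (.l 0))) (.n 2 (.n 2 (.n 2 (.l 0) (.l 0)) (.n 2 (.l 0) (.l 0))) (.n 2 (.n 2 (.l 0) (.l 0)) (.l 0))))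
    [(82463686656, 9162981376), (790273982464, 34359738368), (137438953472, 137438953472)] rfl (by decide +kernel)
theorem Z_c0_t52 : CovD 1 gZ [(82463686656, 9162981376), (755914244096, 68719476736), (412316860416, 137438953472)] :=
  covD_E kZ_eq (.n 0 (.n 2 (.n 1 (.n 2 (.l 0) (.l 0)) (.n 2 (.l 0) (.l 0))) (.n 2 (.l 0) (.l 0))) (.n 2 (.n 1 (.n 2 (.l 0) (.l 0)) (.n 2 (.l 0) (.l 0))) (.n 2 (.l 0) (.l 0))))
    [(82463686656, 9162981376), (755914244096, 68719476736), (412316860416, 137438953472)] rfl (by decide +kernel)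
end

mutual
theorem Z_c0_t55 : CovD 1 gZ [(82463686656, 9162981376), (858993459200, 34359738368), (274877906944, 274877906944)] :=
  covD_E kZ_eq (.n 2 (.n 2 (.n 2 (.n 2 (.l 0) (.l 0)) (.n 2 (.l 0) (.l 0))) (.n 0 (.n 2 (.l 0) (.l 0)) (.n 2 (.l 0) (.l 0)))) (.n 2 (.n 0 (.n 2 (.l 0) (.l 0)) (.n 2 (.l 0) (.l 0))) (.n 2 (.n 0 (.l 0) (.l 0)) (.l 0))))
    [(82463686656, 9162981376), (858993459200, 34359738368), (274877906944, 274877906944)] rfl (by decide +kernel)
theorem Z_c0_t56 : CovD 1 gZ [(82463686656, 9162981376), (927712935936, 34359738368), (274877906944, 274877906944)] :=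
  covD_E kZ_eq (.n 2 (.n 0 (.n 2 (.n 2 (.l 0) (.l 0)) (.n 2 (.l 0) (.l 0))) (.n 2 (.n 2 (.l 0) (.l 0)) (.n 2 (.l 0) (.l 0)))) (.n 2 (.n 0 (.n 2 (.l 0) (.l 0)) (.n 2 (.l 0) (.l 0))) (.n 2 (.l 0) (.l 0))))
    [(82463686656, 9162981376), (927712935936, 34359738368), (274877906944, 274877906944)] rfl (by decide +kernel)
end

mutual
theorem Z_c0_t58 : CovD 1 gZ [(82463686656, 9162981376), (996432412672, 34359738368), (274877906944, 274877906944)] :=
  covD_E kZ_eq (.n 2 (.n 2 (.n 2 (.l 0) (.n 0 (.l 0) (.l 0))) (.n 0 (.n 2 (.l 0) (.l 0)) (.n 2 (.l 0) (.l 0)))) (.n 2 (.n 2 (.l 0) (.l 0)) (.n 2 (.l 0) (.l 0))))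
    [(82463686656, 9162981376), (996432412672, 34359738368), (274877906944, 274877906944)] rfl (by decide +kernel)
theorem Z_c0_t59 : CovD 1 gZ [(82463686656, 9162981376), (1065151889408, 34359738368), (274877906944, 274877906944)] :=
  covD_E kZ_eq (.n 2 (.n 2 (.n 2 (.l 0) (.l 0)) (.n 2 (.l 0) (.l 0))) (.n 2 (.n 2 (.l 0) (.n 0 (.l 0) (.l 0))) (.n 2 (.n 0 (.l 0) (.l 0)) (.l 0))))
    [(82463686656, 9162981376), (1065151889408, 34359738368), (274877906944, 274877906944)] rfl (by decide +kernel)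
end

mutual
theorem Z_c0_t63 : CovD 1 gZ [(59556233216, 4581490688), (687194767360, 137438953472), (824633720832, 274877906944)] :=
  covD_E kZ_eq (.n 1 (.n 2 (.n 2 (.n 2 (.l 0) (.l 0)) (.n 2 (.l 0) (.l 0))) (.n 0 (.n 2 (.l 0) (.l 0)) (.n 2 (.l 0) (.l 0)))) (.n 2 (.n 2 (.n 2 (.l 0) (.l 0)) (.n 2 (.l 0) (.l 0))) (.n 0 (.n 2 (.l 0) (.l 0)) (.n 2 (.l 0) (.l 0)))))
    [(59556233216, 4581490688), (687194767360, 137438953472), (824633720832, 274877906944)] rfl (by decide +kernel)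
theorem Z_c0_t64 : CovD 1 gZ [(59556233216, 4581490688), (962072674304, 137438953472), (824633720832, 274877906944)] :=
  covD_E kZ_eq (.n 1 (.n 2 (.n 2 (.n 2 (.l 0) (.l 0)) (.n 2 (.l 0) (.l 0))) (.n 0 (.n 2 (.l 0) (.l 0)) (.n 2 (.l 0) (.l 0)))) (.n 2 (.n 2 (.n 2 (.l 0) (.l 0)) (.n 2 (.l 0) (.l 0))) (.n 0 (.n 2 (.l 0) (.l 0)) (.n 2 (.l 0) (.l 0)))))
    [(59556233216, 4581490688), (962072674304, 137438953472), (824633720832, 274877906944)] rfl (by decide +kernel)
end

mutual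
theorem Z_c0_t66 : CovD 1 gZ [(68719214592, 4581490688), (687194767360, 137438953472), (824633720832, 274877906944)] :=
  covD_E kZ_eq (.n 1 (.n 2 (.n 2 (.n 2 (.l 0) (.l 0)) (.n 2 (.l 0) (.l 0))) (.n 2 (.n 0 (.l 0) (.l 0)) (.l 0))) (.n 2 (.n 2 (.n 2 (.l 0) (.l 0)) (.n 2 (.l 0) (.l 0))) (.n 2 (.n 0 (.l 0) (.l 0)) (.l 0))))
    [(68719214592, 4581490688), (687194767360, 137438953472), (824633720832, 274877906944)] rfl (by decide +kernel)
theorem Z_c0_t67 : CovD 1 gZ [(68719214592, 4581490688), (962072674304, 137438953472), (824633720832, 274877906944)] :=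
  covD_E kZ_eq (.n 1 (.n 2 (.n 2 (.n 2 (.l 0) (.l 0)) (.n 1 (.l 0) (.l 0))) (.n 2 (.n 0 (.l 0) (.l 0)) (.l 0))) (.n 2 (.n 2 (.n 2 (.l 0) (.l 0)) (.n 1 (.l 0) (.l 0))) (.n 0 (.n 2 (.l 0) (.l 0)) (.n 2 (.l 0) (.l 0)))))
    [(68719214592, 4581490688), (962072674304, 137438953472), (824633720832, 274877906944)] rfl (by decide +kernel)
end

mutual
theorem Z_c0_t70 : CovD 1 gZ [(77882195968, 4581490688), (687194767360, 137438953472), (824633720832, 274877906944)] :=
  covD_E kZ_eq (.n 1 (.n 2 (.n 2 (.n 2 (.l 0) (.l 0)) (.n 2 (.l 0) (.l 0))) (.n 2 (.n 0 (.l 0) (.l 0)) (.l 0))) (.n 2 (.n 2 (.n 2 (.l 0) (.l 0)) (.n 0 (.l 0) (.l 0))) (.n 2 (.l 0) (.l 0))))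
    [(77882195968, 4581490688), (687194767360, 137438953472), (824633720832, 274877906944)] rfl (by decide +kernel)
theorem Z_c0_t71 : CovD 1 gZ [(77882195968, 4581490688), (962072674304, 137438953472), (824633720832, 274877906944)] :=
  covD_E kZ_eq (.n 1 (.n 2 (.n 2 (.n 2 (.l 0) (.l 0)) (.n 1 (.l 0) (.l 0))) (.n 2 (.n 0 (.l 0) (.l 0)) (.l 0))) (.n 2 (.n 2 (.n 2 (.l 0) (.l 0)) (.n 1 (.l 0) (.l 0))) (.n 0 (.n 2 (.l 0) (.l 0)) (.n 2 (.l 0) (.l 0)))))
    [(77882195968, 4581490688), (962072674304, 137438953472), (824633720832, 274877906944)] rfl (by decide +kernel)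
end

mutual
theorem Z_c0_t73 : CovD 1 gZ [(87045177344, 4581490688), (687194767360, 137438953472), (824633720832, 274877906944)] :=
  covD_E kZ_eq (.n 1 (.n 2 (.n 2 (.n 2 (.l 0) (.l 0)) (.n 2 (.l 0) (.l 0))) (.n 2 (.n 0 (.l 0) (.l 0)) (.l 0))) (.n 2 (.n 2 (.n 2 (.l 0) (.l 0)) (.n 0 (.l 0) (.l 0))) (.n 2 (.l 0) (.l 0))))
    [(87045177344, 4581490688), (687194767360, 137438953472), (824633720832, 274877906944)] rfl (by decide +kernel)
theorem Z_c0_t74 : CovD 1 gZ [(87045177344, 4581490688), (962072674304, 137438953472), (824633720832, 274877906944)] :=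
  covD_E kZ_eq (.n 1 (.n 2 (.n 1 (.n 2 (.l 0) (.l 0)) (.n 2 (.l 0) (.l 0))) (.n 2 (.n 0 (.l 0) (.l 0)) (.l 0))) (.n 1 (.n 2 (.n 2 (.l 0) (.l 0)) (.n 2 (.l 0) (.l 0))) (.n 2 (.n 2 (.l 0) (.l 0)) (.n 2 (.l 0) (.l 0)))))
    [(87045177344, 4581490688), (962072674304, 137438953472), (824633720832, 274877906944)] rfl (by decide +kernel)
end

mutual
theorem T_c0 : CovD 1 gT [(73300705280, 18325962752), (824633720832, 274877906944)] :=
  covD_E kT_eq (.n 0 (.l 0) (.l 0))
    [(73300705280, 18325962752), (824633720832, 274877906944)] rfl (by decide +kernel)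
theorem S_c0 : CovD 0 gS [(73300705280, 18325962752), (824633720832, 274877906944)] :=
  covD_E kS_eq (.n 1 (.n 1 (.n 0 (.l 0) (.l 0)) (.l 0)) (.n 0 (.n 0 (.l 0) (.l 0)) (.n 0 (.l 0) (.l 0))))
    [(73300705280, 18325962752), (824633720832, 274877906944)] rfl (by decide +kernel)
end

theorem Z_c0_t6 : CovD 1 gZ [(59556233216, 4581490688), (618475290624, 68719476736), (137438953472, 137438953472)] :=
  covD_split 1 (by decide +kernel) Z_c0_t7 Z_c0_t8

theorem Z_c0_t5 : CovD 1 gZ [(59556233216, 4581490688), (618475290624, 68719476736), (274877906944, 274877906944)] :=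
  covD_split 2 (by decide +kernel) Z_c0_t6 Z_c0_t9

theorem Z_c0_t11 : CovD 1 gZ [(59556233216, 4581490688), (755914244096, 68719476736), (137438953472, 137438953472)] :=
  covD_split 1 (by decide +kernel) Z_c0_t12 Z_c0_t13

theorem Z_c0_t10 : CovD 1 gZ [(59556233216, 4581490688), (755914244096, 68719476736), (274877906944, 274877906944)] :=
  covD_split 2 (by decide +kernel) Z_c0_t11 Z_c0_t14

theorem Z_c0_t4 : CovD 1 gZ [(59556233216, 4581490688), (687194767360, 137438953472), (274877906944, 274877906944)] :=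
  covD_split 1 (by decide +kernel) Z_c0_t5 Z_c0_t10

theorem Z_c0_t16 : CovD 1 gZ [(59556233216, 4581490688), (893353197568, 68719476736), (274877906944, 274877906944)] :=
  covD_split 2 (by decide +kernel) Z_c0_t17 Z_c0_t18

theorem Z_c0_t15 : CovD 1 gZ [(59556233216, 4581490688), (962072674304, 137438953472), (274877906944, 274877906944)] :=
  covD_split 1 (by decide +kernel) Z_c0_t16 Z_c0_t19

theorem Z_c0_t3 : CovD 1 gZ [(59556233216, 4581490688), (824633720832, 274877906944), (274877906944, 274877906944)] :=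
  covD_split 1 (by decide +kernel) Z_c0_t4 Z_c0_t15

theorem Z_c0_t23 : CovD 1 gZ [(68719214592, 4581490688), (618475290624, 68719476736), (137438953472, 137438953472)] :=
  covD_split 2 (by decide +kernel) Z_c0_t24 Z_c0_t25

theorem Z_c0_t22 : CovD 1 gZ [(68719214592, 4581490688), (618475290624, 68719476736), (274877906944, 274877906944)] :=
  covD_split 2 (by decide +kernel) Z_c0_t23 Z_c0_t26

theorem Z_c0_t28 : CovD 1 gZ [(68719214592, 4581490688), (755914244096, 68719476736), (137438953472, 137438953472)] :=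
  covD_split 1 (by decide +kernel) Z_c0_t29 Z_c0_t30

theorem Z_c0_t27 : CovD 1 gZ [(68719214592, 4581490688), (755914244096, 68719476736), (274877906944, 274877906944)] :=
  covD_split 2 (by decide +kernel) Z_c0_t28 Z_c0_t31

theorem Z_c0_t21 : CovD 1 gZ [(68719214592, 4581490688), (687194767360, 137438953472), (274877906944, 274877906944)] :=
  covD_split 1 (by decide +kernel) Z_c0_t22 Z_c0_t27

theorem Z_c0_t33 : CovD 1 gZ [(68719214592, 4581490688), (893353197568, 68719476736), (274877906944, 274877906944)] :=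
  covD_split 2 (by decide +kernel) Z_c0_t34 Z_c0_t35

theorem Z_c0_t32 : CovD 1 gZ [(68719214592, 4581490688), (962072674304, 137438953472), (274877906944, 274877906944)] :=
  covD_split 1 (by decide +kernel) Z_c0_t33 Z_c0_t36

theorem Z_c0_t20 : CovD 1 gZ [(68719214592, 4581490688), (824633720832, 274877906944), (274877906944, 274877906944)] :=
  covD_split 1 (by decide +kernel) Z_c0_t21 Z_c0_t32

theorem Z_c0_t2 : CovD 1 gZ [(64137723904, 9162981376), (824633720832, 274877906944), (274877906944, 274877906944)] :=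
  covD_split 0 (by decide +kernel) Z_c0_t3 Z_c0_t20

theorem Z_c0_t42 : CovD 1 gZ [(82463686656, 9162981376), (652835028992, 34359738368), (137438953472, 137438953472)] :=
  covD_split 2 (by decide +kernel) Z_c0_t43 Z_c0_t44

theorem Z_c0_t40 : CovD 1 gZ [(82463686656, 9162981376), (618475290624, 68719476736), (137438953472, 137438953472)] :=
  covD_split 1 (by decide +kernel) Z_c0_t41 Z_c0_t42

theorem Z_c0_t39 : CovD 1 gZ [(82463686656, 9162981376), (618475290624, 68719476736), (274877906944, 274877906944)] :=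
  covD_split 2 (by decide +kernel) Z_c0_t40 Z_c0_t45

theorem Z_c0_t48 : CovD 1 gZ [(82463686656, 9162981376), (721554505728, 34359738368), (137438953472, 137438953472)] :=
  covD_split 2 (by decide +kernel) Z_c0_t49 Z_c0_t50

theorem Z_c0_t47 : CovD 1 gZ [(82463686656, 9162981376), (755914244096, 68719476736), (137438953472, 137438953472)] :=
  covD_split 1 (by decide +kernel) Z_c0_t48 Z_c0_t51

theorem Z_c0_t46 : CovD 1 gZ [(82463686656, 9162981376), (755914244096, 68719476736), (274877906944, 274877906944)] :=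
  covD_split 2 (by decide +kernel) Z_c0_t47 Z_c0_t52

theorem Z_c0_t38 : CovD 1 gZ [(82463686656, 9162981376), (687194767360, 137438953472), (274877906944, 274877906944)] :=
  covD_split 1 (by decide +kernel) Z_c0_t39 Z_c0_t46

theorem Z_c0_t54 : CovD 1 gZ [(82463686656, 9162981376), (893353197568, 68719476736), (274877906944, 274877906944)] :=
  covD_split 1 (by decide +kernel) Z_c0_t55 Z_c0_t56

theorem Z_c0_t57 : CovD 1 gZ [(82463686656, 9162981376), (1030792151040, 68719476736), (274877906944, 274877906944)] :=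
  covD_split 1 (by decide +kernel) Z_c0_t58 Z_c0_t59

theorem Z_c0_t53 : CovD 1 gZ [(82463686656, 9162981376), (962072674304, 137438953472), (274877906944, 274877906944)] :=
  covD_split 1 (by decide +kernel) Z_c0_t54 Z_c0_t57

theorem Z_c0_t37 : CovD 1 gZ [(82463686656, 9162981376), (824633720832, 274877906944), (274877906944, 274877906944)] :=
  covD_split 1 (by decide +kernel) Z_c0_t38 Z_c0_t53

theorem Z_c0_t1 : CovD 1 gZ [(73300705280, 18325962752), (824633720832, 274877906944), (274877906944, 274877906944)] :=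
  covD_split 0 (by decide +kernel) Z_c0_t2 Z_c0_t37

theorem Z_c0_t62 : CovD 1 gZ [(59556233216, 4581490688), (824633720832, 274877906944), (824633720832, 274877906944)] :=
  covD_split 1 (by decide +kernel) Z_c0_t63 Z_c0_t64

theorem Z_c0_t65 : CovD 1 gZ [(68719214592, 4581490688), (824633720832, 274877906944), (824633720832, 274877906944)] :=
  covD_split 1 (by decide +kernel) Z_c0_t66 Z_c0_t67

theorem Z_c0_t61 : CovD 1 gZ [(64137723904, 9162981376), (824633720832, 274877906944), (824633720832, 274877906944)] :=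
  covD_split 0 (by decide +kernel) Z_c0_t62 Z_c0_t65

theorem Z_c0_t69 : CovD 1 gZ [(77882195968, 4581490688), (824633720832, 274877906944), (824633720832, 274877906944)] :=
  covD_split 1 (by decide +kernel) Z_c0_t70 Z_c0_t71

theorem Z_c0_t72 : CovD 1 gZ [(87045177344, 4581490688), (824633720832, 274877906944), (824633720832, 274877906944)] :=
  covD_split 1 (by decide +kernel) Z_c0_t73 Z_c0_t74

theorem Z_c0_t68 : CovD 1 gZ [(82463686656, 9162981376), (824633720832, 274877906944), (824633720832, 274877906944)] :=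
  covD_split 0 (by decide +kernel) Z_c0_t69 Z_c0_t72

theorem Z_c0_t60 : CovD 1 gZ [(73300705280, 18325962752), (824633720832, 274877906944), (824633720832, 274877906944)] :=
  covD_split 0 (by decide +kernel) Z_c0_t61 Z_c0_t68

theorem Z_c0 : CovD 1 gZ [(73300705280, 18325962752), (824633720832, 274877906944), (549755813888, 549755813888)] :=
  covD_split 2 (by decide +kernel) Z_c0_t1 Z_c0_t60

end Pool.Agent.helper14.NR.E12c
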