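import Pool.Agent.helper14.NR.E12c.Tab
import Pool.Agent.helper14.NR.Share

/-!
Generated: programs and compiled forms.
-/

namespace Pool.Agent.helper14.NR.E12c

open Pool.Agent.helper31.IA (Z)
open Pool.Agent.helper31.IX (Op XOps runX Cov CovD cov_split covD_split)
open Pool.Agent.helper31.IC (TD)
open Pool.Agent.helper63.RG (reloc)
open Pool.Agent.helper63.NF hiding TD
open Pool.Agent.helper14.CF (xE covD_E)
open Pool.Agent.helper14.NR (share)

def p_Z_0 : List Op := [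
  .pos 0,
  .inv 0,
  .mul 1 2,
  .scale ⟨2199023255552, 0, 0, 0⟩ 0,
  .exp 1,
  .neg 2,
  .exp 0,
  .mul 2 2,
  .mul 1 1,
  .mul 0 0,
  .sub 5 3,
  .add 6 4,
  .mul 1 0,
  .scale ⟨549755813888, 0, 0, 0⟩ 0,
  .mul 3 3,
  .mul 1 13,
  .scale ⟨2199023255552, 0, 0, 0⟩ 16,
  .neg 0,
  .exp 0,
  .const ⟨1099511627776, 0, 0, 0⟩,
  .add 1 0,
  .pos 0,
  .inv 0,
  .mul 3 0,
  .add 15 14,
  .scale ⟨549755813888, 0, 0, 0⟩ 0,
  .const ⟨73282879488, 0, 0, 0⟩,
  .sub 25 0,
  .const ⟨824633720832, 0, 0, 0⟩,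
  .sub 28 0,
  .mul 0 0,
  .mul 0 1,
  .mul 4 2,
  .mul 5 2,
  .mul 6 6,
  .mul 0 5,
  .mul 1 8,
  .scale ⟨83941173632, 0, 0, 0⟩ 7,
  .scale ⟨0, 2340075904, 0, 0⟩ 7,
  .add 1 0,
  .scale ⟨0, 32253344512, 0, 0⟩ 8,
  .add 1 0,
  .scale ⟨0, 865660464384, 0, 0⟩ 14,
  .add 1 0,
  .scale ⟨0, 55457043968, 0, 0⟩ 11,
  .add 1 0,
  .scale ⟨0, 237492820288, 0, 0⟩ 12,
  .add 1 0,
  .scale ⟨2121901366912, 0, 0, 0⟩ 13,
  .add 1 0,
  .scale ⟨2848470763648, 0, 0, 0⟩ 14,
  .add 1 0,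
  .scale ⟨0, 30874393861696, 0, 0⟩ 15,
  .add 1 0,
  .const ⟨513270215680, 0, 0, 0⟩,
  .add 1 0,
  .scale ⟨0, 9676077952, 0, 0⟩ 26,
  .scale ⟨4276252032, 0, 0, 0⟩ 26,
  .add 1 0,
  .scale ⟨117738627968, 0, 0, 0⟩ 31,
  .add 1 0,
  .scale ⟨0, 27465955840, 0, 0⟩ 28,
  .add 1 0,
  .scale ⟨0, 380398986944, 0, 0⟩ 28,
  .add 1 0,
  .const ⟨8978478784, 0, 0, 0⟩,
  .add 1 0,
  .scale ⟨515925504, 0, 0, 0⟩ 37,
  .scale ⟨0, 11201419008, 0, 0⟩ 40,
  .add 1 0,
  .const ⟨0, 1545728768, 0, 0⟩,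
  .add 1 0,
  .scale ⟨0, 0, 1099511627776, 0⟩ 72,
  .scale ⟨549755813888, 0, 0, 0⟩ 0,
  .add 0 53,
  .inv 0,
  .mul 3 0,
  .scale ⟨0, 895662138816, 0, 0⟩ 0,
  .const ⟨2076435611520, 0, 0, 0⟩,
  .add 1 0,
  .mul 3 0,
  .const ⟨0, 3038029614144, 0, 0⟩,
  .add 1 0,
  .mul 6 0,
  .scale ⟨245352459264, 0, 0, 0⟩ 54,
  .scale ⟨0, 7257486324864, 0, 0⟩ 57,
  .add 1 0,
  .const ⟨2244522102336, 0, 0, 0⟩,
  .add 1 0,
  .add 5 0,
  .mul 13 0,
  .scale ⟨0, 755976157120, 0, 0⟩ 61,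
  .scale ⟨0, 6554874601600, 0, 0⟩ 64,
  .add 1 0,
  .const ⟨0, 773713461952, 0, 0⟩,
  .add 1 0,
  .add 5 0,
  .mul 20 0,
  .scale ⟨1039262328064, 0, 0, 0⟩ 68,
  .scale ⟨0, 505346770304, 0, 0⟩ 71,
  .add 1 0,
  .const ⟨133774276416, 0, 0, 0⟩,
  .add 1 0,
  .add 5 0,
  .mul 27 0,
  .scale ⟨0, 834075366656, 0, 0⟩ 75,
  .scale ⟨0, 36487807936, 0, 0⟩ 75,
  .add 1 0,
  .scale ⟨0, 19927972810368, 0, 0⟩ 80,
  .add 1 0,
  .scale ⟨1389511888064, 0, 0, 0⟩ 77,
  .add 1 0,
  .scale ⟨30041132069120, 0, 0, 0⟩ 77,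
  .add 1 0,
  .const ⟨821663397184, 0, 0, 0⟩,
  .add 1 0,
  .add 11 0,
  .mul 40 0,
  .scale ⟨295166849984, 0, 0, 0⟩ 88,
  .scale ⟨0, 91180346496, 0, 0⟩ 88,
  .add 1 0,
  .scale ⟨3375467272832, 0, 0, 0⟩ 93,
  .add 1 0,
  .scale ⟨0, 3316338186368, 0, 0⟩ 90,
  .add 1 0,
  .scale ⟨0, 23805971984320, 0, 0⟩ 90,
  .add 1 0,
  .const ⟨3604803594304, 0, 0, 0⟩,
  .add 1 0,
  .add 11 0,
  .mul 53 0,
  .scale ⟨296662592640, 0, 0, 0⟩ 101,
  .scale ⟨84820050368, 0, 0, 0⟩ 101,
  .add 1 0,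
  .scale ⟨0, 126167864448, 0, 0⟩ 102,
  .add 1 0,
  .scale ⟨3195250421312, 0, 0, 0⟩ 108,
  .add 1 0,
  .scale ⟨5651414979328, 0, 0, 0⟩ 105,
  .add 1 0,
  .scale ⟨0, 2390990280256, 0, 0⟩ 106,
  .add 1 0,
  .scale ⟨6837195579136, 0, 0, 0⟩ 107,
  .add 1 0,
  .scale ⟨0, 40730185465600, 0, 0⟩ 108,
  .add 1 0,
  .scale ⟨0, 182896610263936, 0, 0⟩ 109,
  .add 1 0,
  .const ⟨210320631552, 0, 0, 0⟩,
  .add 1 0,
  .mul 0 149,
  .add 20 0,
  .mul 150 150,
  .scale ⟨5703716569088, 0, 0, 0⟩ 0,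
  .const ⟨1726576852992, 0, 0, 0⟩,
  .add 1 0,
  .scale ⟨4398046511104, 0, 0, 0⟩ 155,
  .mul 80 1,
  .scale ⟨4398046511104, 0, 0, 0⟩ 0,
  .add 2 0,
  .scale ⟨124053028864, 0, 0, 0⟩ 130,
  .scale ⟨776385658880, 0, 0, 0⟩ 130,
  .add 1 0,
  .scale ⟨0, 53218443264, 0, 0⟩ 131,
  .add 1 0,
  .scale ⟨0, 1971918733312, 0, 0⟩ 137,
  .add 1 0,
  .scale ⟨0, 3742236868608, 0, 0⟩ 134,
  .add 1 0,
  .const ⟨155365801984, 0, 0, 0⟩,
  .add 1 0,
  .scale ⟨0, 4535485464576, 0, 0⟩ 166,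
  .neg 0,
  .exp 0,
  .mul 3 0,
  .mul 0 15,
  .scale ⟨879662989312, 0, 0, 0⟩ 16,
  .add 0 156,
  .pos 0,
  .inv 0,
  .mul 3 0,
  .neg 28,
  .exp 0,
  .add 0 161,
  .pos 0,
  .log 0,
  .mul 4 185,
  .sub 164 0,
  .log 0,
  .mul 5 2,
  .add 0 167,
  .pos 0,
  .log 0,
  .scale ⟨274877906944, 0, 0, 0⟩ 174,
  .log 169,
  .add 191 0,
  .sub 9 3,
  .sub 0 1,
  .mul 0 193,
  .exp 0,
  .sub 7 10,
  .add 0 46,
  .mul 0 197,
  .exp 0,
  .mul 199 45,
  .scale ⟨1649267441664, 0, 0, 0⟩ 11,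
  .add 0 182,
  .mul 2 0,
  .mul 205 0,
  .scale ⟨0, 0, 1099511627776, 0⟩ 0,
  .mul 0 0,
  .sub 17 0,
  .mul 12 12,
  .mul 0 1,
  .scale ⟨4398046511104, 0, 0, 0⟩ 0,
  .sub 191 0,
  .log 0,
  .scale ⟨549755813888, 0, 0, 0⟩ 0,
  .exp 0,
  .mul 19 9,
  .mul 0 1,
  .mul 27 17,
  .scale ⟨2199023255552, 0, 0, 0⟩ 10,
  .add 1 0,
  .mul 11 0,
  .add 0 4,
  .mul 22 0,
  .scale ⟨4398046511104, 0, 0, 0⟩ 0,
  .add 0 204,
  .log 0,
  .scale ⟨549755813888, 0, 0, 0⟩ 0,
  .exp 0,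
  .sub 0 203,
  .mul 213 213,
  .const ⟨13392781770752, 0, 0, 0⟩,
  .add 1 0,
  .pos 0,
  .inv 0,
  .mul 4 231,
  .mul 0 0,
  .sub 0 5,
  .mul 0 3,
  .lt 0 1099510579200,
  .mul 41 31,
  .scale ⟨2199023255552, 0, 0, 0⟩ 0,
  .sub 24 0,
  .pos 0,
  .mul 34 228,
  .add 216 0,
  .inv 0,
  .sub 218 0,
  .sub 15 0,
  .scale ⟨312373805056, 0, 0, 0⟩ 216,
  .scale ⟨1093637046272, 0, 0, 0⟩ 216,
  .add 1 0,
  .scale ⟨1101807222784, 0, 0, 0⟩ 217,
  .add 1 0,
  .scale ⟨0, 4357094965248, 0, 0⟩ 223,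
  .add 1 0,
  .scale ⟨5207974019072, 0, 0, 0⟩ 220,
  .add 1 0,
  .const ⟨1831922171904, 0, 0, 0⟩,
  .add 1 0,
  .add 15 242,
  .inv 0,
  .mul 249 16,
  .mul 1 0,
  .mul 0 15,
  .inv 257,
  .mul 248 0,
  .scale ⟨2199023255552, 0, 0, 0⟩ 0,
  .mul 0 3,
  .add 4 245,
  .inv 0,
  .mul 7 0,
  .mul 0 260,
  .mul 0 261,
  .inv 14,
  .mul 1 0,
  .mul 7 0,
  .lt 0 1099510579200,
  .add 248 44,
  .pos 0,
  .inv 0,
  .mul 0 0,
  .sub 256 0,
  .mul 0 275,
  .sub 268 2,
  .mul 0 277,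
  .scale ⟨0, 10479720202240, 0, 0⟩ 253,
  .const ⟨0, 1397474983936, 0, 0⟩,
  .add 1 0,
  .sub 5 0,
  .pos 0,
  .inv 0,
  .scale ⟨31362867265536, 0, 0, 0⟩ 0,
  .add 2 0,
  .pos 0,
  .inv 0,
  .scale ⟨0, 341580515840, 0, 0⟩ 259,
  .scale ⟨1189224579328, 0, 0, 0⟩ 262,
  .add 1 0,
  .const ⟨0, 50427793024, 0, 0⟩,
  .add 1 0,
  .scale ⟨0, 1020497729664, 0, 0⟩ 264,
  .scale ⟨36912893669120, 0, 0, 0⟩ 267,
  .add 1 0,
  .const ⟨1926350065408, 0, 0, 0⟩,
  .add 1 0,
  .mul 13 0,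
  .add 6 0,
  .mul 0 12,
  .scale ⟨0, 6537408, 0, 0⟩ 23,
  .const ⟨134625536, 0, 0, 0⟩,
  .add 1 0,
  .mul 26 0,
  .add 0 234,
  .mul 28 0,
  .add 0 241,
  .mul 30 0,
  .add 8 254,
  .add 1 0,
  .mul 31 0,
  .neg 0,
  .exp 0,
  .sub 0 294,
  .add 0 295,
  .mul 297 0,
  .add 0 297,
  .pos 0,
  .mul 295 3,
  .add 0 299,
  .pos 0,
  .log 0,
  .add 92 307,
  .add 171 139,
  .sub 0 132,
  .sub 0 3,
  .scale ⟨549755813888, 0, 0, 0⟩ 323,
  .mul 100 0,
  .sub 2 0,
  .exp 0,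
  .scale ⟨0, 25486163968, 0, 0⟩ 253,
  .const ⟨193207009280, 0, 0, 0⟩,
  .add 1 0,
  .mul 256 0,
  .const ⟨0, 358675972096, 0, 0⟩,
  .add 1 0,
  .mul 259 0,
  .scale ⟨0, 95342362624, 0, 0⟩ 307,
  .scale ⟨0, 980946190336, 0, 0⟩ 310,
  .add 1 0,
  .const ⟨379478343680, 0, 0, 0⟩,
  .add 1 0,
  .add 5 0,
  .mul 266 0,
  .scale ⟨42976018432, 0, 0, 0⟩ 314,
  .scale ⟨4568329355264, 0, 0, 0⟩ 317,
  .add 1 0,
  .const ⟨121769951232, 0, 0, 0⟩,
  .add 1 0,
  .add 5 0,
  .mul 273 0,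
  .scale ⟨37034196992, 0, 0, 0⟩ 321,
  .scale ⟨30061887488, 0, 0, 0⟩ 321,
  .add 1 0,
  .scale ⟨71966195712, 0, 0, 0⟩ 326,
  .add 1 0,
  .scale ⟨1746140135424, 0, 0, 0⟩ 323,
  .add 1 0,
  .scale ⟨11122643566592, 0, 0, 0⟩ 323,
  .add 1 0,
  .const ⟨1108411416576, 0, 0, 0⟩,
  .add 1 0,
  .add 11 0,
  .inv 187,
  .mul 0 186,
  .scale ⟨0, 9577168896, 0, 0⟩ 335,
  .scale ⟨40041775104, 0, 0, 0⟩ 335,
  .add 1 0,
  .scale ⟨280424284160, 0, 0, 0⟩ 336,
  .add 1 0,
  .scale ⟨0, 88053776384, 0, 0⟩ 342,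
  .add 1 0,
  .scale ⟨0, 498895224832, 0, 0⟩ 339,
  .add 1 0,
  .const ⟨87077158912, 0, 0, 0⟩,
  .add 1 0,
  .scale ⟨1649267441664, 0, 0, 0⟩ 371,
  .neg 0,
  .exp 0,
  .mul 3 0,
  .scale ⟨2199023255552, 0, 0, 0⟩ 0,
  .mul 0 58,
  .scale ⟨879662989312, 0, 0, 0⟩ 152,
  .add 0 381,
  .inv 0,
  .mul 3 0,
  .const ⟨0, 0, 0, 0⟩,
  .mul 24 57,
  .mul 0 70,
  .mul 0 3,
  .mul 0 25,
  .rball 4 0,
  .sub 371 29,
  .mul 394 0,
  .sub 373 64,
  .mul 0 30,
  .mul 33 0,
  .add 3 0,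
  .add 0 6,
  .lt 0 1099510579200]

set_option maxRecDepth 1000000 in
noncomputable def c_Z_0 {α : Type} (cst : Z → α) (add sub mul : α → α → α) (scale : Z → α → α)
    (neg inv exp log : α → α) (ok : α → Bool) (isPos : Nat → α → Bool) (isLt : α → Nat → Bool)
    (ball : Nat → α → α) (rball : α → α → α) : List α → Bool
  | [x0, x1, x2, x3] =>
  isPos 3 x0 && (
  let v0 := inv x0; ok v0 && (
  let v1 := mul x0 x1; ok v1 && (
  let v2 := scale ⟨2199023255552, 0, 0, 0⟩ v1; ok v2 && (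
  let v3 := exp v1; ok v3 && (
  let v4 := neg v1; ok v4 && (
  let v5 := exp v4; ok v5 && (
  let v6 := mul v3 v3; ok v6 && (
  let v7 := mul v5 v5; ok v7 && (
  let v8 := mul v7 v7; ok v8 && (
  let v9 := sub v3 v5; ok v9 && (
  let v10 := add v3 v5; ok v10 && (
  let v11 := mul v9 v10; ok v11 && (
  let v12 := scale ⟨549755813888, 0, 0, 0⟩ v11; ok v12 && (
  let v13 := mul v9 v9; ok v13 && (
  let v14 := mul v12 v0; ok v14 && (
  let v15 := scale ⟨2199023255552, 0, 0, 0⟩ x1; ok v15 && (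
  let v16 := neg v15; ok v16 && (
  let v17 := exp v16; ok v17 && (
  let v18 := cst ⟨1099511627776, 0, 0, 0⟩; ok v18 && (
  let v19 := add v17 v18; ok v19 && (
  isPos 3 v19 && (
  let v20 := inv v19; ok v20 && (
  let v21 := mul v17 v20; ok v21 && (
  let v22 := add v6 v7; ok v22 && (
  let v23 := scale ⟨549755813888, 0, 0, 0⟩ v22; ok v23 && (
  let v24 := cst ⟨73282879488, 0, 0, 0⟩; ok v24 && (
  let v25 := sub x0 v24; ok v25 && (
  let v26 := cst ⟨824633720832, 0, 0, 0⟩; ok v26 && (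
  let v27 := sub x1 v26; ok v27 && (
  let v28 := mul v27 v27; ok v28 && (
  let v29 := mul v28 v27; ok v29 && (
  let v30 := mul v25 v27; ok v30 && (
  let v31 := mul v25 v28; ok v31 && (
  let v32 := mul v25 v25; ok v32 && (
  let v33 := mul v32 v27; ok v33 && (
  let v34 := mul v32 v25; ok v34 && (
  let v35 := scale ⟨83941173632, 0, 0, 0⟩ v27; ok v35 && (
  let v36 := scale ⟨0, 2340075904, 0, 0⟩ v28; ok v36 && (
  let v37 := add v35 v36; ok v37 && (
  let v38 := scale ⟨0, 32253344512, 0, 0⟩ v29; ok v38 && (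
  let v39 := add v37 v38; ok v39 && (
  let v40 := scale ⟨0, 865660464384, 0, 0⟩ v25; ok v40 && (
  let v41 := add v39 v40; ok v41 && (
  let v42 := scale ⟨0, 55457043968, 0, 0⟩ v30; ok v42 && (
  let v43 := add v41 v42; ok v43 && (
  let v44 := scale ⟨0, 237492820288, 0, 0⟩ v31; ok v44 && (
  let v45 := add v43 v44; ok v45 && (
  let v46 := scale ⟨2121901366912, 0, 0, 0⟩ v32; ok v46 && (
  let v47 := add v45 v46; ok v47 && (
  let v48 := scale ⟨2848470763648, 0, 0, 0⟩ v33; ok v48 && (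
  let v49 := add v47 v48; ok v49 && (
  let v50 := scale ⟨0, 30874393861696, 0, 0⟩ v34; ok v50 && (
  let v51 := add v49 v50; ok v51 && (
  let v52 := cst ⟨513270215680, 0, 0, 0⟩; ok v52 && (
  let v53 := add v51 v52; ok v53 && (
  let v54 := scale ⟨0, 9676077952, 0, 0⟩ v27; ok v54 && (
  let v55 := scale ⟨4276252032, 0, 0, 0⟩ v28; ok v55 && (
  let v56 := add v54 v55; ok v56 && (
  let v57 := scale ⟨117738627968, 0, 0, 0⟩ v25; ok v57 && (
  let v58 := add v56 v57; ok v58 && (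
  let v59 := scale ⟨0, 27465955840, 0, 0⟩ v30; ok v59 && (
  let v60 := add v58 v59; ok v60 && (
  let v61 := scale ⟨0, 380398986944, 0, 0⟩ v32; ok v61 && (
  let v62 := add v60 v61; ok v62 && (
  let v63 := cst ⟨8978478784, 0, 0, 0⟩; ok v63 && (
  let v64 := add v62 v63; ok v64 && (
  let v65 := scale ⟨515925504, 0, 0, 0⟩ v27; ok v65 && (
  let v66 := scale ⟨0, 11201419008, 0, 0⟩ v25; ok v66 && (
  let v67 := add v65 v66; ok v67 && (
  let v68 := cst ⟨0, 1545728768, 0, 0⟩; ok v68 && (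
  let v69 := add v67 v68; ok v69 && (
  let v70 := scale ⟨0, 0, 1099511627776, 0⟩ x2; ok v70 && (
  let v71 := scale ⟨549755813888, 0, 0, 0⟩ v70; ok v71 && (
  let v72 := add v71 v18; ok v72 && (
  let v73 := inv v72; ok v73 && (
  let v74 := mul v70 v73; ok v74 && (
  let v75 := scale ⟨0, 895662138816, 0, 0⟩ v74; ok v75 && (
  let v76 := cst ⟨2076435611520, 0, 0, 0⟩; ok v76 && (
  let v77 := add v75 v76; ok v77 && (
  let v78 := mul v74 v77; ok v78 && (
  let v79 := cst ⟨0, 3038029614144, 0, 0⟩; ok v79 && (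
  let v80 := add v78 v79; ok v80 && (
  let v81 := mul v74 v80; ok v81 && (
  let v82 := scale ⟨245352459264, 0, 0, 0⟩ v27; ok v82 && (
  let v83 := scale ⟨0, 7257486324864, 0, 0⟩ v25; ok v83 && (
  let v84 := add v82 v83; ok v84 && (
  let v85 := cst ⟨2244522102336, 0, 0, 0⟩; ok v85 && (
  let v86 := add v84 v85; ok v86 && (
  let v87 := add v81 v86; ok v87 && (
  let v88 := mul v74 v87; ok v88 && (
  let v89 := scale ⟨0, 755976157120, 0, 0⟩ v27; ok v89 && (
  let v90 := scale ⟨0, 6554874601600, 0, 0⟩ v25; ok v90 && (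
  let v91 := add v89 v90; ok v91 && (
  let v92 := cst ⟨0, 773713461952, 0, 0⟩; ok v92 && (
  let v93 := add v91 v92; ok v93 && (
  let v94 := add v88 v93; ok v94 && (
  let v95 := mul v74 v94; ok v95 && (
  let v96 := scale ⟨1039262328064, 0, 0, 0⟩ v27; ok v96 && (
  let v97 := scale ⟨0, 505346770304, 0, 0⟩ v25; ok v97 && (
  let v98 := add v96 v97; ok v98 && (
  let v99 := cst ⟨133774276416, 0, 0, 0⟩; ok v99 && (
  let v100 := add v98 v99; ok v100 && (
  let v101 := add v95 v100; ok v101 && (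
  let v102 := mul v74 v101; ok v102 && (
  let v103 := scale ⟨0, 834075366656, 0, 0⟩ v27; ok v103 && (
  let v104 := scale ⟨0, 36487807936, 0, 0⟩ v28; ok v104 && (
  let v105 := add v103 v104; ok v105 && (
  let v106 := scale ⟨0, 19927972810368, 0, 0⟩ v25; ok v106 && (
  let v107 := add v105 v106; ok v107 && (
  let v108 := scale ⟨1389511888064, 0, 0, 0⟩ v30; ok v108 && (
  let v109 := add v107 v108; ok v109 && (
  let v110 := scale ⟨30041132069120, 0, 0, 0⟩ v32; ok v110 && (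
  let v111 := add v109 v110; ok v111 && (
  let v112 := cst ⟨821663397184, 0, 0, 0⟩; ok v112 && (
  let v113 := add v111 v112; ok v113 && (
  let v114 := add v102 v113; ok v114 && (
  let v115 := mul v74 v114; ok v115 && (
  let v116 := scale ⟨295166849984, 0, 0, 0⟩ v27; ok v116 && (
  let v117 := scale ⟨0, 91180346496, 0, 0⟩ v28; ok v117 && (
  let v118 := add v116 v117; ok v118 && (
  let v119 := scale ⟨3375467272832, 0, 0, 0⟩ v25; ok v119 && (
  let v120 := add v118 v119; ok v120 && (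
  let v121 := scale ⟨0, 3316338186368, 0, 0⟩ v30; ok v121 && (
  let v122 := add v120 v121; ok v122 && (
  let v123 := scale ⟨0, 23805971984320, 0, 0⟩ v32; ok v123 && (
  let v124 := add v122 v123; ok v124 && (
  let v125 := cst ⟨3604803594304, 0, 0, 0⟩; ok v125 && (
  let v126 := add v124 v125; ok v126 && (
  let v127 := add v115 v126; ok v127 && (
  let v128 := mul v74 v127; ok v128 && (
  let v129 := scale ⟨296662592640, 0, 0, 0⟩ v27; ok v129 && (
  let v130 := scale ⟨84820050368, 0, 0, 0⟩ v28; ok v130 && (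
  let v131 := add v129 v130; ok v131 && (
  let v132 := scale ⟨0, 126167864448, 0, 0⟩ v29; ok v132 && (
  let v133 := add v131 v132; ok v133 && (
  let v134 := scale ⟨3195250421312, 0, 0, 0⟩ v25; ok v134 && (
  let v135 := add v133 v134; ok v135 && (
  let v136 := scale ⟨5651414979328, 0, 0, 0⟩ v30; ok v136 && (
  let v137 := add v135 v136; ok v137 && (
  let v138 := scale ⟨0, 2390990280256, 0, 0⟩ v31; ok v138 && (
  let v139 := add v137 v138; ok v139 && (
  let v140 := scale ⟨6837195579136, 0, 0, 0⟩ v32; ok v140 && (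
  let v141 := add v139 v140; ok v141 && (
  let v142 := scale ⟨0, 40730185465600, 0, 0⟩ v33; ok v142 && (
  let v143 := add v141 v142; ok v143 && (
  let v144 := scale ⟨0, 182896610263936, 0, 0⟩ v34; ok v144 && (
  let v145 := add v143 v144; ok v145 && (
  let v146 := cst ⟨210320631552, 0, 0, 0⟩; ok v146 && (
  let v147 := add v145 v146; ok v147 && (
  let v148 := mul v147 x1; ok v148 && (
  let v149 := add v128 v148; ok v149 && (
  let v150 := mul x0 x0; ok v150 && (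
  let v151 := scale ⟨5703716569088, 0, 0, 0⟩ v150; ok v151 && (
  let v152 := cst ⟨1726576852992, 0, 0, 0⟩; ok v152 && (
  let v153 := add v151 v152; ok v153 && (
  let v154 := scale ⟨4398046511104, 0, 0, 0⟩ x1; ok v154 && (
  let v155 := mul v74 v153; ok v155 && (
  let v156 := scale ⟨4398046511104, 0, 0, 0⟩ v155; ok v156 && (
  let v157 := add v154 v156; ok v157 && (
  let v158 := scale ⟨124053028864, 0, 0, 0⟩ v27; ok v158 && (
  let v159 := scale ⟨776385658880, 0, 0, 0⟩ v28; ok v159 && (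
  let v160 := add v158 v159; ok v160 && (
  let v161 := scale ⟨0, 53218443264, 0, 0⟩ v29; ok v161 && (
  let v162 := add v160 v161; ok v162 && (
  let v163 := scale ⟨0, 1971918733312, 0, 0⟩ v25; ok v163 && (
  let v164 := add v162 v163; ok v164 && (
  let v165 := scale ⟨0, 3742236868608, 0, 0⟩ v30; ok v165 && (
  let v166 := add v164 v165; ok v166 && (
  let v167 := cst ⟨155365801984, 0, 0, 0⟩; ok v167 && (
  let v168 := add v166 v167; ok v168 && (
  let v169 := scale ⟨0, 4535485464576, 0, 0⟩ v2; ok v169 && (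
  let v170 := neg v169; ok v170 && (
  let v171 := exp v170; ok v171 && (
  let v172 := mul v168 v171; ok v172 && (
  let v173 := mul v172 v157; ok v173 && (
  let v174 := scale ⟨879662989312, 0, 0, 0⟩ v157; ok v174 && (
  let v175 := add v174 v18; ok v175 && (
  isPos 3 v175 && (
  let v176 := inv v175; ok v176 && (
  let v177 := mul v173 v176; ok v177 && (
  let v178 := neg v149; ok v178 && (
  let v179 := exp v178; ok v179 && (
  let v180 := add v179 v18; ok v180 && (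
  isPos 3 v180 && (
  let v181 := log v180; ok v181 && (
  let v182 := mul v177 x3; ok v182 && (
  let v183 := sub v18 v182; ok v183 && (
  let v184 := log v183; ok v184 && (
  let v185 := mul v179 v182; ok v185 && (
  let v186 := add v185 v18; ok v186 && (
  isPos 3 v186 && (
  let v187 := log v186; ok v187 && (
  let v188 := scale ⟨274877906944, 0, 0, 0⟩ v13; ok v188 && (
  let v189 := log v19; ok v189 && (
  let v190 := add x1 v189; ok v190 && (
  let v191 := sub v181 v187; ok v191 && (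
  let v192 := sub v191 v190; ok v192 && (
  let v193 := mul v192 x0; ok v193 && (
  let v194 := exp v193; ok v194 && (
  let v195 := sub v187 v184; ok v195 && (
  let v196 := add v195 v149; ok v196 && (
  let v197 := mul v196 x0; ok v197 && (
  let v198 := exp v197; ok v198 && (
  let v199 := mul x0 v153; ok v199 && (
  let v200 := scale ⟨1649267441664, 0, 0, 0⟩ v188; ok v200 && (
  let v201 := add v200 v18; ok v201 && (
  let v202 := mul v199 v201; ok v202 && (
  let v203 := mul x2 v202; ok v203 && (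
  let v204 := scale ⟨0, 0, 1099511627776, 0⟩ v203; ok v204 && (
  let v205 := mul v204 v204; ok v205 && (
  let v206 := sub v188 v205; ok v206 && (
  let v207 := mul v194 v194; ok v207 && (
  let v208 := mul v207 v206; ok v208 && (
  let v209 := scale ⟨4398046511104, 0, 0, 0⟩ v208; ok v209 && (
  let v210 := sub v18 v209; ok v210 && (
  let v211 := log v210; ok v211 && (
  let v212 := scale ⟨549755813888, 0, 0, 0⟩ v211; ok v212 && (
  let v213 := exp v212; ok v213 && (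
  let v214 := mul v194 v204; ok v214 && (
  let v215 := mul v214 v213; ok v215 && (
  let v216 := mul v188 v198; ok v216 && (
  let v217 := scale ⟨2199023255552, 0, 0, 0⟩ v206; ok v217 && (
  let v218 := add v216 v217; ok v218 && (
  let v219 := mul v207 v218; ok v219 && (
  let v220 := add v219 v215; ok v220 && (
  let v221 := mul v198 v220; ok v221 && (
  let v222 := scale ⟨4398046511104, 0, 0, 0⟩ v221; ok v222 && (
  let v223 := add v222 v18; ok v223 && (
  let v224 := log v223; ok v224 && (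
  let v225 := scale ⟨549755813888, 0, 0, 0⟩ v224; ok v225 && (
  let v226 := exp v225; ok v226 && (
  let v227 := sub v226 v23; ok v227 && (
  let v228 := mul v14 v14; ok v228 && (
  let v229 := cst ⟨13392781770752, 0, 0, 0⟩; ok v229 && (
  let v230 := add v228 v229; ok v230 && (
  isPos 3 v230 && (
  let v231 := inv v230; ok v231 && (
  let v232 := mul v227 v0; ok v232 && (
  let v233 := mul v232 v232; ok v233 && (
  let v234 := sub v233 v228; ok v234 && (
  let v235 := mul v234 v231; ok v235 && (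
  isLt v235 1099510579200 && (
  let v236 := mul v194 v204; ok v236 && (
  let v237 := scale ⟨2199023255552, 0, 0, 0⟩ v236; ok v237 && (
  let v238 := sub v213 v237; ok v238 && (
  isPos 3 v238 && (
  let v239 := mul v204 v10; ok v239 && (
  let v240 := add v23 v239; ok v240 && (
  let v241 := inv v240; ok v241 && (
  let v242 := sub v23 v241; ok v242 && (
  let v243 := sub v227 v242; ok v243 && (
  let v244 := scale ⟨312373805056, 0, 0, 0⟩ v27; ok v244 && (
  let v245 := scale ⟨1093637046272, 0, 0, 0⟩ v28; ok v245 && (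
  let v246 := add v244 v245; ok v246 && (
  let v247 := scale ⟨1101807222784, 0, 0, 0⟩ v29; ok v247 && (
  let v248 := add v246 v247; ok v248 && (
  let v249 := scale ⟨0, 4357094965248, 0, 0⟩ v25; ok v249 && (
  let v250 := add v248 v249; ok v250 && (
  let v251 := scale ⟨5207974019072, 0, 0, 0⟩ v30; ok v251 && (
  let v252 := add v250 v251; ok v252 && (
  let v253 := cst ⟨1831922171904, 0, 0, 0⟩; ok v253 && (
  let v254 := add v252 v253; ok v254 && (
  let v255 := add v239 v12; ok v255 && (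
  let v256 := inv v255; ok v256 && (
  let v257 := mul v7 v240; ok v257 && (
  let v258 := mul v256 v257; ok v258 && (
  let v259 := mul v258 v243; ok v259 && (
  let v260 := inv v2; ok v260 && (
  let v261 := mul v12 v260; ok v261 && (
  let v262 := scale ⟨2199023255552, 0, 0, 0⟩ v261; ok v262 && (
  let v263 := mul v262 v259; ok v263 && (
  let v264 := add v259 v18; ok v264 && (
  let v265 := inv v264; ok v265 && (
  let v266 := mul v258 v265; ok v266 && (
  let v267 := mul v266 v6; ok v267 && (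
  let v268 := mul v267 v6; ok v268 && (
  let v269 := inv v254; ok v269 && (
  let v270 := mul v268 v269; ok v270 && (
  let v271 := mul v263 v270; ok v271 && (
  isLt v271 1099510579200 && (
  let v272 := add v23 v227; ok v272 && (
  isPos 3 v272 && (
  let v273 := inv v272; ok v273 && (
  let v274 := mul v273 v273; ok v274 && (
  let v275 := sub v18 v274; ok v275 && (
  let v276 := mul v275 v0; ok v276 && (
  let v277 := sub v8 v274; ok v277 && (
  let v278 := mul v277 v0; ok v278 && (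
  let v279 := scale ⟨0, 10479720202240, 0, 0⟩ v25; ok v279 && (
  let v280 := cst ⟨0, 1397474983936, 0, 0⟩; ok v280 && (
  let v281 := add v279 v280; ok v281 && (
  let v282 := sub v276 v281; ok v282 && (
  isPos 3 v282 && (
  let v283 := inv v282; ok v283 && (
  let v284 := scale ⟨31362867265536, 0, 0, 0⟩ v283; ok v284 && (
  let v285 := add v282 v284; ok v285 && (
  isPos 3 v285 && (
  let v286 := inv v285; ok v286 && (
  let v287 := scale ⟨0, 341580515840, 0, 0⟩ v27; ok v287 && (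
  let v288 := scale ⟨1189224579328, 0, 0, 0⟩ v25; ok v288 && (
  let v289 := add v287 v288; ok v289 && (
  let v290 := cst ⟨0, 50427793024, 0, 0⟩; ok v290 && (
  let v291 := add v289 v290; ok v291 && (
  let v292 := scale ⟨0, 1020497729664, 0, 0⟩ v27; ok v292 && (
  let v293 := scale ⟨36912893669120, 0, 0, 0⟩ v25; ok v293 && (
  let v294 := add v292 v293; ok v294 && (
  let v295 := cst ⟨1926350065408, 0, 0, 0⟩; ok v295 && (
  let v296 := add v294 v295; ok v296 && (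
  let v297 := mul v283 v296; ok v297 && (
  let v298 := add v291 v297; ok v298 && (
  let v299 := mul v298 v286; ok v299 && (
  let v300 := scale ⟨0, 6537408, 0, 0⟩ v276; ok v300 && (
  let v301 := cst ⟨134625536, 0, 0, 0⟩; ok v301 && (
  let v302 := add v300 v301; ok v302 && (
  let v303 := mul v276 v302; ok v303 && (
  let v304 := add v303 v69; ok v304 && (
  let v305 := mul v276 v304; ok v305 && (
  let v306 := add v305 v64; ok v306 && (
  let v307 := mul v276 v306; ok v307 && (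
  let v308 := add v299 v53; ok v308 && (
  let v309 := add v307 v308; ok v309 && (
  let v310 := mul v278 v309; ok v310 && (
  let v311 := neg v310; ok v311 && (
  let v312 := exp v311; ok v312 && (
  let v313 := sub v312 v18; ok v313 && (
  let v314 := add v313 v18; ok v314 && (
  let v315 := mul v17 v314; ok v315 && (
  let v316 := add v315 v18; ok v316 && (
  isPos 3 v316 && (
  let v317 := mul v21 v313; ok v317 && (
  let v318 := add v317 v18; ok v318 && (
  isPos 3 v318 && (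
  let v319 := log v318; ok v319 && (
  let v320 := add v227 v12; ok v320 && (
  let v321 := add v149 v181; ok v321 && (
  let v322 := sub v321 v189; ok v322 && (
  let v323 := sub v322 v319; ok v323 && (
  let v324 := scale ⟨549755813888, 0, 0, 0⟩ v0; ok v324 && (
  let v325 := mul v224 v324; ok v325 && (
  let v326 := sub v323 v325; ok v326 && (
  let v327 := exp v326; ok v327 && (
  let v328 := scale ⟨0, 25486163968, 0, 0⟩ v74; ok v328 && (
  let v329 := cst ⟨193207009280, 0, 0, 0⟩; ok v329 && (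
  let v330 := add v328 v329; ok v330 && (
  let v331 := mul v74 v330; ok v331 && (
  let v332 := cst ⟨0, 358675972096, 0, 0⟩; ok v332 && (
  let v333 := add v331 v332; ok v333 && (
  let v334 := mul v74 v333; ok v334 && (
  let v335 := scale ⟨0, 95342362624, 0, 0⟩ v27; ok v335 && (
  let v336 := scale ⟨0, 980946190336, 0, 0⟩ v25; ok v336 && (
  let v337 := add v335 v336; ok v337 && (
  let v338 := cst ⟨379478343680, 0, 0, 0⟩; ok v338 && (
  let v339 := add v337 v338; ok v339 && (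
  let v340 := add v334 v339; ok v340 && (
  let v341 := mul v74 v340; ok v341 && (
  let v342 := scale ⟨42976018432, 0, 0, 0⟩ v27; ok v342 && (
  let v343 := scale ⟨4568329355264, 0, 0, 0⟩ v25; ok v343 && (
  let v344 := add v342 v343; ok v344 && (
  let v345 := cst ⟨121769951232, 0, 0, 0⟩; ok v345 && (
  let v346 := add v344 v345; ok v346 && (
  let v347 := add v341 v346; ok v347 && (
  let v348 := mul v74 v347; ok v348 && (
  let v349 := scale ⟨37034196992, 0, 0, 0⟩ v27; ok v349 && (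
  let v350 := scale ⟨30061887488, 0, 0, 0⟩ v28; ok v350 && (
  let v351 := add v349 v350; ok v351 && (
  let v352 := scale ⟨71966195712, 0, 0, 0⟩ v25; ok v352 && (
  let v353 := add v351 v352; ok v353 && (
  let v354 := scale ⟨1746140135424, 0, 0, 0⟩ v30; ok v354 && (
  let v355 := add v353 v354; ok v355 && (
  let v356 := scale ⟨11122643566592, 0, 0, 0⟩ v32; ok v356 && (
  let v357 := add v355 v356; ok v357 && (
  let v358 := cst ⟨1108411416576, 0, 0, 0⟩; ok v358 && (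
  let v359 := add v357 v358; ok v359 && (
  let v360 := add v348 v359; ok v360 && (
  let v361 := inv v173; ok v361 && (
  let v362 := mul v361 v175; ok v362 && (
  let v363 := scale ⟨0, 9577168896, 0, 0⟩ v27; ok v363 && (
  let v364 := scale ⟨40041775104, 0, 0, 0⟩ v28; ok v364 && (
  let v365 := add v363 v364; ok v365 && (
  let v366 := scale ⟨280424284160, 0, 0, 0⟩ v29; ok v366 && (
  let v367 := add v365 v366; ok v367 && (
  let v368 := scale ⟨0, 88053776384, 0, 0⟩ v25; ok v368 && (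
  let v369 := add v367 v368; ok v369 && (
  let v370 := scale ⟨0, 498895224832, 0, 0⟩ v30; ok v370 && (
  let v371 := add v369 v370; ok v371 && (
  let v372 := cst ⟨87077158912, 0, 0, 0⟩; ok v372 && (
  let v373 := add v371 v372; ok v373 && (
  let v374 := scale ⟨1649267441664, 0, 0, 0⟩ v2; ok v374 && (
  let v375 := neg v374; ok v375 && (
  let v376 := exp v375; ok v376 && (
  let v377 := mul v373 v376; ok v377 && (
  let v378 := scale ⟨2199023255552, 0, 0, 0⟩ v377; ok v378 && (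
  let v379 := mul v378 v320; ok v379 && (
  let v380 := scale ⟨879662989312, 0, 0, 0⟩ v227; ok v380 && (
  let v381 := add v380 x0; ok v381 && (
  let v382 := inv v381; ok v382 && (
  let v383 := mul v379 v382; ok v383 && (
  let v384 := cst ⟨0, 0, 0, 0⟩; ok v384 && (
  let v385 := mul v360 v327; ok v385 && (
  let v386 := mul v385 v315; ok v386 && (
  let v387 := mul v386 v383; ok v387 && (
  let v388 := mul v387 v362; ok v388 && (
  let v389 := rball v384 v388; ok v389 && (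
  let v390 := sub v18 v360; ok v390 && (
  let v391 := mul x3 v390; ok v391 && (
  let v392 := sub v18 v327; ok v392 && (
  let v393 := mul v392 v362; ok v393 && (
  let v394 := mul v360 v393; ok v394 && (
  let v395 := add v391 v394; ok v395 && (
  let v396 := add v395 v389; ok v396 && (
  isLt v396 1099510579200 && (
  true))))))))))))))))))))))))))))))))))))))))))))))))))))))))))))))))))))))))))))))))))))))))))))))))))))))))))))))))))))))))))))))))))))))))))))))))))))))))))))))))))))))))))))))))))))))))))))))))))))))))))))))))))))))))))))))))))))))))))))))))))))))))))))))))))))))))))))))))))))))))))))))))))))))))))))))))))))))))))))))))))))))))))))))))))))))))))))))))))))))))))))))))))))))))))))))))))))))))))))))))))))))))))))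
  | _ => false

set_option maxRecDepth 1000000 in
theorem c_Z_0_eq (X : XOps) (m : List X.O.α)
    (h : c_Z_0 X.O.cst X.O.add X.O.sub X.O.mul X.O.scale X.O.neg X.O.inv X.O.exp X.O.log X.O.ok
      X.O.isPos X.O.isLt X.ball X.rball m = true) :
    runX X 3 p_Z_0 m = true := by
  match m, h with
  | [x0, x1, x2, x3], h => exact h

abbrev gZ : List (List Op) := [p_Z_0]

noncomputable abbrev kZ : List (List xE.O.α → Bool) := [c_Z_0 xE.O.cst xE.O.add xE.O.sub xE.O.mul xE.O.scale xE.O.neg xE.O.inv xE.O.exp xE.O.log xE.O.ok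
      xE.O.isPos xE.O.isLt xE.ball xE.rball]

theorem kZ_eq : List.Forall₂ (fun (ops : List Op) (chk : List xE.O.α → Bool) =>
    ∀ m, chk m = true → runX xE 3 ops m = true) gZ kZ :=
  List.Forall₂.cons (c_Z_0_eq xE) List.Forall₂.nil

theorem gZ_eq : gZ = [comp (P0 tab) ρ4 4] := by decide +kernel

def p_T_0 : List Op := [
  .pos 0,
  .inv 0,
  .mul 1 2,
  .scale ⟨2199023255552, 0, 0, 0⟩ 0,
  .exp 1,
  .neg 2,
  .exp 0,
  .mul 2 2,
  .mul 1 1,
  .mul 0 0,
  .sub 5 3,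
  .add 6 4,
  .mul 1 0,
  .scale ⟨549755813888, 0, 0, 0⟩ 0,
  .mul 3 3,
  .mul 1 13,
  .scale ⟨2199023255552, 0, 0, 0⟩ 16,
  .neg 0,
  .exp 0,
  .const ⟨1099511627776, 0, 0, 0⟩,
  .add 1 0,
  .pos 0,
  .inv 0,
  .mul 3 0,
  .add 15 14,
  .scale ⟨549755813888, 0, 0, 0⟩ 0,
  .const ⟨73282879488, 0, 0, 0⟩,
  .sub 25 0,
  .const ⟨824633720832, 0, 0, 0⟩,
  .sub 28 0,
  .mul 0 0,
  .mul 0 1,
  .mul 4 2,
  .mul 5 2,
  .mul 6 6,
  .mul 0 5,
  .mul 1 8,
  .scale ⟨0, 0, 1099511627776, 0⟩ 16,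
  .scale ⟨549755813888, 0, 0, 0⟩ 0,
  .add 0 18,
  .inv 0,
  .mul 3 0,
  .scale ⟨0, 895662138816, 0, 0⟩ 0,
  .const ⟨2076435611520, 0, 0, 0⟩,
  .add 1 0,
  .mul 3 0,
  .const ⟨0, 3038029614144, 0, 0⟩,
  .add 1 0,
  .mul 6 0,
  .scale ⟨245352459264, 0, 0, 0⟩ 19,
  .scale ⟨0, 7257486324864, 0, 0⟩ 22,
  .add 1 0,
  .const ⟨2244522102336, 0, 0, 0⟩,
  .add 1 0,
  .add 5 0,
  .mul 13 0,
  .scale ⟨0, 755976157120, 0, 0⟩ 26,
  .scale ⟨0, 6554874601600, 0, 0⟩ 29,
  .add 1 0,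
  .const ⟨0, 773713461952, 0, 0⟩,
  .add 1 0,
  .add 5 0,
  .mul 20 0,
  .scale ⟨1039262328064, 0, 0, 0⟩ 33,
  .scale ⟨0, 505346770304, 0, 0⟩ 36,
  .add 1 0,
  .const ⟨133774276416, 0, 0, 0⟩,
  .add 1 0,
  .add 5 0,
  .mul 27 0,
  .scale ⟨0, 834075366656, 0, 0⟩ 40,
  .scale ⟨0, 36487807936, 0, 0⟩ 40,
  .add 1 0,
  .scale ⟨0, 19927972810368, 0, 0⟩ 45,
  .add 1 0,
  .scale ⟨1389511888064, 0, 0, 0⟩ 42,
  .add 1 0,
  .scale ⟨30041132069120, 0, 0, 0⟩ 42,
  .add 1 0,
  .const ⟨821663397184, 0, 0, 0⟩,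
  .add 1 0,
  .add 11 0,
  .mul 40 0,
  .scale ⟨295166849984, 0, 0, 0⟩ 53,
  .scale ⟨0, 91180346496, 0, 0⟩ 53,
  .add 1 0,
  .scale ⟨3375467272832, 0, 0, 0⟩ 58,
  .add 1 0,
  .scale ⟨0, 3316338186368, 0, 0⟩ 55,
  .add 1 0,
  .scale ⟨0, 23805971984320, 0, 0⟩ 55,
  .add 1 0,
  .const ⟨3604803594304, 0, 0, 0⟩,
  .add 1 0,
  .add 11 0,
  .mul 53 0,
  .scale ⟨296662592640, 0, 0, 0⟩ 66,
  .scale ⟨84820050368, 0, 0, 0⟩ 66,
  .add 1 0,
  .scale ⟨0, 126167864448, 0, 0⟩ 67,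
  .add 1 0,
  .scale ⟨3195250421312, 0, 0, 0⟩ 73,
  .add 1 0,
  .scale ⟨5651414979328, 0, 0, 0⟩ 70,
  .add 1 0,
  .scale ⟨0, 2390990280256, 0, 0⟩ 71,
  .add 1 0,
  .scale ⟨6837195579136, 0, 0, 0⟩ 72,
  .add 1 0,
  .scale ⟨0, 40730185465600, 0, 0⟩ 73,
  .add 1 0,
  .scale ⟨0, 182896610263936, 0, 0⟩ 74,
  .add 1 0,
  .const ⟨210320631552, 0, 0, 0⟩,
  .add 1 0,
  .mul 0 114,
  .add 20 0,
  .mul 115 115,
  .scale ⟨5703716569088, 0, 0, 0⟩ 0,
  .const ⟨1726576852992, 0, 0, 0⟩,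
  .add 1 0,
  .scale ⟨4398046511104, 0, 0, 0⟩ 120,
  .mul 80 1,
  .scale ⟨4398046511104, 0, 0, 0⟩ 0,
  .add 2 0,
  .scale ⟨124053028864, 0, 0, 0⟩ 95,
  .scale ⟨776385658880, 0, 0, 0⟩ 95,
  .add 1 0,
  .scale ⟨0, 53218443264, 0, 0⟩ 96,
  .add 1 0,
  .scale ⟨0, 1971918733312, 0, 0⟩ 102,
  .add 1 0,
  .scale ⟨0, 3742236868608, 0, 0⟩ 99,
  .add 1 0,
  .const ⟨155365801984, 0, 0, 0⟩,
  .add 1 0,
  .scale ⟨0, 4535485464576, 0, 0⟩ 131,
  .neg 0,
  .exp 0,
  .mul 3 0,
  .mul 0 15,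
  .scale ⟨879662989312, 0, 0, 0⟩ 16,
  .add 0 121,
  .pos 0,
  .inv 0,
  .mul 3 0,
  .neg 28,
  .exp 0,
  .add 0 126,
  .pos 0,
  .log 0,
  .mul 4 149,
  .sub 129 0,
  .log 0,
  .mul 5 2,
  .add 0 132,
  .pos 0,
  .log 0,
  .scale ⟨274877906944, 0, 0, 0⟩ 139,
  .log 134,
  .add 156 0,
  .sub 9 3,
  .sub 0 1,
  .mul 0 158,
  .exp 0,
  .sub 7 10,
  .add 0 46,
  .mul 0 162,
  .exp 0,
  .mul 164 45,
  .scale ⟨1649267441664, 0, 0, 0⟩ 11,
  .add 0 147,
  .mul 2 0,
  .mul 149 0,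
  .scale ⟨0, 0, 1099511627776, 0⟩ 0,
  .mul 0 0,
  .sub 17 0,
  .mul 12 12,
  .mul 0 1,
  .scale ⟨4398046511104, 0, 0, 0⟩ 0,
  .sub 156 0,
  .log 0,
  .scale ⟨549755813888, 0, 0, 0⟩ 0,
  .exp 0,
  .mul 19 9,
  .mul 0 1,
  .scale ⟨4398046511104, 0, 0, 0⟩ 8,
  .scale ⟨2199023255552, 0, 0, 0⟩ 11,
  .sub 0 29,
  .mul 2 0,
  .add 0 166,
  .scale ⟨4398046511104, 0, 0, 0⟩ 5,
  .sub 1 0,
  .log 0,
  .const ⟨549755813888, 0, 0, 0⟩,
  .sub 37 43,
  .scale ⟨549755813888, 0, 0, 0⟩ 190,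
  .mul 3 0,
  .add 2 0,
  .exp 0,
  .sub 5 0,
  .pos 0]

set_option maxRecDepth 1000000 in
noncomputable def c_T_0 {α : Type} (cst : Z → α) (add sub mul : α → α → α) (scale : Z → α → α)
    (neg inv exp log : α → α) (ok : α → Bool) (isPos : Nat → α → Bool) (isLt : α → Nat → Bool)
    (ball : Nat → α → α) (rball : α → α → α) : List α → Bool
  | [x0, x1, x2] =>
  isPos 2 x0 && (
  let v0 := inv x0; ok v0 && (
  let v1 := mul x0 x1; ok v1 && (
  let v2 := scale ⟨2199023255552, 0, 0, 0⟩ v1; ok v2 && (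
  let v3 := exp v1; ok v3 && (
  let v4 := neg v1; ok v4 && (
  let v5 := exp v4; ok v5 && (
  let v6 := mul v3 v3; ok v6 && (
  let v7 := mul v5 v5; ok v7 && (
  let v8 := mul v7 v7; ok v8 && (
  let v9 := sub v3 v5; ok v9 && (
  let v10 := add v3 v5; ok v10 && (
  let v11 := mul v9 v10; ok v11 && (
  let v12 := scale ⟨549755813888, 0, 0, 0⟩ v11; ok v12 && (
  let v13 := mul v9 v9; ok v13 && (
  let v14 := mul v12 v0; ok v14 && (
  let v15 := scale ⟨2199023255552, 0, 0, 0⟩ x1; ok v15 && (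
  let v16 := neg v15; ok v16 && (
  let v17 := exp v16; ok v17 && (
  let v18 := cst ⟨1099511627776, 0, 0, 0⟩; ok v18 && (
  let v19 := add v17 v18; ok v19 && (
  isPos 2 v19 && (
  let v20 := inv v19; ok v20 && (
  let v21 := mul v17 v20; ok v21 && (
  let v22 := add v6 v7; ok v22 && (
  let v23 := scale ⟨549755813888, 0, 0, 0⟩ v22; ok v23 && (
  let v24 := cst ⟨73282879488, 0, 0, 0⟩; ok v24 && (
  let v25 := sub x0 v24; ok v25 && (
  let v26 := cst ⟨824633720832, 0, 0, 0⟩; ok v26 && (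
  let v27 := sub x1 v26; ok v27 && (
  let v28 := mul v27 v27; ok v28 && (
  let v29 := mul v28 v27; ok v29 && (
  let v30 := mul v25 v27; ok v30 && (
  let v31 := mul v25 v28; ok v31 && (
  let v32 := mul v25 v25; ok v32 && (
  let v33 := mul v32 v27; ok v33 && (
  let v34 := mul v32 v25; ok v34 && (
  let v35 := scale ⟨0, 0, 1099511627776, 0⟩ v18; ok v35 && (
  let v36 := scale ⟨549755813888, 0, 0, 0⟩ v35; ok v36 && (
  let v37 := add v36 v18; ok v37 && (
  let v38 := inv v37; ok v38 && (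
  let v39 := mul v35 v38; ok v39 && (
  let v40 := scale ⟨0, 895662138816, 0, 0⟩ v39; ok v40 && (
  let v41 := cst ⟨2076435611520, 0, 0, 0⟩; ok v41 && (
  let v42 := add v40 v41; ok v42 && (
  let v43 := mul v39 v42; ok v43 && (
  let v44 := cst ⟨0, 3038029614144, 0, 0⟩; ok v44 && (
  let v45 := add v43 v44; ok v45 && (
  let v46 := mul v39 v45; ok v46 && (
  let v47 := scale ⟨245352459264, 0, 0, 0⟩ v27; ok v47 && (
  let v48 := scale ⟨0, 7257486324864, 0, 0⟩ v25; ok v48 && (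
  let v49 := add v47 v48; ok v49 && (
  let v50 := cst ⟨2244522102336, 0, 0, 0⟩; ok v50 && (
  let v51 := add v49 v50; ok v51 && (
  let v52 := add v46 v51; ok v52 && (
  let v53 := mul v39 v52; ok v53 && (
  let v54 := scale ⟨0, 755976157120, 0, 0⟩ v27; ok v54 && (
  let v55 := scale ⟨0, 6554874601600, 0, 0⟩ v25; ok v55 && (
  let v56 := add v54 v55; ok v56 && (
  let v57 := cst ⟨0, 773713461952, 0, 0⟩; ok v57 && (
  let v58 := add v56 v57; ok v58 && (
  let v59 := add v53 v58; ok v59 && (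
  let v60 := mul v39 v59; ok v60 && (
  let v61 := scale ⟨1039262328064, 0, 0, 0⟩ v27; ok v61 && (
  let v62 := scale ⟨0, 505346770304, 0, 0⟩ v25; ok v62 && (
  let v63 := add v61 v62; ok v63 && (
  let v64 := cst ⟨133774276416, 0, 0, 0⟩; ok v64 && (
  let v65 := add v63 v64; ok v65 && (
  let v66 := add v60 v65; ok v66 && (
  let v67 := mul v39 v66; ok v67 && (
  let v68 := scale ⟨0, 834075366656, 0, 0⟩ v27; ok v68 && (
  let v69 := scale ⟨0, 36487807936, 0, 0⟩ v28; ok v69 && (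
  let v70 := add v68 v69; ok v70 && (
  let v71 := scale ⟨0, 19927972810368, 0, 0⟩ v25; ok v71 && (
  let v72 := add v70 v71; ok v72 && (
  let v73 := scale ⟨1389511888064, 0, 0, 0⟩ v30; ok v73 && (
  let v74 := add v72 v73; ok v74 && (
  let v75 := scale ⟨30041132069120, 0, 0, 0⟩ v32; ok v75 && (
  let v76 := add v74 v75; ok v76 && (
  let v77 := cst ⟨821663397184, 0, 0, 0⟩; ok v77 && (
  let v78 := add v76 v77; ok v78 && (
  let v79 := add v67 v78; ok v79 && (
  let v80 := mul v39 v79; ok v80 && (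
  let v81 := scale ⟨295166849984, 0, 0, 0⟩ v27; ok v81 && (
  let v82 := scale ⟨0, 91180346496, 0, 0⟩ v28; ok v82 && (
  let v83 := add v81 v82; ok v83 && (
  let v84 := scale ⟨3375467272832, 0, 0, 0⟩ v25; ok v84 && (
  let v85 := add v83 v84; ok v85 && (
  let v86 := scale ⟨0, 3316338186368, 0, 0⟩ v30; ok v86 && (
  let v87 := add v85 v86; ok v87 && (
  let v88 := scale ⟨0, 23805971984320, 0, 0⟩ v32; ok v88 && (
  let v89 := add v87 v88; ok v89 && (
  let v90 := cst ⟨3604803594304, 0, 0, 0⟩; ok v90 && (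
  let v91 := add v89 v90; ok v91 && (
  let v92 := add v80 v91; ok v92 && (
  let v93 := mul v39 v92; ok v93 && (
  let v94 := scale ⟨296662592640, 0, 0, 0⟩ v27; ok v94 && (
  let v95 := scale ⟨84820050368, 0, 0, 0⟩ v28; ok v95 && (
  let v96 := add v94 v95; ok v96 && (
  let v97 := scale ⟨0, 126167864448, 0, 0⟩ v29; ok v97 && (
  let v98 := add v96 v97; ok v98 && (
  let v99 := scale ⟨3195250421312, 0, 0, 0⟩ v25; ok v99 && (
  let v100 := add v98 v99; ok v100 && (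
  let v101 := scale ⟨5651414979328, 0, 0, 0⟩ v30; ok v101 && (
  let v102 := add v100 v101; ok v102 && (
  let v103 := scale ⟨0, 2390990280256, 0, 0⟩ v31; ok v103 && (
  let v104 := add v102 v103; ok v104 && (
  let v105 := scale ⟨6837195579136, 0, 0, 0⟩ v32; ok v105 && (
  let v106 := add v104 v105; ok v106 && (
  let v107 := scale ⟨0, 40730185465600, 0, 0⟩ v33; ok v107 && (
  let v108 := add v106 v107; ok v108 && (
  let v109 := scale ⟨0, 182896610263936, 0, 0⟩ v34; ok v109 && (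
  let v110 := add v108 v109; ok v110 && (
  let v111 := cst ⟨210320631552, 0, 0, 0⟩; ok v111 && (
  let v112 := add v110 v111; ok v112 && (
  let v113 := mul v112 x1; ok v113 && (
  let v114 := add v93 v113; ok v114 && (
  let v115 := mul x0 x0; ok v115 && (
  let v116 := scale ⟨5703716569088, 0, 0, 0⟩ v115; ok v116 && (
  let v117 := cst ⟨1726576852992, 0, 0, 0⟩; ok v117 && (
  let v118 := add v116 v117; ok v118 && (
  let v119 := scale ⟨4398046511104, 0, 0, 0⟩ x1; ok v119 && (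
  let v120 := mul v39 v118; ok v120 && (
  let v121 := scale ⟨4398046511104, 0, 0, 0⟩ v120; ok v121 && (
  let v122 := add v119 v121; ok v122 && (
  let v123 := scale ⟨124053028864, 0, 0, 0⟩ v27; ok v123 && (
  let v124 := scale ⟨776385658880, 0, 0, 0⟩ v28; ok v124 && (
  let v125 := add v123 v124; ok v125 && (
  let v126 := scale ⟨0, 53218443264, 0, 0⟩ v29; ok v126 && (
  let v127 := add v125 v126; ok v127 && (
  let v128 := scale ⟨0, 1971918733312, 0, 0⟩ v25; ok v128 && (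
  let v129 := add v127 v128; ok v129 && (
  let v130 := scale ⟨0, 3742236868608, 0, 0⟩ v30; ok v130 && (
  let v131 := add v129 v130; ok v131 && (
  let v132 := cst ⟨155365801984, 0, 0, 0⟩; ok v132 && (
  let v133 := add v131 v132; ok v133 && (
  let v134 := scale ⟨0, 4535485464576, 0, 0⟩ v2; ok v134 && (
  let v135 := neg v134; ok v135 && (
  let v136 := exp v135; ok v136 && (
  let v137 := mul v133 v136; ok v137 && (
  let v138 := mul v137 v122; ok v138 && (
  let v139 := scale ⟨879662989312, 0, 0, 0⟩ v122; ok v139 && (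
  let v140 := add v139 v18; ok v140 && (
  isPos 2 v140 && (
  let v141 := inv v140; ok v141 && (
  let v142 := mul v138 v141; ok v142 && (
  let v143 := neg v114; ok v143 && (
  let v144 := exp v143; ok v144 && (
  let v145 := add v144 v18; ok v145 && (
  isPos 2 v145 && (
  let v146 := log v145; ok v146 && (
  let v147 := mul v142 x2; ok v147 && (
  let v148 := sub v18 v147; ok v148 && (
  let v149 := log v148; ok v149 && (
  let v150 := mul v144 v147; ok v150 && (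
  let v151 := add v150 v18; ok v151 && (
  isPos 2 v151 && (
  let v152 := log v151; ok v152 && (
  let v153 := scale ⟨274877906944, 0, 0, 0⟩ v13; ok v153 && (
  let v154 := log v19; ok v154 && (
  let v155 := add x1 v154; ok v155 && (
  let v156 := sub v146 v152; ok v156 && (
  let v157 := sub v156 v155; ok v157 && (
  let v158 := mul v157 x0; ok v158 && (
  let v159 := exp v158; ok v159 && (
  let v160 := sub v152 v149; ok v160 && (
  let v161 := add v160 v114; ok v161 && (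
  let v162 := mul v161 x0; ok v162 && (
  let v163 := exp v162; ok v163 && (
  let v164 := mul x0 v118; ok v164 && (
  let v165 := scale ⟨1649267441664, 0, 0, 0⟩ v153; ok v165 && (
  let v166 := add v165 v18; ok v166 && (
  let v167 := mul v164 v166; ok v167 && (
  let v168 := mul v18 v167; ok v168 && (
  let v169 := scale ⟨0, 0, 1099511627776, 0⟩ v168; ok v169 && (
  let v170 := mul v169 v169; ok v170 && (
  let v171 := sub v153 v170; ok v171 && (
  let v172 := mul v159 v159; ok v172 && (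
  let v173 := mul v172 v171; ok v173 && (
  let v174 := scale ⟨4398046511104, 0, 0, 0⟩ v173; ok v174 && (
  let v175 := sub v18 v174; ok v175 && (
  let v176 := log v175; ok v176 && (
  let v177 := scale ⟨549755813888, 0, 0, 0⟩ v176; ok v177 && (
  let v178 := exp v177; ok v178 && (
  let v179 := mul v159 v169; ok v179 && (
  let v180 := mul v179 v178; ok v180 && (
  let v181 := scale ⟨4398046511104, 0, 0, 0⟩ v172; ok v181 && (
  let v182 := scale ⟨2199023255552, 0, 0, 0⟩ v170; ok v182 && (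
  let v183 := sub v182 v153; ok v183 && (
  let v184 := mul v181 v183; ok v184 && (
  let v185 := add v184 v18; ok v185 && (
  let v186 := scale ⟨4398046511104, 0, 0, 0⟩ v180; ok v186 && (
  let v187 := sub v185 v186; ok v187 && (
  let v188 := log v187; ok v188 && (
  let v189 := cst ⟨549755813888, 0, 0, 0⟩; ok v189 && (
  let v190 := sub v152 v146; ok v190 && (
  let v191 := scale ⟨549755813888, 0, 0, 0⟩ v0; ok v191 && (
  let v192 := mul v188 v191; ok v192 && (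
  let v193 := add v190 v192; ok v193 && (
  let v194 := exp v193; ok v194 && (
  let v195 := sub v189 v194; ok v195 && (
  isPos 2 v195 && (
  true))))))))))))))))))))))))))))))))))))))))))))))))))))))))))))))))))))))))))))))))))))))))))))))))))))))))))))))))))))))))))))))))))))))))))))))))))))))))))))))))))))))))))))))))))))))))))))))))))))))))))
  | _ => false

set_option maxRecDepth 1000000 in
theorem c_T_0_eq (X : XOps) (m : List X.O.α)
    (h : c_T_0 X.O.cst X.O.add X.O.sub X.O.mul X.O.scale X.O.neg X.O.inv X.O.exp X.O.log X.O.ok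
      X.O.isPos X.O.isLt X.ball X.rball m = true) :
    runX X 2 p_T_0 m = true := by
  match m, h with
  | [x0, x1, x2], h => exact h

abbrev gT : List (List Op) := [p_T_0]

noncomputable abbrev kT : List (List xE.O.α → Bool) := [c_T_0 xE.O.cst xE.O.add xE.O.sub xE.O.mul xE.O.scale xE.O.neg xE.O.inv xE.O.exp xE.O.log xE.O.ok
      xE.O.isPos xE.O.isLt xE.ball xE.rball]

theorem kT_eq : List.Forall₂ (fun (ops : List Op) (chk : List xE.O.α → Bool) =>
    ∀ m, chk m = true → runX xE 2 ops m = true) gT kT :=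
  List.Forall₂.cons (c_T_0_eq xE) List.Forall₂.nil

theorem gT_eq : gT = [comp (PT tab) ρ3 3] := by decide +kernel

def p_S_0 : List Op := [
  .mul 0 1,
  .scale ⟨2199023255552, 0, 0, 0⟩ 0,
  .exp 1,
  .neg 2,
  .exp 0,
  .mul 0 0,
  .sub 3 1,
  .add 4 2,
  .mul 1 0,
  .scale ⟨549755813888, 0, 0, 0⟩ 0,
  .inv 10,
  .mul 1 0,
  .const ⟨1099511627776, 0, 0, 0⟩,
  .const ⟨73282879488, 0, 0, 0⟩,
  .sub 14 0,
  .const ⟨824633720832, 0, 0, 0⟩,
  .sub 17 0,
  .mul 0 0,
  .mul 0 1,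
  .mul 4 2,
  .scale ⟨312373805056, 0, 0, 0⟩ 3,
  .scale ⟨1093637046272, 0, 0, 0⟩ 3,
  .add 1 0,
  .scale ⟨1101807222784, 0, 0, 0⟩ 4,
  .add 1 0,
  .scale ⟨0, 4357094965248, 0, 0⟩ 10,
  .add 1 0,
  .scale ⟨5207974019072, 0, 0, 0⟩ 7,
  .add 1 0,
  .const ⟨1831922171904, 0, 0, 0⟩,
  .add 1 0,
  .pos 0,
  .mul 19 19,
  .const ⟨13392781770752, 0, 0, 0⟩,
  .add 1 0,
  .pos 0,
  .const ⟨73282879488, 0, 0, 0⟩,
  .sub 35 0,
  .const ⟨824633720832, 0, 0, 0⟩,
  .sub 38 0,
  .mul 0 0,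
  .mul 0 1,
  .mul 4 2,
  .scale ⟨312373805056, 0, 0, 0⟩ 3,
  .scale ⟨1093637046272, 0, 0, 0⟩ 3,
  .add 1 0,
  .scale ⟨1101807222784, 0, 0, 0⟩ 4,
  .add 1 0,
  .scale ⟨0, 4357094965248, 0, 0⟩ 10,
  .add 1 0,
  .scale ⟨5207974019072, 0, 0, 0⟩ 7,
  .add 1 0,
  .const ⟨1831922171904, 0, 0, 0⟩,
  .add 1 0,
  .scale ⟨2199023255552, 0, 0, 0⟩ 50,
  .neg 0,
  .exp 0,
  .mul 53 3,
  .add 0 43,
  .mul 2 0,
  .sub 45 0,
  .inv 49,
  .mul 1 0,
  .pos 0,
  .scale ⟨326506905600, 0, 0, 0⟩ 23,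
  .scale ⟨0, 11031805952, 0, 0⟩ 23,
  .add 1 0,
  .scale ⟨281752371200, 0, 0, 0⟩ 24,
  .add 1 0,
  .scale ⟨5695816204288, 0, 0, 0⟩ 30,
  .add 1 0,
  .scale ⟨5188725506048, 0, 0, 0⟩ 27,
  .add 1 0,
  .const ⟨797380247552, 0, 0, 0⟩,
  .add 1 0,
  .pos 0,
  .mul 60 60,
  .const ⟨15402826465280, 0, 0, 0⟩,
  .add 1 0,
  .pos 0,
  .const ⟨73282879488, 0, 0, 0⟩,
  .sub 76 0,
  .const ⟨824633720832, 0, 0, 0⟩,
  .sub 79 0,
  .mul 0 0,
  .mul 0 1,
  .mul 4 2,
  .scale ⟨638880710656, 0, 0, 0⟩ 3,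
  .scale ⟨1082605240320, 0, 0, 0⟩ 3,
  .add 1 0,
  .scale ⟨1383559593984, 0, 0, 0⟩ 4,
  .add 1 0,
  .scale ⟨1338721239040, 0, 0, 0⟩ 10,
  .add 1 0,
  .scale ⟨10396699525120, 0, 0, 0⟩ 7,
  .add 1 0,
  .const ⟨2629302419456, 0, 0, 0⟩,
  .add 1 0,
  .scale ⟨4398046511104, 0, 0, 0⟩ 91,
  .neg 0,
  .exp 0,
  .mul 94 3,
  .add 0 84,
  .mul 2 0,
  .sub 86 0,
  .inv 90,
  .mul 1 0,
  .pos 0,
  .scale ⟨345508872192, 0, 0, 0⟩ 23,
  .scale ⟨0, 77584334848, 0, 0⟩ 23,
  .add 1 0,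
  .scale ⟨0, 687412346880, 0, 0⟩ 24,
  .add 1 0,
  .scale ⟨5192449589248, 0, 0, 0⟩ 30,
  .add 1 0,
  .scale ⟨6965957754880, 0, 0, 0⟩ 27,
  .add 1 0,
  .const ⟨788076888064, 0, 0, 0⟩,
  .add 1 0,
  .pos 0,
  .mul 101 101,
  .const ⟨16241418829824, 0, 0, 0⟩,
  .add 1 0,
  .pos 0,
  .const ⟨73282879488, 0, 0, 0⟩,
  .sub 117 0,
  .const ⟨824633720832, 0, 0, 0⟩,
  .sub 120 0,
  .mul 0 0,
  .mul 0 1,
  .mul 4 2,
  .scale ⟨984389582848, 0, 0, 0⟩ 3,
  .scale ⟨1005020905472, 0, 0, 0⟩ 3,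
  .add 1 0,
  .scale ⟨696147247104, 0, 0, 0⟩ 4,
  .add 1 0,
  .scale ⟨6531170828288, 0, 0, 0⟩ 10,
  .add 1 0,
  .scale ⟨17362657280000, 0, 0, 0⟩ 7,
  .add 1 0,
  .const ⟨3417379307520, 0, 0, 0⟩,
  .add 1 0,
  .scale ⟨6597069766656, 0, 0, 0⟩ 132,
  .neg 0,
  .exp 0,
  .mul 135 3,
  .add 0 125,
  .mul 2 0,
  .sub 127 0,
  .inv 131,
  .mul 1 0,
  .pos 0,
  .scale ⟨309705310208, 0, 0, 0⟩ 23,
  .scale ⟨0, 107373264896, 0, 0⟩ 23,
  .add 1 0,
  .scale ⟨0, 740243144704, 0, 0⟩ 24,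
  .add 1 0,
  .scale ⟨4821345042432, 0, 0, 0⟩ 30,
  .add 1 0,
  .scale ⟨6736109568000, 0, 0, 0⟩ 27,
  .add 1 0,
  .const ⟨766446206976, 0, 0, 0⟩,
  .add 1 0,
  .pos 0,
  .mul 142 142,
  .const ⟨15974057115648, 0, 0, 0⟩,
  .add 1 0,
  .pos 0,
  .const ⟨73282879488, 0, 0, 0⟩,
  .sub 158 0,
  .const ⟨824633720832, 0, 0, 0⟩,
  .sub 161 0,
  .mul 0 0,
  .mul 0 1,
  .mul 4 2,
  .scale ⟨1294094893056, 0, 0, 0⟩ 3,
  .scale ⟨897647640576, 0, 0, 0⟩ 3,
  .add 1 0,
  .scale ⟨0, 44095897600, 0, 0⟩ 4,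
  .add 1 0,
  .scale ⟨11352515870720, 0, 0, 0⟩ 10,
  .add 1 0,
  .scale ⟨24098766848000, 0, 0, 0⟩ 7,
  .add 1 0,
  .const ⟨4183825514496, 0, 0, 0⟩,
  .add 1 0,
  .scale ⟨8796093022208, 0, 0, 0⟩ 173,
  .neg 0,
  .exp 0,
  .mul 176 3,
  .add 0 166,
  .mul 2 0,
  .sub 168 0,
  .inv 172,
  .mul 1 0,
  .pos 0,
  .scale ⟨267735465984, 0, 0, 0⟩ 23,
  .scale ⟨0, 162939338752, 0, 0⟩ 23,
  .add 1 0,
  .scale ⟨0, 735913246720, 0, 0⟩ 24,
  .add 1 0,
  .scale ⟨4382238048256, 0, 0, 0⟩ 30,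
  .add 1 0,
  .scale ⟨5788930867200, 0, 0, 0⟩ 27,
  .add 1 0,
  .const ⟨755604324352, 0, 0, 0⟩,
  .add 1 0,
  .pos 0,
  .mul 183 183,
  .const ⟨14804752269312, 0, 0, 0⟩,
  .add 1 0,
  .pos 0,
  .const ⟨73282879488, 0, 0, 0⟩,
  .sub 199 0,
  .const ⟨824633720832, 0, 0, 0⟩,
  .sub 202 0,
  .mul 0 0,
  .mul 0 1,
  .mul 4 2,
  .scale ⟨1561830359040, 0, 0, 0⟩ 3,
  .scale ⟨734708301824, 0, 0, 0⟩ 3,
  .add 1 0,
  .scale ⟨0, 780009144320, 0, 0⟩ 4,
  .add 1 0,
  .scale ⟨15734753918976, 0, 0, 0⟩ 10,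
  .add 1 0,
  .scale ⟨29887697715200, 0, 0, 0⟩ 7,
  .add 1 0,
  .const ⟨4939429838848, 0, 0, 0⟩,
  .add 1 0,
  .scale ⟨10995116277760, 0, 0, 0⟩ 214,
  .neg 0,
  .exp 0,
  .mul 217 3,
  .add 0 207,
  .mul 2 0,
  .sub 209 0,
  .inv 213,
  .mul 1 0,
  .pos 0,
  .scale ⟨212923383808, 0, 0, 0⟩ 23,
  .scale ⟨0, 291236413440, 0, 0⟩ 23,
  .add 1 0,
  .scale ⟨0, 362179526656, 0, 0⟩ 24,
  .add 1 0,
  .scale ⟨3783509082112, 0, 0, 0⟩ 30,
  .add 1 0,
  .scale ⟨3694220869632, 0, 0, 0⟩ 27,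
  .add 1 0,
  .const ⟨765999316992, 0, 0, 0⟩,
  .add 1 0,
  .pos 0,
  .mul 224 224,
  .const ⟨13153337344000, 0, 0, 0⟩,
  .add 1 0,
  .pos 0,
  .const ⟨73282879488, 0, 0, 0⟩,
  .sub 240 0,
  .const ⟨824633720832, 0, 0, 0⟩,
  .sub 243 0,
  .mul 0 0,
  .mul 0 1,
  .mul 4 2,
  .scale ⟨1774753742848, 0, 0, 0⟩ 3,
  .scale ⟨443471888384, 0, 0, 0⟩ 3,
  .add 1 0,
  .scale ⟨0, 1142188670976, 0, 0⟩ 4,
  .add 1 0,
  .scale ⟨19518263001088, 0, 0, 0⟩ 10,
  .add 1 0,
  .scale ⟨33581918584832, 0, 0, 0⟩ 7,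
  .add 1 0,
  .const ⟨5705429155840, 0, 0, 0⟩,
  .add 1 0,
  .scale ⟨13194139533312, 0, 0, 0⟩ 255,
  .neg 0,
  .exp 0,
  .mul 258 3,
  .add 0 248,
  .mul 2 0,
  .sub 250 0,
  .inv 254,
  .mul 1 0,
  .pos 0,
  .mul 264 9,
  .add 0 254,
  .scale ⟨0, 4617948836659, 0, 0⟩ 266,
  .exp 0,
  .mul 2 0,
  .lt 0 1099511627520]

set_option maxRecDepth 1000000 in
noncomputable def c_S_0 {α : Type} (cst : Z → α) (add sub mul : α → α → α) (scale : Z → α → α)
    (neg inv exp log : α → α) (ok : α → Bool) (isPos : Nat → α → Bool) (isLt : α → Nat → Bool)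
    (ball : Nat → α → α) (rball : α → α → α) : List α → Bool
  | [x0, x1] =>
  let v0 := mul x0 x1; ok v0 && (
  let v1 := scale ⟨2199023255552, 0, 0, 0⟩ v0; ok v1 && (
  let v2 := exp v0; ok v2 && (
  let v3 := neg v0; ok v3 && (
  let v4 := exp v3; ok v4 && (
  let v5 := mul v4 v4; ok v5 && (
  let v6 := sub v2 v4; ok v6 && (
  let v7 := add v2 v4; ok v7 && (
  let v8 := mul v6 v7; ok v8 && (
  let v9 := scale ⟨549755813888, 0, 0, 0⟩ v8; ok v9 && (
  let v10 := inv x0; ok v10 && (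
  let v11 := mul v9 v10; ok v11 && (
  let v12 := cst ⟨1099511627776, 0, 0, 0⟩; ok v12 && (
  let v13 := cst ⟨73282879488, 0, 0, 0⟩; ok v13 && (
  let v14 := sub x0 v13; ok v14 && (
  let v15 := cst ⟨824633720832, 0, 0, 0⟩; ok v15 && (
  let v16 := sub x1 v15; ok v16 && (
  let v17 := mul v16 v16; ok v17 && (
  let v18 := mul v17 v16; ok v18 && (
  let v19 := mul v14 v16; ok v19 && (
  let v20 := scale ⟨312373805056, 0, 0, 0⟩ v16; ok v20 && (
  let v21 := scale ⟨1093637046272, 0, 0, 0⟩ v17; ok v21 && (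
  let v22 := add v20 v21; ok v22 && (
  let v23 := scale ⟨1101807222784, 0, 0, 0⟩ v18; ok v23 && (
  let v24 := add v22 v23; ok v24 && (
  let v25 := scale ⟨0, 4357094965248, 0, 0⟩ v14; ok v25 && (
  let v26 := add v24 v25; ok v26 && (
  let v27 := scale ⟨5207974019072, 0, 0, 0⟩ v19; ok v27 && (
  let v28 := add v26 v27; ok v28 && (
  let v29 := cst ⟨1831922171904, 0, 0, 0⟩; ok v29 && (
  let v30 := add v28 v29; ok v30 && (
  isPos 2 v30 && (
  let v31 := mul v11 v11; ok v31 && (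
  let v32 := cst ⟨13392781770752, 0, 0, 0⟩; ok v32 && (
  let v33 := add v31 v32; ok v33 && (
  isPos 2 v33 && (
  let v34 := cst ⟨73282879488, 0, 0, 0⟩; ok v34 && (
  let v35 := sub x0 v34; ok v35 && (
  let v36 := cst ⟨824633720832, 0, 0, 0⟩; ok v36 && (
  let v37 := sub x1 v36; ok v37 && (
  let v38 := mul v37 v37; ok v38 && (
  let v39 := mul v38 v37; ok v39 && (
  let v40 := mul v35 v37; ok v40 && (
  let v41 := scale ⟨312373805056, 0, 0, 0⟩ v37; ok v41 && (
  let v42 := scale ⟨1093637046272, 0, 0, 0⟩ v38; ok v42 && (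
  let v43 := add v41 v42; ok v43 && (
  let v44 := scale ⟨1101807222784, 0, 0, 0⟩ v39; ok v44 && (
  let v45 := add v43 v44; ok v45 && (
  let v46 := scale ⟨0, 4357094965248, 0, 0⟩ v35; ok v46 && (
  let v47 := add v45 v46; ok v47 && (
  let v48 := scale ⟨5207974019072, 0, 0, 0⟩ v40; ok v48 && (
  let v49 := add v47 v48; ok v49 && (
  let v50 := cst ⟨1831922171904, 0, 0, 0⟩; ok v50 && (
  let v51 := add v49 v50; ok v51 && (
  let v52 := scale ⟨2199023255552, 0, 0, 0⟩ v1; ok v52 && (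
  let v53 := neg v52; ok v53 && (
  let v54 := exp v53; ok v54 && (
  let v55 := mul v1 v51; ok v55 && (
  let v56 := add v55 v12; ok v56 && (
  let v57 := mul v54 v56; ok v57 && (
  let v58 := sub v12 v57; ok v58 && (
  let v59 := inv v9; ok v59 && (
  let v60 := mul v58 v59; ok v60 && (
  isPos 2 v60 && (
  let v61 := scale ⟨326506905600, 0, 0, 0⟩ v37; ok v61 && (
  let v62 := scale ⟨0, 11031805952, 0, 0⟩ v38; ok v62 && (
  let v63 := add v61 v62; ok v63 && (
  let v64 := scale ⟨281752371200, 0, 0, 0⟩ v39; ok v64 && (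
  let v65 := add v63 v64; ok v65 && (
  let v66 := scale ⟨5695816204288, 0, 0, 0⟩ v35; ok v66 && (
  let v67 := add v65 v66; ok v67 && (
  let v68 := scale ⟨5188725506048, 0, 0, 0⟩ v40; ok v68 && (
  let v69 := add v67 v68; ok v69 && (
  let v70 := cst ⟨797380247552, 0, 0, 0⟩; ok v70 && (
  let v71 := add v69 v70; ok v71 && (
  isPos 2 v71 && (
  let v72 := mul v11 v11; ok v72 && (
  let v73 := cst ⟨15402826465280, 0, 0, 0⟩; ok v73 && (
  let v74 := add v72 v73; ok v74 && (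
  isPos 2 v74 && (
  let v75 := cst ⟨73282879488, 0, 0, 0⟩; ok v75 && (
  let v76 := sub x0 v75; ok v76 && (
  let v77 := cst ⟨824633720832, 0, 0, 0⟩; ok v77 && (
  let v78 := sub x1 v77; ok v78 && (
  let v79 := mul v78 v78; ok v79 && (
  let v80 := mul v79 v78; ok v80 && (
  let v81 := mul v76 v78; ok v81 && (
  let v82 := scale ⟨638880710656, 0, 0, 0⟩ v78; ok v82 && (
  let v83 := scale ⟨1082605240320, 0, 0, 0⟩ v79; ok v83 && (
  let v84 := add v82 v83; ok v84 && (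
  let v85 := scale ⟨1383559593984, 0, 0, 0⟩ v80; ok v85 && (
  let v86 := add v84 v85; ok v86 && (
  let v87 := scale ⟨1338721239040, 0, 0, 0⟩ v76; ok v87 && (
  let v88 := add v86 v87; ok v88 && (
  let v89 := scale ⟨10396699525120, 0, 0, 0⟩ v81; ok v89 && (
  let v90 := add v88 v89; ok v90 && (
  let v91 := cst ⟨2629302419456, 0, 0, 0⟩; ok v91 && (
  let v92 := add v90 v91; ok v92 && (
  let v93 := scale ⟨4398046511104, 0, 0, 0⟩ v1; ok v93 && (
  let v94 := neg v93; ok v94 && (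
  let v95 := exp v94; ok v95 && (
  let v96 := mul v1 v92; ok v96 && (
  let v97 := add v96 v12; ok v97 && (
  let v98 := mul v95 v97; ok v98 && (
  let v99 := sub v12 v98; ok v99 && (
  let v100 := inv v9; ok v100 && (
  let v101 := mul v99 v100; ok v101 && (
  isPos 2 v101 && (
  let v102 := scale ⟨345508872192, 0, 0, 0⟩ v78; ok v102 && (
  let v103 := scale ⟨0, 77584334848, 0, 0⟩ v79; ok v103 && (
  let v104 := add v102 v103; ok v104 && (
  let v105 := scale ⟨0, 687412346880, 0, 0⟩ v80; ok v105 && (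
  let v106 := add v104 v105; ok v106 && (
  let v107 := scale ⟨5192449589248, 0, 0, 0⟩ v76; ok v107 && (
  let v108 := add v106 v107; ok v108 && (
  let v109 := scale ⟨6965957754880, 0, 0, 0⟩ v81; ok v109 && (
  let v110 := add v108 v109; ok v110 && (
  let v111 := cst ⟨788076888064, 0, 0, 0⟩; ok v111 && (
  let v112 := add v110 v111; ok v112 && (
  isPos 2 v112 && (
  let v113 := mul v11 v11; ok v113 && (
  let v114 := cst ⟨16241418829824, 0, 0, 0⟩; ok v114 && (
  let v115 := add v113 v114; ok v115 && (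
  isPos 2 v115 && (
  let v116 := cst ⟨73282879488, 0, 0, 0⟩; ok v116 && (
  let v117 := sub x0 v116; ok v117 && (
  let v118 := cst ⟨824633720832, 0, 0, 0⟩; ok v118 && (
  let v119 := sub x1 v118; ok v119 && (
  let v120 := mul v119 v119; ok v120 && (
  let v121 := mul v120 v119; ok v121 && (
  let v122 := mul v117 v119; ok v122 && (
  let v123 := scale ⟨984389582848, 0, 0, 0⟩ v119; ok v123 && (
  let v124 := scale ⟨1005020905472, 0, 0, 0⟩ v120; ok v124 && (
  let v125 := add v123 v124; ok v125 && (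
  let v126 := scale ⟨696147247104, 0, 0, 0⟩ v121; ok v126 && (
  let v127 := add v125 v126; ok v127 && (
  let v128 := scale ⟨6531170828288, 0, 0, 0⟩ v117; ok v128 && (
  let v129 := add v127 v128; ok v129 && (
  let v130 := scale ⟨17362657280000, 0, 0, 0⟩ v122; ok v130 && (
  let v131 := add v129 v130; ok v131 && (
  let v132 := cst ⟨3417379307520, 0, 0, 0⟩; ok v132 && (
  let v133 := add v131 v132; ok v133 && (
  let v134 := scale ⟨6597069766656, 0, 0, 0⟩ v1; ok v134 && (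
  let v135 := neg v134; ok v135 && (
  let v136 := exp v135; ok v136 && (
  let v137 := mul v1 v133; ok v137 && (
  let v138 := add v137 v12; ok v138 && (
  let v139 := mul v136 v138; ok v139 && (
  let v140 := sub v12 v139; ok v140 && (
  let v141 := inv v9; ok v141 && (
  let v142 := mul v140 v141; ok v142 && (
  isPos 2 v142 && (
  let v143 := scale ⟨309705310208, 0, 0, 0⟩ v119; ok v143 && (
  let v144 := scale ⟨0, 107373264896, 0, 0⟩ v120; ok v144 && (
  let v145 := add v143 v144; ok v145 && (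
  let v146 := scale ⟨0, 740243144704, 0, 0⟩ v121; ok v146 && (
  let v147 := add v145 v146; ok v147 && (
  let v148 := scale ⟨4821345042432, 0, 0, 0⟩ v117; ok v148 && (
  let v149 := add v147 v148; ok v149 && (
  let v150 := scale ⟨6736109568000, 0, 0, 0⟩ v122; ok v150 && (
  let v151 := add v149 v150; ok v151 && (
  let v152 := cst ⟨766446206976, 0, 0, 0⟩; ok v152 && (
  let v153 := add v151 v152; ok v153 && (
  isPos 2 v153 && (
  let v154 := mul v11 v11; ok v154 && (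
  let v155 := cst ⟨15974057115648, 0, 0, 0⟩; ok v155 && (
  let v156 := add v154 v155; ok v156 && (
  isPos 2 v156 && (
  let v157 := cst ⟨73282879488, 0, 0, 0⟩; ok v157 && (
  let v158 := sub x0 v157; ok v158 && (
  let v159 := cst ⟨824633720832, 0, 0, 0⟩; ok v159 && (
  let v160 := sub x1 v159; ok v160 && (
  let v161 := mul v160 v160; ok v161 && (
  let v162 := mul v161 v160; ok v162 && (
  let v163 := mul v158 v160; ok v163 && (
  let v164 := scale ⟨1294094893056, 0, 0, 0⟩ v160; ok v164 && (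
  let v165 := scale ⟨897647640576, 0, 0, 0⟩ v161; ok v165 && (
  let v166 := add v164 v165; ok v166 && (
  let v167 := scale ⟨0, 44095897600, 0, 0⟩ v162; ok v167 && (
  let v168 := add v166 v167; ok v168 && (
  let v169 := scale ⟨11352515870720, 0, 0, 0⟩ v158; ok v169 && (
  let v170 := add v168 v169; ok v170 && (
  let v171 := scale ⟨24098766848000, 0, 0, 0⟩ v163; ok v171 && (
  let v172 := add v170 v171; ok v172 && (
  let v173 := cst ⟨4183825514496, 0, 0, 0⟩; ok v173 && (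
  let v174 := add v172 v173; ok v174 && (
  let v175 := scale ⟨8796093022208, 0, 0, 0⟩ v1; ok v175 && (
  let v176 := neg v175; ok v176 && (
  let v177 := exp v176; ok v177 && (
  let v178 := mul v1 v174; ok v178 && (
  let v179 := add v178 v12; ok v179 && (
  let v180 := mul v177 v179; ok v180 && (
  let v181 := sub v12 v180; ok v181 && (
  let v182 := inv v9; ok v182 && (
  let v183 := mul v181 v182; ok v183 && (
  isPos 2 v183 && (
  let v184 := scale ⟨267735465984, 0, 0, 0⟩ v160; ok v184 && (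
  let v185 := scale ⟨0, 162939338752, 0, 0⟩ v161; ok v185 && (
  let v186 := add v184 v185; ok v186 && (
  let v187 := scale ⟨0, 735913246720, 0, 0⟩ v162; ok v187 && (
  let v188 := add v186 v187; ok v188 && (
  let v189 := scale ⟨4382238048256, 0, 0, 0⟩ v158; ok v189 && (
  let v190 := add v188 v189; ok v190 && (
  let v191 := scale ⟨5788930867200, 0, 0, 0⟩ v163; ok v191 && (
  let v192 := add v190 v191; ok v192 && (
  let v193 := cst ⟨755604324352, 0, 0, 0⟩; ok v193 && (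
  let v194 := add v192 v193; ok v194 && (
  isPos 2 v194 && (
  let v195 := mul v11 v11; ok v195 && (
  let v196 := cst ⟨14804752269312, 0, 0, 0⟩; ok v196 && (
  let v197 := add v195 v196; ok v197 && (
  isPos 2 v197 && (
  let v198 := cst ⟨73282879488, 0, 0, 0⟩; ok v198 && (
  let v199 := sub x0 v198; ok v199 && (
  let v200 := cst ⟨824633720832, 0, 0, 0⟩; ok v200 && (
  let v201 := sub x1 v200; ok v201 && (
  let v202 := mul v201 v201; ok v202 && (
  let v203 := mul v202 v201; ok v203 && (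
  let v204 := mul v199 v201; ok v204 && (
  let v205 := scale ⟨1561830359040, 0, 0, 0⟩ v201; ok v205 && (
  let v206 := scale ⟨734708301824, 0, 0, 0⟩ v202; ok v206 && (
  let v207 := add v205 v206; ok v207 && (
  let v208 := scale ⟨0, 780009144320, 0, 0⟩ v203; ok v208 && (
  let v209 := add v207 v208; ok v209 && (
  let v210 := scale ⟨15734753918976, 0, 0, 0⟩ v199; ok v210 && (
  let v211 := add v209 v210; ok v211 && (
  let v212 := scale ⟨29887697715200, 0, 0, 0⟩ v204; ok v212 && (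
  let v213 := add v211 v212; ok v213 && (
  let v214 := cst ⟨4939429838848, 0, 0, 0⟩; ok v214 && (
  let v215 := add v213 v214; ok v215 && (
  let v216 := scale ⟨10995116277760, 0, 0, 0⟩ v1; ok v216 && (
  let v217 := neg v216; ok v217 && (
  let v218 := exp v217; ok v218 && (
  let v219 := mul v1 v215; ok v219 && (
  let v220 := add v219 v12; ok v220 && (
  let v221 := mul v218 v220; ok v221 && (
  let v222 := sub v12 v221; ok v222 && (
  let v223 := inv v9; ok v223 && (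
  let v224 := mul v222 v223; ok v224 && (
  isPos 2 v224 && (
  let v225 := scale ⟨212923383808, 0, 0, 0⟩ v201; ok v225 && (
  let v226 := scale ⟨0, 291236413440, 0, 0⟩ v202; ok v226 && (
  let v227 := add v225 v226; ok v227 && (
  let v228 := scale ⟨0, 362179526656, 0, 0⟩ v203; ok v228 && (
  let v229 := add v227 v228; ok v229 && (
  let v230 := scale ⟨3783509082112, 0, 0, 0⟩ v199; ok v230 && (
  let v231 := add v229 v230; ok v231 && (
  let v232 := scale ⟨3694220869632, 0, 0, 0⟩ v204; ok v232 && (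
  let v233 := add v231 v232; ok v233 && (
  let v234 := cst ⟨765999316992, 0, 0, 0⟩; ok v234 && (
  let v235 := add v233 v234; ok v235 && (
  isPos 2 v235 && (
  let v236 := mul v11 v11; ok v236 && (
  let v237 := cst ⟨13153337344000, 0, 0, 0⟩; ok v237 && (
  let v238 := add v236 v237; ok v238 && (
  isPos 2 v238 && (
  let v239 := cst ⟨73282879488, 0, 0, 0⟩; ok v239 && (
  let v240 := sub x0 v239; ok v240 && (
  let v241 := cst ⟨824633720832, 0, 0, 0⟩; ok v241 && (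
  let v242 := sub x1 v241; ok v242 && (
  let v243 := mul v242 v242; ok v243 && (
  let v244 := mul v243 v242; ok v244 && (
  let v245 := mul v240 v242; ok v245 && (
  let v246 := scale ⟨1774753742848, 0, 0, 0⟩ v242; ok v246 && (
  let v247 := scale ⟨443471888384, 0, 0, 0⟩ v243; ok v247 && (
  let v248 := add v246 v247; ok v248 && (
  let v249 := scale ⟨0, 1142188670976, 0, 0⟩ v244; ok v249 && (
  let v250 := add v248 v249; ok v250 && (
  let v251 := scale ⟨19518263001088, 0, 0, 0⟩ v240; ok v251 && (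
  let v252 := add v250 v251; ok v252 && (
  let v253 := scale ⟨33581918584832, 0, 0, 0⟩ v245; ok v253 && (
  let v254 := add v252 v253; ok v254 && (
  let v255 := cst ⟨5705429155840, 0, 0, 0⟩; ok v255 && (
  let v256 := add v254 v255; ok v256 && (
  let v257 := scale ⟨13194139533312, 0, 0, 0⟩ v1; ok v257 && (
  let v258 := neg v257; ok v258 && (
  let v259 := exp v258; ok v259 && (
  let v260 := mul v1 v256; ok v260 && (
  let v261 := add v260 v12; ok v261 && (
  let v262 := mul v259 v261; ok v262 && (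
  let v263 := sub v12 v262; ok v263 && (
  let v264 := inv v9; ok v264 && (
  let v265 := mul v263 v264; ok v265 && (
  isPos 2 v265 && (
  let v266 := mul v1 v256; ok v266 && (
  let v267 := add v266 v12; ok v267 && (
  let v268 := scale ⟨0, 4617948836659, 0, 0⟩ v1; ok v268 && (
  let v269 := exp v268; ok v269 && (
  let v270 := mul v267 v269; ok v270 && (
  isLt v270 1099511627520 && (
  true))))))))))))))))))))))))))))))))))))))))))))))))))))))))))))))))))))))))))))))))))))))))))))))))))))))))))))))))))))))))))))))))))))))))))))))))))))))))))))))))))))))))))))))))))))))))))))))))))))))))))))))))))))))))))))))))))))))))))))))))))))))))))))))))))))))))))))))))))))))))))))))))))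
  | _ => false

set_option maxRecDepth 1000000 in
theorem c_S_0_eq (X : XOps) (m : List X.O.α)
    (h : c_S_0 X.O.cst X.O.add X.O.sub X.O.mul X.O.scale X.O.neg X.O.inv X.O.exp X.O.log X.O.ok
      X.O.isPos X.O.isLt X.ball X.rball m = true) :
    runX X 2 p_S_0 m = true := by
  match m, h with
  | [x0, x1], h => exact h

abbrev gS : List (List Op) := [p_S_0]

noncomputable abbrev kS : List (List xE.O.α → Bool) := [c_S_0 xE.O.cst xE.O.add xE.O.sub xE.O.mul xE.O.scale xE.O.neg xE.O.inv xE.O.exp xE.O.log xE.O.ok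
      xE.O.isPos xE.O.isLt xE.ball xE.rball]

theorem kS_eq : List.Forall₂ (fun (ops : List Op) (chk : List xE.O.α → Bool) =>
    ∀ m, chk m = true → runX xE 2 ops m = true) gS kS :=
  List.Forall₂.cons (c_S_0_eq xE) List.Forall₂.nil

theorem gS_eq : gS = [PS tab 6] := by decide +kernel

end Pool.Agent.helper14.NR.E12c
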