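import Pool.Agent.helper63.NF.Cert

/-!
Generated: table E12c.
-/

namespace Pool.Agent.helper14.NR.E12c

open Pool.Agent.helper63.NF

def tab : TD where
  strip := false
  bm := none
  ec := 73282879488
  bc := 824633720832
  H := [[[-36485598208, 83941173632, -2340075904, -32253344512], [-865660464384, -55457043968, -237492820288], [2121901366912, 2848470763648], [-30874393861696]], [[8978478784, -9676077952, 4276252032], [117738627968, -27465955840], [-380398986944]], [[-1545728768, 515925504], [-11201419008]], [[134625536]], [[-6537408]]]
  pol := some ⟨-1397474983936, -10479720202240, 5872294035456, 31362867265536, [[-50427793024, -341580515840], [1189224579328, 0]], [[1926350065408, -1020497729664], [36912893669120, 0]]⟩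
  a := [[[155365801984, 124053028864, 776385658880, -53218443264], [-1971918733312, -3742236868608]], [[87077158912, -9577168896, 40041775104, 280424284160], [-88053776384, -498895224832]], [[88401772544, 589299712, 1900544, -720896], [6632046592, 8891334656]], [[87522410496, -583204864, 1900544, -720896], [-6562316288, -8701542400]], [[87741366272, -292356096, 458752, -196608], [-3289841664, -4374396928]], [[87960911872, 0, 0, 0], [0, 0]]]
  j := [-4535485464576, 1649267441664, 3573412790272, 5222680231936, 7009386627072, 8796093022208]
  c := [879662989312, 879662989312, 659814350848, 549755813888, 439697276928, 329907175424]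
  M := [[[[1108411416576, 37034196992, 30061887488], [71966195712, 1746140135424], [11122643566592]], [[121769951232, 42976018432], [4568329355264]], [[379478343680, -95342362624], [-980946190336]], [[-358675972096]], [[193207009280]], [[-25486163968]]], [[[1106168774656, 30711742464, 16194994176], [829763747840]], [[43734859776, 1911422976], [578563801088]], [[-1687683072]], [[174653440]]], [[[1107108823040, 37808046080, 32353222656], [680522088448]], [[43043848192, 2320302080], [563359383552]], [[-1441726464]], [[119537664]]], [[[1108823310336, 44100616192, 39572733952], [574921441280]], [[42186440704, 1134166016], [564519436288]], [[-1237450752]], [[87425024]]], [[[1109174124544, 43414781952, 39046348800], [509560815616]], [[41840082944, 1272512512], [565561917440]], [[-1150681088]], [[78512128]]], [[[1107009077248, 39788937216, 37939707904], [436533657600]], [[42821943296, 1443954688], [577356824576]], [[-1306001408]], [[88080384]]]]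
  l0 := [[[3604803594304, 295166849984, -91180346496], [3375467272832, -3316338186368], [-23805971984320]], [[821663397184, -834075366656, -36487807936], [-19927972810368, 1389511888064], [30041132069120]], [[133774276416, 1039262328064], [-505346770304]], [[-773713461952, -755976157120], [-6554874601600]], [[2244522102336, 245352459264], [-7257486324864]], [[-3038029614144]], [[2076435611520]], [[-895662138816]]]
  q0 := [[210320631552, 296662592640, 84820050368, -126167864448], [3195250421312, 5651414979328, -2390990280256], [6837195579136, -40730185465600], [-182896610263936]]
  t := [[[1831922171904, 312373805056, 1093637046272, 1101807222784], [-4357094965248, 5207974019072]], [[797380247552, 326506905600, -11031805952, 281752371200], [5695816204288, 5188725506048]], [[788076888064, 345508872192, -77584334848, -687412346880], [5192449589248, 6965957754880]], [[766446206976, 309705310208, -107373264896, -740243144704], [4821345042432, 6736109568000]], [[755604324352, 267735465984, -162939338752, -735913246720], [4382238048256, 5788930867200]], [[765999316992, 212923383808, -291236413440, -362179526656], [3783509082112, 3694220869632]]]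
  y := [13392781770752, 15402826465280, 16241418829824, 15974057115648, 14804752269312, 13153337344000]
  sc := [0, 0, 0, 0, 0, 0]
  L := [(0, 2), (0, 3), (1, 1), (1, 2), (2, 0), (2, 1), (3, 0)]
  Lt := [(0, 2), (0, 3), (1, 1)]
  far := 1
  x2 := 10775213113344
  B1 := 659706347520
  C2 := 1327712154624
  f1 := 769658138624
  f2 := 0
  f3 := 0
  is1 := 8796093022208
  s1 := 137438953472

end Pool.Agent.helper14.NR.E12c
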